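import Pool.Agent.Lib.MP_d610d0_nt.AS.Stm

/-!
Expansion of `psiR` over divisors.
-/

set_option autoImplicit false

namespace Pool.Agent.TwA

open Finset MeasureTheory
open Pool.Agent.Lib.MP_d610d0_nt

private theorem B1_div {p r : ℕ} (hpp : p.Prime) (hr : r ≠ 0) (hpr : ¬ p ∣ r) (f : ℕ → ℝ) :
    ∑ e ∈ (p * r).divisors, f e = ∑ e ∈ r.divisors, f e + ∑ e ∈ r.divisors, f (p * e) := by
  classical
  have h : (p * r).divisors = r.divisors ∪ r.divisors.image (p * ·) := by
    ext e
    simp only [Nat.mem_divisors, mem_union, mem_image]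
    constructor
    · rintro ⟨h1, _⟩
      by_cases hpe : p ∣ e
      · obtain ⟨e', rfl⟩ := hpe
        exact Or.inr ⟨e', ⟨Nat.dvd_of_mul_dvd_mul_left hpp.pos h1, hr⟩, rfl⟩
      · exact Or.inl ⟨((Nat.Prime.coprime_iff_not_dvd hpp).2 hpe).symm.dvd_of_dvd_mul_left h1, hr⟩
    · rintro (⟨h1, _⟩ | ⟨e', ⟨h1, _⟩, rfl⟩)
      · exact ⟨h1.mul_left p, mul_ne_zero hpp.ne_zero hr⟩
      · exact ⟨Nat.mul_dvd_mul_left p h1, mul_ne_zero hpp.ne_zero hr⟩
  rw [h, sum_union, sum_image]
  · intro a _ b _ hab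
    exact Nat.eq_of_mul_eq_mul_left hpp.pos hab
  · rw [disjoint_left]
    intro e he he'
    obtain ⟨e', _, rfl⟩ := mem_image.1 he'
    exact hpr ((Dvd.intro e' rfl).trans (Nat.dvd_of_mem_divisors he))

private theorem B1_kap {p r e : ℕ} (hpp : p.Prime) (hr : r ≠ 0) (hpr : ¬ p ∣ r) (he : e ∣ r) :
    kap (p * r) e = hp p * kap r e := by
  obtain ⟨g, rfl⟩ := he
  have he0 : e ≠ 0 := fun h => hr (by rw [h, zero_mul])
  have hg0 : g ≠ 0 := fun h => hr (by rw [h, mul_zero])
  have h1 : p * (e * g) / e = p * g := by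
    rw [mul_left_comm]
    exact Nat.mul_div_cancel_left _ (Nat.pos_of_ne_zero he0)
  have h2 : e * g / e = g := Nat.mul_div_cancel_left _ (Nat.pos_of_ne_zero he0)
  unfold kap
  rw [h1, h2, hR_mul_prime hpp hg0 (fun h => hpr (h.mul_left e))]
  ring

private theorem B1_kap' {p r e : ℕ} (hpp : p.Prime) (hr : r ≠ 0) (hpr : ¬ p ∣ r) (he : e ∣ r) :
    kap (p * r) (p * e) = -(1 + hp p) * kap r e := by
  have he0 : e ≠ 0 := fun h => hr (by rw [h] at he; exact Nat.eq_zero_of_zero_dvd he)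
  have h1 : p ∉ e.primeFactors := fun h => hpr ((Nat.dvd_of_mem_primeFactors h).trans he)
  unfold kap
  rw [primeFactors_mul_prime hpp he0, Finset.prod_insert h1, Nat.mul_div_mul_left _ _ hpp.pos]
  ring

private theorem B1_ind {p e t : ℕ} (hpp : p.Prime) (hpe : ¬ p ∣ e) :
    indF (p * e) t = indF p t * indF e t := by
  have hc : Nat.Coprime p e := (Nat.Prime.coprime_iff_not_dvd hpp).2 hpe
  unfold indF
  by_cases h1 : p ∣ F t
  · by_cases h2 : e ∣ F t
    · rw [if_pos (hc.mul_dvd_of_dvd_of_dvd h1 h2), if_pos h1, if_pos h2, one_mul]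
    · rw [if_neg (fun h => h2 ((Dvd.intro_left p rfl).trans h)), if_neg h2, mul_zero]
  · rw [if_neg (fun h => h1 ((Dvd.intro e rfl).trans h)), if_neg h1, zero_mul]

theorem p_B1 : S_B1 := by
  intro r
  induction r using Nat.strong_induction_on with
  | _ r ih =>
    intro t hr
    by_cases h1 : r = 1
    · subst h1
      simp [kap, indF]
    · obtain ⟨p, hpp, hpr⟩ := Nat.exists_prime_and_dvd h1
      obtain ⟨r', rfl, hr', hn⟩ := hr.split hpp hpr
      have hr'0 := hr'.pos
      have hlt : r' < p * r' := by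
        have := hpp.two_le
        nlinarith
      rw [psiR_mul_prime hpp hr'0.ne' hn, psi_eq, ih r' hlt t hr', B1_div hpp hr'0.ne' hn,
        sub_mul, mul_sum, mul_sum, sub_eq_add_neg, ← sum_neg_distrib]
      congr 1
      · refine sum_congr rfl fun e he => ?_
        rw [B1_kap hpp hr'0.ne' hn (Nat.dvd_of_mem_divisors he)]
        ring
      · refine sum_congr rfl fun e he => ?_
        have he' := Nat.dvd_of_mem_divisors he
        rw [B1_kap' hpp hr'0.ne' hn he', B1_ind hpp (fun h => hn (h.trans he'))]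
        ring

end Pool.Agent.TwA
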