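import Mathlib
import Pool.Agent.Lib.MP_d610d0_nt.AS.Stm

/-!
Piece B2: expansion of `Lq` and size of the coefficients.
-/

set_option autoImplicit false

namespace Pool.Agent.TwA

open Finset MeasureTheory
open Pool.Agent.Lib.MP_d610d0_nt

private lemma B2_mem_of_dvd {R : ℝ} (hR0 : 0 ≤ R) {r e : ℕ} (hr : r ∈ SR R) (he : e ∣ r) :
    e ∈ SR R := by
  have hg := good_of_mem_SR hr
  rw [mem_SR hR0]
  refine ⟨⟨hg.1.squarefree_of_dvd he, hg.2.coprime_dvd_left he⟩, ?_⟩
  refine le_trans ?_ ((mem_SR hR0).mp hr).2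
  exact_mod_cast Nat.le_of_dvd hg.pos he

private lemma B2_divisors {R : ℝ} (hR0 : 0 ≤ R) {r : ℕ} (hr : r ∈ SR R) :
    r.divisors = (SR R).filter (fun e => e ∣ r) := by
  ext e
  rw [Nat.mem_divisors, Finset.mem_filter]
  constructor
  · rintro ⟨h1, _⟩
    exact ⟨B2_mem_of_dvd hR0 hr h1, h1⟩
  · rintro ⟨_, h1⟩
    exact ⟨h1, (good_of_mem_SR hr).pos.ne'⟩

private lemma B2_Yq {R : ℝ} (hR1 : 1 ≤ R) {r : ℕ} (hr : r ∈ SR R) :
    |Yq R r| ≤ 9 / 8 * Real.log R := by
  have hle := ((mem_SR (by linarith)).mp hr).2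
  have hg := good_of_mem_SR hr
  have hr1 : (1 : ℝ) ≤ r := by exact_mod_cast hg.pos
  have hl : 0 ≤ Real.log R := Real.log_nonneg hR1
  have h1 : 0 ≤ Real.log (R / r) := Real.log_nonneg ((one_le_div (by linarith)).mpr hle)
  have h2 : Real.log (R / r) ≤ Real.log R :=
    Real.log_le_log (by positivity) (div_le_self (by linarith) hr1)
  unfold Yq
  rw [if_pos hle, abs_of_nonneg (by positivity)]
  linarith

private lemma B2_prod {e : ℕ} (he : Good e) :
    |∏ p ∈ e.primeFactors, (-(1 + hp p))| ≤ (e.divisors.card : ℝ) := by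
  rw [Finset.abs_prod, Nat.card_divisors he.pos.ne']
  push_cast
  apply Finset.prod_le_prod
  · intro p _
    exact abs_nonneg _
  · intro p hpe
    have h5 := he.five_le hpe
    have h1 := hp_pos h5
    have h2 := hp_le h5
    have h3 : 1 ≤ e.factorization p :=
      (Nat.prime_of_mem_primeFactors hpe).factorization_pos_of_dvd he.pos.ne'
        (Nat.dvd_of_mem_primeFactors hpe)
    have h4 : (1 : ℝ) ≤ e.factorization p := by exact_mod_cast h3
    rw [abs_neg, abs_of_nonneg (by linarith)]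
    linarith

private lemma B2_sum {R : ℝ} (hR1 : 1 ≤ R) {e : ℕ} (he : e ∈ SR R) :
    ∑ r ∈ (SR R).filter (fun r => e ∣ r), hR (r / e) ≤ M R 0 := by
  have hR0 : 0 ≤ R := by linarith
  have hep : 0 < e := (good_of_mem_SR he).pos
  have hinj : Set.InjOn (fun r : ℕ => r / e) ((SR R).filter (fun r => e ∣ r)) := by
    intro a ha b hb hab
    rw [Finset.coe_filter] at ha hb
    have h1 : a / e * e = a := Nat.div_mul_cancel ha.2
    have h2 : b / e * e = b := Nat.div_mul_cancel hb.2
    have h3 : a / e = b / e := hab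
    rw [← h1, ← h2, h3]
  have h1 : ∑ r ∈ (SR R).filter (fun r => e ∣ r), hR (r / e) =
      ∑ s ∈ ((SR R).filter (fun r => e ∣ r)).image (fun r : ℕ => r / e), hR s :=
    (Finset.sum_image hinj).symm
  rw [h1]
  have h2 : M R 0 = ∑ s ∈ SR R, hR s := by
    unfold M
    exact Finset.sum_congr rfl fun r _ => by rw [pow_zero, mul_one]
  rw [h2]
  apply Finset.sum_le_sum_of_subset_of_nonneg
  · intro s hs
    rw [Finset.mem_image] at hs
    obtain ⟨r, hr, rfl⟩ := hs
    rw [Finset.mem_filter] at hr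
    exact B2_mem_of_dvd hR0 hr.1 (Nat.div_dvd_of_dvd hr.2)
  · intro s hs _
    exact (hR_pos (good_of_mem_SR hs)).le

theorem p_B2 (hB1 : S_B1) : S_B2 := by
  intro R hR1
  have hR0 : 0 ≤ R := by linarith
  refine ⟨fun t => ?_, fun e he => ?_⟩
  · unfold Lq
    have h1 : ∀ r ∈ SR R, Yq R r * psiR r t =
        ∑ e ∈ (SR R).filter (fun e => e ∣ r), Yq R r * kap r e * indF e t := by
      intro r hr
      rw [hB1 r t (good_of_mem_SR hr), ← B2_divisors hR0 hr, Finset.mul_sum]
      exact Finset.sum_congr rfl fun e _ => by ring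
    rw [Finset.sum_congr rfl h1]
    simp_rw [Finset.sum_filter]
    rw [Finset.sum_comm]
    refine Finset.sum_congr rfl fun e _ => ?_
    unfold lamq
    rw [Finset.sum_mul, Finset.sum_filter]
  · have hge := good_of_mem_SR he
    have hl : 0 ≤ Real.log R := Real.log_nonneg hR1
    have hτ : (0 : ℝ) ≤ (e.divisors.card : ℝ) := Nat.cast_nonneg _
    unfold lamq
    have h1 : ∀ r ∈ (SR R).filter (fun r => e ∣ r), |Yq R r * kap r e| ≤
        9 / 8 * Real.log R * (e.divisors.card : ℝ) * hR (r / e) := by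
      intro r hr
      rw [Finset.mem_filter] at hr
      have hpos : 0 ≤ hR (r / e) :=
        (hR_pos (good_of_mem_SR (B2_mem_of_dvd hR0 hr.1 (Nat.div_dvd_of_dvd hr.2)))).le
      have h2 := B2_Yq hR1 hr.1
      have h3 := B2_prod hge
      unfold kap
      rw [abs_mul, abs_mul, abs_of_nonneg hpos]
      calc |Yq R r| * (|∏ p ∈ e.primeFactors, (-(1 + hp p))| * hR (r / e))
          ≤ (9 / 8 * Real.log R) * ((e.divisors.card : ℝ) * hR (r / e)) := by
            apply mul_le_mul h2 _ _ (by positivity)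
            · exact mul_le_mul_of_nonneg_right h3 hpos
            · exact mul_nonneg (abs_nonneg _) hpos
        _ = _ := by ring
    have h4 := B2_sum hR1 he
    have h5 : 0 ≤ M R 0 := M_nonneg R 0
    calc |∑ r ∈ (SR R).filter (fun r => e ∣ r), Yq R r * kap r e|
        ≤ ∑ r ∈ (SR R).filter (fun r => e ∣ r), |Yq R r * kap r e| :=
          Finset.abs_sum_le_sum_abs _ _
      _ ≤ ∑ r ∈ (SR R).filter (fun r => e ∣ r),
            9 / 8 * Real.log R * (e.divisors.card : ℝ) * hR (r / e) := Finset.sum_le_sum h1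
      _ = 9 / 8 * Real.log R * (e.divisors.card : ℝ) *
            ∑ r ∈ (SR R).filter (fun r => e ∣ r), hR (r / e) := by rw [← Finset.mul_sum]
      _ ≤ 9 / 8 * Real.log R * (e.divisors.card : ℝ) * M R 0 :=
          mul_le_mul_of_nonneg_left h4 (by positivity)
      _ = 9 / 8 * (Real.log R * M R 0 * (e.divisors.card : ℝ)) := by ring
      _ ≤ 2 * (Real.log R * M R 0 * (e.divisors.card : ℝ)) :=
          mul_le_mul_of_nonneg_right (by norm_num) (by positivity)
      _ = _ := by ring

end Pool.Agent.TwA
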