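import Pool.Agent.Lib.MP_d610d0_nt.AS.Stm

/-!
# MP_d610d0_nt, project AS, piece B3: the number of roots
-/

set_option autoImplicit false

namespace Pool.Agent.TwA

open Finset MeasureTheory
open Pool.Agent.Lib.MP_d610d0_nt

private theorem B3_root {m a : ℕ} (hm : Squarefree m) (ha : m ∣ F a) :
    Nat.Coprime (Nat.gcd m (6 * a + 5)) (m / Nat.gcd m (6 * a + 5)) ∧
      m / Nat.gcd m (6 * a + 5) ∣ 6 * a + 7 := by
  set e := Nat.gcd m (6 * a + 5) with he
  have hem : e ∣ m := Nat.gcd_dvd_left _ _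
  have hmul : e * (m / e) = m := Nat.mul_div_cancel' hem
  have hcop : Nat.Coprime e (m / e) := by
    rw [← hmul] at hm
    exact Nat.coprime_of_squarefree_mul hm
  refine ⟨hcop, ?_⟩
  have hfm : m / e ∣ m := Nat.div_dvd_of_dvd hem
  have hc : Nat.Coprime (m / e) (6 * a + 5) := by
    have h1 : Nat.gcd (m / e) (6 * a + 5) ∣ e :=
      Nat.dvd_gcd ((Nat.gcd_dvd_left _ _).trans hfm) (Nat.gcd_dvd_right _ _)
    have h2 : Nat.gcd (m / e) (6 * a + 5) ∣ m / e := Nat.gcd_dvd_left _ _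
    exact Nat.eq_one_of_dvd_coprimes hcop h1 h2
  have hF : m / e ∣ (6 * a + 5) * (6 * a + 7) := hfm.trans ha
  exact hc.dvd_of_dvd_mul_left hF

private theorem B3_inj {m a b : ℕ} (hm : Good m) (ha : a < m) (hb : b < m) (hFa : m ∣ F a)
    (hFb : m ∣ F b) (h : Nat.gcd m (6 * a + 5) = Nat.gcd m (6 * b + 5)) : a = b := by
  obtain ⟨h1, h2⟩ := B3_root hm.1 hFa
  obtain ⟨-, h3⟩ := B3_root hm.1 hFb
  rw [← h] at h3
  set e := Nat.gcd m (6 * a + 5) with he
  have hem : e ∣ m := Nat.gcd_dvd_left _ _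
  have hmul : e * (m / e) = m := Nat.mul_div_cancel' hem
  have hfm : m / e ∣ m := Nat.div_dvd_of_dvd hem
  have c1 : Nat.Coprime e 6 := Nat.Coprime.coprime_dvd_left hem hm.2
  have c2 : Nat.Coprime (m / e) 6 := Nat.Coprime.coprime_dvd_left hfm hm.2
  have e1 : e ∣ 6 * a + 5 := Nat.gcd_dvd_right _ _
  have e2 : e ∣ 6 * b + 5 := by
    rw [h]
    exact Nat.gcd_dvd_right _ _
  have k1 : a ≡ b [MOD e] := by
    have h4 : 6 * a + 5 ≡ 6 * b + 5 [MOD e] :=
      (Nat.modEq_zero_iff_dvd.2 e1).trans (Nat.modEq_zero_iff_dvd.2 e2).symm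
    exact Nat.ModEq.cancel_left_of_coprime c1 (Nat.ModEq.add_right_cancel' 5 h4)
  have k2 : a ≡ b [MOD m / e] := by
    have h4 : 6 * a + 7 ≡ 6 * b + 7 [MOD m / e] :=
      (Nat.modEq_zero_iff_dvd.2 h2).trans (Nat.modEq_zero_iff_dvd.2 h3).symm
    exact Nat.ModEq.cancel_left_of_coprime c2 (Nat.ModEq.add_right_cancel' 7 h4)
  have k3 := (Nat.modEq_and_modEq_iff_modEq_mul h1).1 ⟨k1, k2⟩
  rw [hmul] at k3
  exact Nat.ModEq.eq_of_lt_of_lt k3 ha hb

theorem p_B3 : S_B3 := by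
  intro m hm
  have hm0 : m ≠ 0 := hm.1.ne_zero
  have h1 : ∑ a ∈ range m, indF m a = (((range m).filter (fun a => m ∣ F a)).card : ℝ) := by
    unfold indF
    rw [sum_ite, sum_const_zero, add_zero, sum_const, nsmul_eq_mul, mul_one]
  rw [h1]
  have h2 : ((range m).filter (fun a => m ∣ F a)).card ≤ m.divisors.card := by
    refine card_le_card_of_injOn (fun a => Nat.gcd m (6 * a + 5)) ?_ ?_
    · intro a _
      exact Nat.mem_divisors.2 ⟨Nat.gcd_dvd_left _ _, hm0⟩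
    · intro a ha b hb hab
      rw [mem_coe, mem_filter, mem_range] at ha hb
      exact B3_inj hm ha.1 hb.1 ha.2 hb.2 hab
  exact_mod_cast h2

end Pool.Agent.TwA
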