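import Mathlib
import Pool.Agent.Lib.MP_d610d0_nt.AS.Stm

set_option autoImplicit false

namespace Pool.Agent.TwA

open Finset MeasureTheory
open Pool.Agent.Lib.MP_d610d0_nt

theorem p_B5 : S_B5 := by
  intro a b ha hb
  refine ⟨⟨?_, ?_⟩, ?_⟩
  · have hab : Nat.lcm a b ≠ 0 := Nat.lcm_ne_zero ha.1.ne_zero hb.1.ne_zero
    refine Nat.squarefree_of_factorization_le_one hab (fun p => ?_)
    rw [Nat.factorization_lcm ha.1.ne_zero hb.1.ne_zero, Finsupp.sup_apply]
    exact sup_le (ha.1.natFactorization_le_one p) (hb.1.natFactorization_le_one p)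
  · exact Nat.Coprime.coprime_dvd_left (Nat.lcm_dvd_mul a b) (Nat.Coprime.mul_left ha.2 hb.2)
  · intro t
    unfold indF
    by_cases h1 : a ∣ F t <;> by_cases h2 : b ∣ F t <;> simp [h1, h2, Nat.lcm_dvd_iff]

end Pool.Agent.TwA
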