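import Pool.Agent.Lib.MP_d610d0_nt.AS.Stm

/-!
[B6] The sieve function as a `comb`.
-/

set_option autoImplicit false

namespace Pool.Agent.TwA

open Finset MeasureTheory
open Pool.Agent.Lib.MP_d610d0_nt

private lemma good_prime {p : ℕ} (hp : p.Prime) (h5 : 5 ≤ p) : Good p := by
  refine ⟨hp.prime.squarefree, ?_⟩
  rw [hp.coprime_iff_not_dvd]
  intro h
  have h1 := Nat.le_of_dvd (by norm_num) h
  interval_cases p
  · omega
  · exact absurd hp (by norm_num)

/-- the coefficient of the third factor -/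
private noncomputable def kp (η B : ℝ) (p : ℕ) : ℝ := if p = 1 then B else -wt η p

private lemma one_notMem_Pr (η : ℝ) : 1 ∉ Pr η := by
  intro h
  exact Nat.not_prime_one (mem_Pr.mp h).1

private lemma kp_sum (η B : ℝ) (t : ℕ) :
    B - ∑ p ∈ Pr η, wt η p * indF p t = ∑ p ∈ insert 1 (Pr η), kp η B p * indF p t := by
  rw [Finset.sum_insert (one_notMem_Pr η)]
  have h1 : kp η B 1 * indF 1 t = B := by
    unfold kp indF
    simp
  have h2 : ∑ p ∈ Pr η, kp η B p * indF p t = -∑ p ∈ Pr η, wt η p * indF p t := by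
    rw [← Finset.sum_neg_distrib]
    refine Finset.sum_congr rfl fun p hp => ?_
    have hp1 : p ≠ 1 := by
      rintro rfl
      exact one_notMem_Pr η hp
    unfold kp
    rw [if_neg hp1]
    ring
  rw [h1, h2]
  ring

private lemma kp_abs {η B : ℝ} (hη : 0 < η) {p : ℕ} (hp : p ∈ insert 1 (Pr η)) :
    |kp η B p| ≤ |B| + 1 := by
  unfold kp
  split_ifs with h
  · linarith
  · have hp' : p ∈ Pr η := by
      rcases Finset.mem_insert.1 hp with h1 | h1
      · exact absurd h1 h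
      · exact h1
    rw [abs_neg, abs_of_nonneg (wt_nonneg hη hp')]
    have := wt_le_one hη hp'
    have := abs_nonneg B
    linarith

theorem p_B6 (hB2 : S_B2) (hB4 : S_B4) (hB5 : S_B5) : S_B6 := by
  classical
  intro R η B D hR hη hD
  obtain ⟨hL, hlam⟩ := hB2 R hR
  have hR0 : (0 : ℝ) ≤ R := by linarith
  obtain ⟨I, hI⟩ : ∃ I : Finset (ℕ × ℕ × ℕ), I = SR R ×ˢ (SR R ×ˢ insert 1 (Pr η)) := ⟨_, rfl⟩
  have memI : ∀ i ∈ I, i.1 ∈ SR R ∧ i.2.1 ∈ SR R ∧ i.2.2 ∈ insert 1 (Pr η) := by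
    intro i hi
    rw [hI, Finset.mem_product, Finset.mem_product] at hi
    exact hi
  have goodp : ∀ p ∈ insert 1 (Pr η), Good p ∧ (p : ℝ) ≤ Real.exp η := by
    intro p hp
    rcases Finset.mem_insert.1 hp with h1 | h1
    · subst h1
      refine ⟨good_one, ?_⟩
      rw [Nat.cast_one]
      exact Real.one_le_exp hη.le
    · obtain ⟨h2, h3, h4⟩ := mem_Pr.mp h1
      refine ⟨good_prime h2 h3, ?_⟩
      have hp0 : (0 : ℝ) < p := by exact_mod_cast h2.pos
      exact ((Real.log_lt_iff_lt_exp hp0).1 h4).le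
  have hgood : ∀ i ∈ I, Good (Nat.lcm (Nat.lcm i.1 i.2.1) i.2.2) ∧
      Nat.lcm (Nat.lcm i.1 i.2.1) i.2.2 ≤ D := by
    intro i hi
    obtain ⟨h1, h2, h3⟩ := memI i hi
    obtain ⟨g1, r1⟩ := (mem_SR hR0).1 h1
    obtain ⟨g2, r2⟩ := (mem_SR hR0).1 h2
    obtain ⟨g3, r3⟩ := goodp _ h3
    refine ⟨(hB5 _ _ (hB5 _ _ g1 g2).1 g3).1, ?_⟩
    have h4 : Nat.lcm (Nat.lcm i.1 i.2.1) i.2.2 ≤ (i.1 * i.2.1) * i.2.2 := by
      refine (Nat.le_of_dvd ?_ (Nat.lcm_dvd_mul _ _)).trans ?_
      · exact Nat.mul_pos (hB5 _ _ g1 g2).1.pos g3.pos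
      · exact Nat.mul_le_mul_right _ (Nat.le_of_dvd (Nat.mul_pos g1.pos g2.pos)
          (Nat.lcm_dvd_mul _ _))
    have h5 : (((i.1 * i.2.1) * i.2.2 : ℕ) : ℝ) ≤ R ^ 2 * Real.exp η := by
      push_cast
      have := Real.exp_pos η
      rw [pow_two]
      gcongr
    have h6 : ((Nat.lcm (Nat.lcm i.1 i.2.1) i.2.2 : ℕ) : ℝ) ≤ (D : ℝ) :=
      (Nat.cast_le.2 h4).trans (h5.trans hD)
    exact_mod_cast h6
  obtain ⟨c, hc1, hc2⟩ := hB4 (ℕ × ℕ × ℕ) I
    (fun i => lamq R i.1 * (lamq R i.2.1 * kp η B i.2.2))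
    (fun i => Nat.lcm (Nat.lcm i.1 i.2.1) i.2.2) D hgood
  refine ⟨c, ?_, ?_⟩
  · intro t
    rw [← hc1 t]
    unfold fq
    have h1 : ∑ i ∈ I, lamq R i.1 * (lamq R i.2.1 * kp η B i.2.2) *
        indF (Nat.lcm (Nat.lcm i.1 i.2.1) i.2.2) t =
        ∑ e1 ∈ SR R, ∑ e2 ∈ SR R, ∑ p ∈ insert 1 (Pr η),
          (lamq R e1 * indF e1 t) * ((lamq R e2 * indF e2 t) * (kp η B p * indF p t)) := by
      rw [hI, Finset.sum_product]
      refine Finset.sum_congr rfl fun e1 he1 => ?_
      rw [Finset.sum_product]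
      refine Finset.sum_congr rfl fun e2 he2 => ?_
      refine Finset.sum_congr rfl fun p hp => ?_
      have g1 := ((mem_SR hR0).1 he1).1
      have g2 := ((mem_SR hR0).1 he2).1
      have g3 := (goodp p hp).1
      dsimp only
      rw [← (hB5 _ _ (hB5 _ _ g1 g2).1 g3).2, ← (hB5 _ _ g1 g2).2]
      ring
    rw [h1, hL t, kp_sum]
    simp only [← Finset.mul_sum, ← Finset.sum_mul]
    ring
  · intro d hd
    have hd0 : d ≠ 0 := by
      have := (Finset.mem_Icc.1 hd).1
      omega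
    refine (hc2 d).trans ?_
    obtain ⟨K, hK⟩ : ∃ K, K = 2 * Real.log R * M R 0 := ⟨_, rfl⟩
    rw [← hK]
    have hterm : ∀ i ∈ I.filter (fun i => Nat.lcm (Nat.lcm i.1 i.2.1) i.2.2 = d),
        |lamq R i.1 * (lamq R i.2.1 * kp η B i.2.2)| ≤
          (|B| + 1) * K ^ 2 * (d.divisors.card : ℝ) ^ 2 := by
      intro i hi
      obtain ⟨hi1, hi2⟩ := Finset.mem_filter.1 hi
      obtain ⟨h1, h2, h3⟩ := memI i hi1
      have l1 := hlam _ h1
      have l2 := hlam _ h2
      rw [← hK] at l1 l2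
      have l3 := kp_abs (B := B) hη h3
      have d1 : i.1 ∣ d := by
        rw [← hi2]
        exact (Nat.dvd_lcm_left _ _).trans (Nat.dvd_lcm_left _ _)
      have d2 : i.2.1 ∣ d := by
        rw [← hi2]
        exact (Nat.dvd_lcm_right _ _).trans (Nat.dvd_lcm_left _ _)
      have t1 : ((i.1).divisors.card : ℝ) ≤ (d.divisors.card : ℝ) := by
        exact_mod_cast Finset.card_le_card (Nat.divisors_subset_of_dvd hd0 d1)
      have t2 : ((i.2.1).divisors.card : ℝ) ≤ (d.divisors.card : ℝ) := by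
        exact_mod_cast Finset.card_le_card (Nat.divisors_subset_of_dvd hd0 d2)
      rw [abs_mul, abs_mul]
      have a1 := abs_nonneg (lamq R i.1)
      have a2 := abs_nonneg (lamq R i.2.1)
      have a3 := abs_nonneg (kp η B i.2.2)
      have aB := abs_nonneg B
      have m1 : |lamq R i.1| * |lamq R i.2.1| ≤
          (K * ((i.1).divisors.card : ℝ)) * (K * ((i.2.1).divisors.card : ℝ)) :=
        mul_le_mul l1 l2 a2 (a1.trans l1)
      have m2 : (K * ((i.1).divisors.card : ℝ)) * (K * ((i.2.1).divisors.card : ℝ)) ≤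
          K ^ 2 * (d.divisors.card : ℝ) ^ 2 := by
        have e : (K * ((i.1).divisors.card : ℝ)) * (K * ((i.2.1).divisors.card : ℝ)) =
          K ^ 2 * (((i.1).divisors.card : ℝ) * ((i.2.1).divisors.card : ℝ)) := by ring
        rw [e, pow_two (d.divisors.card : ℝ)]
        gcongr
      calc |lamq R i.1| * (|lamq R i.2.1| * |kp η B i.2.2|)
          = (|lamq R i.1| * |lamq R i.2.1|) * |kp η B i.2.2| := by ring
        _ ≤ (K ^ 2 * (d.divisors.card : ℝ) ^ 2) * (|B| + 1) :=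
          mul_le_mul (m1.trans m2) l3 a3 (by positivity)
        _ = _ := by ring
    have hcard : ((I.filter (fun i => Nat.lcm (Nat.lcm i.1 i.2.1) i.2.2 = d)).card : ℝ) ≤
        (d.divisors.card : ℝ) ^ 3 := by
      have h1 : I.filter (fun i => Nat.lcm (Nat.lcm i.1 i.2.1) i.2.2 = d) ⊆
          d.divisors ×ˢ (d.divisors ×ˢ d.divisors) := by
        intro i hi
        obtain ⟨hi1, hi2⟩ := Finset.mem_filter.1 hi
        rw [Finset.mem_product, Finset.mem_product, Nat.mem_divisors, Nat.mem_divisors,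
          Nat.mem_divisors]
        refine ⟨⟨?_, hd0⟩, ⟨?_, hd0⟩, ?_, hd0⟩
        · rw [← hi2]
          exact (Nat.dvd_lcm_left _ _).trans (Nat.dvd_lcm_left _ _)
        · rw [← hi2]
          exact (Nat.dvd_lcm_right _ _).trans (Nat.dvd_lcm_left _ _)
        · rw [← hi2]
          exact Nat.dvd_lcm_right _ _
      have h2 := Finset.card_le_card h1
      rw [Finset.card_product, Finset.card_product] at h2
      have h3 : d.divisors.card * (d.divisors.card * d.divisors.card) = d.divisors.card ^ 3 := by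
        ring
      rw [h3] at h2
      exact_mod_cast h2
    have hsum := Finset.sum_le_card_nsmul _ _ _ hterm
    rw [nsmul_eq_mul] at hsum
    have hB0 := abs_nonneg B
    calc (d.divisors.card : ℝ) * _ ≤ (d.divisors.card : ℝ) *
          ((d.divisors.card : ℝ) ^ 3 * ((|B| + 1) * K ^ 2 * (d.divisors.card : ℝ) ^ 2)) := by
          refine mul_le_mul_of_nonneg_left (hsum.trans ?_) (by positivity)
          exact mul_le_mul_of_nonneg_right hcard (by positivity)
      _ = _ := by ring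

end Pool.Agent.TwA
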