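import Pool.Agent.Lib.MP_d610d0_nt.AS.Stm

/-! [AS C1] mean value of `comb`. -/

set_option autoImplicit false

namespace Pool.Agent.TwA

open Finset MeasureTheory
open Pool.Agent.Lib.MP_d610d0_nt

theorem p_C1 : S_C1 := by
  intro D c s N
  have e1 : ∑ t ∈ Ico s (s + N), comb D c t
      = ∑ d ∈ Icc 1 D, ∑ a ∈ range d, c d a * ∑ t ∈ Ico s (s + N), ind d a t := by
    unfold comb
    rw [Finset.sum_comm]
    refine Finset.sum_congr rfl (fun d _ => ?_)
    rw [Finset.sum_comm]
    refine Finset.sum_congr rfl (fun a _ => ?_)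
    rw [Finset.mul_sum]
  have e2 : (N : ℝ) * cmean D c = ∑ d ∈ Icc 1 D, ∑ a ∈ range d, c d a * ((N : ℝ) / d) := by
    unfold cmean
    rw [Finset.mul_sum]
    refine Finset.sum_congr rfl (fun d _ => ?_)
    rw [Finset.mul_sum]
    refine Finset.sum_congr rfl (fun a _ => ?_)
    ring
  rw [e1, e2, ← Finset.sum_sub_distrib]
  refine (Finset.abs_sum_le_sum_abs _ _).trans (Finset.sum_le_sum (fun d _ => ?_))
  rw [← Finset.sum_sub_distrib]
  unfold cw
  refine (Finset.abs_sum_le_sum_abs _ _).trans (Finset.sum_le_sum (fun a ha => ?_))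
  rw [← mul_sub, abs_mul]
  have := sum_Ico_ind d a s N (Finset.mem_range.mp ha)
  calc |c d a| * _ ≤ |c d a| * 1 := mul_le_mul_of_nonneg_left this (abs_nonneg _)
    _ = |c d a| := mul_one _

end Pool.Agent.TwA
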