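import Pool.Agent.Lib.MP_d610d0_nt.AS.Stm

/-! [AS C2] The quadratic form of the new weights. -/

set_option autoImplicit false

namespace Pool.Agent.TwA

open Finset MeasureTheory
open Pool.Agent.Lib.MP_d610d0_nt

lemma C2_Yq_nonneg {R : ℝ} (hR1 : 1 ≤ R) {r : ℕ} (hr : r ∈ SR R) : 0 ≤ Yq R r := by
  have hg := (mem_SR (by linarith)).mp hr
  unfold Yq
  rw [if_pos hg.2]
  have hr' : (0 : ℝ) < r := by exact_mod_cast hg.1.pos
  have h1 : 0 ≤ Real.log (R / r) := Real.log_nonneg ((one_le_div hr').mpr hg.2)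
  have h2 : 0 ≤ Real.log R := Real.log_nonneg hR1
  linarith

theorem p_C2 : S_C2 := by
  intro R hR1 s N
  have h := quad_form (SR R) (fun r hr => good_of_mem_SR hr) (Yq R) (q := 1) one_pos
    (fun r _ => Nat.coprime_one_left r) (g := fun _ => 1) (Per.const 1 1) (V := 1)
    (by simpa using APW.const 1) s N
  rw [avg_const one_pos] at h
  simp only [one_mul] at h
  have e : (∑ r ∈ SR R, |Yq R r| * WR r) = Zq R :=
    Finset.sum_congr rfl (fun r hr => by rw [abs_of_nonneg (C2_Yq_nonneg hR1 hr)])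
  rw [e] at h
  unfold Lq Mq
  exact h

end Pool.Agent.TwA
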