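import Pool.Agent.Lib.MP_d610d0_nt.AS.Stm

/-!
The quadratic form on the multiples of a prime `p`.
-/

set_option autoImplicit false

namespace Pool.Agent.TwA

open Finset MeasureTheory
open Pool.Agent.Lib.MP_d610d0_nt

private lemma C3_nonneg {R : ℝ} (hR : 1 ≤ R) (r : ℕ) : 0 ≤ Yq R r := by
  unfold Yq
  split_ifs with h
  · have h1 : 0 ≤ Real.log R := Real.log_nonneg hR
    have h2 : 0 ≤ Real.log (R / r) := by
      rcases Nat.eq_zero_or_pos r with h0 | h0
      · subst h0
        simp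
      · apply Real.log_nonneg
        rw [le_div_iff₀ (by exact_mod_cast h0), one_mul]
        exact h
    positivity
  · exact le_rfl

private lemma C3_sub {R : ℝ} (hR : 1 ≤ R) {p r : ℕ} (hp : 0 < p) (hr : 0 < r)
    (hrR : (r : ℝ) ≤ R) : 0 ≤ Yq R r - Yq R (p * r) ∧ Yq R r - Yq R (p * r) ≤ Yq R r := by
  refine ⟨?_, by have := C3_nonneg hR (p * r); linarith⟩
  rw [sub_nonneg]
  by_cases h : ((p * r : ℕ) : ℝ) ≤ R
  · unfold Yq
    rw [if_pos h, if_pos hrR]
    have hr' : (0 : ℝ) < r := by exact_mod_cast hr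
    have hp' : (1 : ℝ) ≤ p := by exact_mod_cast hp
    have h1 : Real.log (R / ((p * r : ℕ) : ℝ)) ≤ Real.log (R / r) := by
      apply Real.log_le_log
      · have : (0 : ℝ) < ((p * r : ℕ) : ℝ) := by
          push_cast
          positivity
        positivity
      · apply div_le_div_of_nonneg_left (by linarith) hr'
        push_cast
        nlinarith
    linarith
  · have h1 : Yq R (p * r) = 0 := by
      unfold Yq
      rw [if_neg h]
    rw [h1]
    exact C3_nonneg hR r

/-- On multiples of `p` the weight collapses. -/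
private lemma C3_of_dvd {R : ℝ} (hR : 1 ≤ R) {p t : ℕ} (hpp : p.Prime) (h5 : 5 ≤ p)
    (hd : p ∣ F t) :
    Lq R t = ∑ r ∈ (SR R).filter (fun r => ¬ p ∣ r), (Yq R r - Yq R (p * r)) * psiR r t := by
  classical
  have hR0 : (0 : ℝ) ≤ R := by linarith
  unfold Lq
  rw [← Finset.sum_filter_add_sum_filter_not (SR R) (fun r => ¬ p ∣ r)]
  simp only [not_not]
  simp_rw [sub_mul]
  rw [Finset.sum_sub_distrib, sub_eq_add_neg]
  congr 1
  rw [← Finset.sum_neg_distrib]
  have h1 : ∑ r ∈ (SR R).filter (fun r => ¬ p ∣ r), -(Yq R (p * r) * psiR r t)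
      = ∑ r ∈ (SR R).filter (fun r => ¬ p ∣ r ∧ ((p * r : ℕ) : ℝ) ≤ R),
          -(Yq R (p * r) * psiR r t) := by
    symm
    apply Finset.sum_subset
    · intro r hr
      rw [Finset.mem_filter] at hr ⊢
      exact ⟨hr.1, hr.2.1⟩
    · intro r hr hr2
      rw [Finset.mem_filter] at hr hr2
      have h2 : ¬ ((p * r : ℕ) : ℝ) ≤ R := fun h => hr2 ⟨hr.1, hr.2, h⟩
      have h3 : Yq R (p * r) = 0 := by
        unfold Yq
        rw [if_neg h2]
      rw [h3]
      ring
  rw [h1]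
  symm
  refine Finset.sum_bij (fun r _ => p * r) ?_ ?_ ?_ ?_
  · intro r hr
    rw [Finset.mem_filter] at hr ⊢
    refine ⟨?_, Dvd.intro _ rfl⟩
    rw [mem_SR hR0]
    exact ⟨(good_of_mem_SR hr.1).mul_prime hpp h5 hr.2.1, hr.2.2⟩
  · intro r hr r' hr' h
    exact Nat.eq_of_mul_eq_mul_left hpp.pos h
  · intro r hr
    rw [Finset.mem_filter] at hr
    have hg := good_of_mem_SR hr.1
    obtain ⟨r', rfl, hg', hn⟩ := hg.split hpp hr.2
    have hle := ((mem_SR hR0).mp hr.1).2
    refine ⟨r', ?_, rfl⟩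
    rw [Finset.mem_filter]
    refine ⟨?_, hn, hle⟩
    rw [mem_SR hR0]
    refine ⟨hg', le_trans ?_ hle⟩
    push_cast
    have : (1 : ℝ) ≤ p := by exact_mod_cast hpp.one_le
    have h0 : (0 : ℝ) ≤ r' := Nat.cast_nonneg _
    nlinarith
  · intro r hr
    rw [Finset.mem_filter] at hr
    rw [psiR_mul_prime hpp (good_of_mem_SR hr.1).pos.ne' hr.2.1, psi_of_dvd hd]
    ring

theorem p_C3 : S_C3 := by
  classical
  intro R hR p hpp h5 s N
  have hR0 : (0 : ℝ) ≤ R := by linarith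
  have hgood : ∀ r ∈ (SR R).filter (fun r => ¬ p ∣ r), Good r := fun r hr =>
    good_of_mem_SR (Finset.mem_filter.mp hr).1
  have hcop : ∀ r ∈ (SR R).filter (fun r => ¬ p ∣ r), Nat.Coprime p r := fun r hr =>
    (Nat.Prime.coprime_iff_not_dvd hpp).mpr (Finset.mem_filter.mp hr).2
  have hapw := indF_APW hpp h5 (le_refl 1)
  have havg := avg_indF hpp h5 (le_refl 1)
  rw [pow_one] at hapw havg
  have h := quad_form ((SR R).filter (fun r => ¬ p ∣ r)) hgood
    (fun r => Yq R r - Yq R (p * r)) (q := p) hpp.pos hcop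
    (g := indF p) (indF_per _) (V := 2) hapw s N
  rw [havg] at h
  have e1 : ∑ t ∈ Ico s (s + N), indF p t * Lq R t ^ 2
      = ∑ t ∈ Ico s (s + N), indF p t * (∑ r ∈ (SR R).filter (fun r => ¬ p ∣ r),
        (Yq R r - Yq R (p * r)) * psiR r t) ^ 2 := by
    refine Finset.sum_congr rfl (fun t _ => ?_)
    by_cases hd : p ∣ F t
    · rw [C3_of_dvd hR hpp h5 hd]
    · unfold indF; rw [if_neg hd]; ring
  have e3 : ∑ r ∈ (SR R).filter (fun r => ¬ p ∣ r), |Yq R r - Yq R (p * r)| * WR r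
      ≤ Zq R := by
    unfold Zq
    calc ∑ r ∈ (SR R).filter (fun r => ¬ p ∣ r), |Yq R r - Yq R (p * r)| * WR r
        ≤ ∑ r ∈ (SR R).filter (fun r => ¬ p ∣ r), Yq R r * WR r := by
          refine Finset.sum_le_sum (fun r hr => ?_)
          have h2 := (mem_SR hR0).mp (Finset.mem_filter.mp hr).1
          have h1 := C3_sub hR hpp.pos h2.1.pos h2.2
          apply mul_le_mul_of_nonneg_right _ (WR_pos (hgood r hr)).le
          rw [abs_of_nonneg h1.1]
          exact h1.2
      _ ≤ _ := Finset.sum_le_sum_of_subset_of_nonneg (Finset.filter_subset _ _)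
          (fun r hr _ => mul_nonneg (C3_nonneg hR r) (WR_pos (good_of_mem_SR hr)).le)
  have e4 : 0 ≤ ∑ r ∈ (SR R).filter (fun r => ¬ p ∣ r), |Yq R r - Yq R (p * r)| * WR r :=
    Finset.sum_nonneg (fun r hr => mul_nonneg (abs_nonneg _) (WR_pos (hgood r hr)).le)
  have e5 := pow_le_pow_left₀ e4 e3 2
  rw [e1]
  refine h.trans ?_
  linarith

end Pool.Agent.TwA
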