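import Pool.Agent.Lib.MP_d610d0_nt.AS.Stm

/-! [AS C4] Identification of the mean value. -/

set_option autoImplicit false

namespace Pool.Agent.TwA

open Finset MeasureTheory
open Pool.Agent.Lib.MP_d610d0_nt

private lemma C4_eq_of_bdd {x y K : ℝ} (h : ∀ N : ℕ, |(N : ℝ) * x - N * y| ≤ K) : x = y := by
  by_contra hne
  have hpos : 0 < |x - y| := abs_pos.mpr (sub_ne_zero.mpr hne)
  obtain ⟨N, hN⟩ := exists_nat_gt (K / |x - y|)
  have h1 := h N
  rw [← mul_sub, abs_mul, abs_of_nonneg (Nat.cast_nonneg N)] at h1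
  rw [div_lt_iff₀ hpos] at hN
  linarith

theorem p_C4 (hC1 : S_C1) (hC2 : S_C2) (hC3 : S_C3) : S_C4 := by
  intro R η B D c hR1 hη hfc
  set W : ℝ := ∑ p ∈ Pr η, |wt η p| with hW
  apply C4_eq_of_bdd (K := (∑ d ∈ Icc 1 D, cw c d) + (|B| + 2 * W) * Zq R ^ 2)
  intro N
  have h1 := hC1 D c 0 N
  have h2 := hC2 R hR1 0 N
  have e0 : ∑ t ∈ Ico 0 (0 + N), comb D c t = ∑ t ∈ Ico 0 (0 + N), fq R η B t :=
    Finset.sum_congr rfl (fun t _ => (hfc t).symm)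
  rw [e0] at h1
  have e1 : ∑ t ∈ Ico 0 (0 + N), fq R η B t
      = B * (∑ t ∈ Ico 0 (0 + N), Lq R t ^ 2)
        - ∑ p ∈ Pr η, wt η p * ∑ t ∈ Ico 0 (0 + N), indF p t * Lq R t ^ 2 := by
    unfold fq
    simp_rw [sub_mul, Finset.sum_mul]
    rw [Finset.sum_sub_distrib, Finset.mul_sum, Finset.sum_comm]
    congr 1
    refine Finset.sum_congr rfl (fun p _ => ?_)
    rw [Finset.mul_sum]
    refine Finset.sum_congr rfl (fun t _ => ?_)
    ring
  have h3 : |(∑ t ∈ Ico 0 (0 + N), fq R η B t) - N * mq R η B|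
      ≤ (|B| + 2 * W) * Zq R ^ 2 := by
    have e2 : (∑ t ∈ Ico 0 (0 + N), fq R η B t) - N * mq R η B
        = B * ((∑ t ∈ Ico 0 (0 + N), Lq R t ^ 2) - N * Mq R)
          - ∑ p ∈ Pr η, wt η p * ((∑ t ∈ Ico 0 (0 + N), indF p t * Lq R t ^ 2)
              - N * (2 / (p : ℝ) * Gn R p)) := by
      rw [e1]
      unfold mq
      have : ∑ p ∈ Pr η, wt η p * ((∑ t ∈ Ico 0 (0 + N), indF p t * Lq R t ^ 2)
              - N * (2 / (p : ℝ) * Gn R p))
          = (∑ p ∈ Pr η, wt η p * ∑ t ∈ Ico 0 (0 + N), indF p t * Lq R t ^ 2)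
            - N * ∑ p ∈ Pr η, wt η p * (2 / (p : ℝ) * Gn R p) := by
        rw [Finset.mul_sum, ← Finset.sum_sub_distrib]
        refine Finset.sum_congr rfl (fun p _ => ?_)
        ring
      rw [this]
      ring
    rw [e2]
    refine (abs_sub _ _).trans ?_
    have b1 : |B * ((∑ t ∈ Ico 0 (0 + N), Lq R t ^ 2) - N * Mq R)| ≤ |B| * Zq R ^ 2 := by
      rw [abs_mul]
      exact mul_le_mul_of_nonneg_left h2 (abs_nonneg _)
    have b2 : |∑ p ∈ Pr η, wt η p * ((∑ t ∈ Ico 0 (0 + N), indF p t * Lq R t ^ 2)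
              - N * (2 / (p : ℝ) * Gn R p))| ≤ 2 * W * Zq R ^ 2 := by
      refine (Finset.abs_sum_le_sum_abs _ _).trans ?_
      have : 2 * W * Zq R ^ 2 = ∑ p ∈ Pr η, |wt η p| * (2 * Zq R ^ 2) := by
        rw [hW, ← Finset.sum_mul]; ring
      rw [this]
      refine Finset.sum_le_sum (fun p hp => ?_)
      rw [abs_mul]
      have hp' := mem_Pr.mp hp
      exact mul_le_mul_of_nonneg_left (hC3 R hR1 p hp'.1 hp'.2.1 0 N) (abs_nonneg _)
    calc _ ≤ |B| * Zq R ^ 2 + 2 * W * Zq R ^ 2 := add_le_add b1 b2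
      _ = _ := by ring
  rw [abs_le] at h1 h3 ⊢
  constructor <;> linarith [h1.1, h1.2, h3.1, h3.2]

end Pool.Agent.TwA
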