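import Mathlib
import Pool.Agent.Lib.MP_d610d0_nt.AS.Stm

/-!
[D0] The lower moment relation.
-/

set_option autoImplicit false

namespace Pool.Agent.TwA

open Finset MeasureTheory
open Pool.Agent.Lib.MP_d610d0_nt

private lemma D0_term {p : ℕ} (h5 : 5 ≤ p) :
    ch p * hp p ≤ 200 / 9 * (1 / (p : ℝ) ^ (3 / 2 : ℝ)) := by
  have hp5 : (5 : ℝ) ≤ p := by exact_mod_cast h5
  have hp0 : (0 : ℝ) < p := by linarith
  set s := (p : ℝ) ^ (1 / 2 : ℝ) with hs
  set w := (p : ℝ) ^ (3 / 2 : ℝ) with hw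
  have hs0 : 0 < s := Real.rpow_pos_of_pos hp0 _
  have hw0 : 0 < w := Real.rpow_pos_of_pos hp0 _
  have hsw : s * w = (p : ℝ) ^ 2 := by
    rw [hs, hw, ← Real.rpow_add hp0, ← Real.rpow_natCast]
    norm_num
  have hlog : Real.log p ≤ 2 * s := by
    have := Real.log_le_rpow_div hp0.le (show (0 : ℝ) < 1 / 2 by norm_num)
    rw [← hs] at this
    linarith
  have e : ch p * hp p = 4 * Real.log p / ((p : ℝ) - 2) ^ 2 := by
    unfold ch hp
    have : (p : ℝ) - 2 ≠ 0 := by linarith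
    field_simp
    ring
  have h2 : 3 / 5 * (p : ℝ) ≤ (p : ℝ) - 2 := by linarith
  have h3 : (3 / 5 * (p : ℝ)) ^ 2 ≤ ((p : ℝ) - 2) ^ 2 := pow_le_pow_left₀ (by positivity) h2 2
  rw [e, mul_one_div, div_le_div_iff₀ (by nlinarith) hw0]
  have h4 : Real.log p * w ≤ 2 * s * w := mul_le_mul_of_nonneg_right hlog hw0.le
  nlinarith

private lemma D0_bd : ∃ C : ℝ, 0 ≤ C ∧ ∀ m : ℕ, ∑ p ∈ Pab 4 m, ch p * hp p ≤ C := by
  have hsum : Summable (fun n : ℕ => 200 / 9 * (1 / (n : ℝ) ^ (3 / 2 : ℝ))) :=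
    (Real.summable_one_div_nat_rpow.2 (by norm_num)).mul_left _
  have hnn : ∀ n : ℕ, 0 ≤ 200 / 9 * (1 / (n : ℝ) ^ (3 / 2 : ℝ)) := fun n => by positivity
  refine ⟨∑' n : ℕ, 200 / 9 * (1 / (n : ℝ) ^ (3 / 2 : ℝ)), tsum_nonneg hnn, fun m => ?_⟩
  refine le_trans (Finset.sum_le_sum fun p hp => ?_) (hsum.sum_le_tsum (Pab 4 m) fun n _ => hnn n)
  have := (mem_Pab.mp hp).1
  exact D0_term (by omega)

/-- Splitting off a prime. -/
private lemma D0_prime {R : ℝ} (hRp : 0 < R) {p : ℕ} (hpp : p.Prime) (h5 : 5 ≤ p) :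
    ∑ r ∈ (SR R).filter (fun r => p ∣ r), hR r
      = hp p * ∑ r ∈ (SR R).filter (fun r => ¬ p ∣ r ∧ ((p * r : ℕ) : ℝ) ≤ R), hR r := by
  rw [SR_sum_dvd hRp hpp h5, Finset.mul_sum]
  refine Finset.sum_congr rfl fun r hr => ?_
  rw [Finset.mem_filter] at hr
  rw [hR_mul_prime hpp (good_of_mem_SR hr.1).pos.ne' hr.2.1]

private lemma D0_M0_nonneg (R : ℝ) : 0 ≤ M R 0 := by
  unfold M
  refine Finset.sum_nonneg fun r hr => ?_
  rw [pow_zero, mul_one]
  exact (hR_pos (good_of_mem_SR hr)).le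

/-- The sum over `r` with `p ∤ r`, `p r ≤ R`. -/
private lemma D0_inner {R : ℝ} (hRp : 0 < R) {p : ℕ} (hpp : p.Prime) (h5 : 5 ≤ p) :
    (∑ r ∈ (SR R).filter (fun r : ℕ => ((p * r : ℕ) : ℝ) ≤ R), hR r) - hp p * M R 0 ≤
      ∑ r ∈ (SR R).filter (fun r => ¬ p ∣ r ∧ ((p * r : ℕ) : ℝ) ≤ R), hR r := by
  classical
  have hnn : ∀ r ∈ SR R, 0 ≤ hR r := fun r hr => (hR_pos (good_of_mem_SR hr)).le
  have h1 : ∑ r ∈ (SR R).filter (fun r => p ∣ r), hR r ≤ hp p * M R 0 := by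
    rw [D0_prime hRp hpp h5]
    apply mul_le_mul_of_nonneg_left _ (hp_pos h5).le
    unfold M
    simp only [pow_zero, mul_one]
    exact Finset.sum_le_sum_of_subset_of_nonneg (Finset.filter_subset _ _)
      fun r hr _ => hnn r hr
  have h2 : ∑ r ∈ (SR R).filter (fun r : ℕ => ((p * r : ℕ) : ℝ) ≤ R), hR r ≤
      (∑ r ∈ (SR R).filter (fun r => ¬ p ∣ r ∧ ((p * r : ℕ) : ℝ) ≤ R), hR r) +
      ∑ r ∈ (SR R).filter (fun r => p ∣ r), hR r := by
    rw [← Finset.sum_union]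
    · refine Finset.sum_le_sum_of_subset_of_nonneg (fun r hr => ?_) (fun r hr _ => ?_)
      · rw [Finset.mem_filter] at hr
        rw [Finset.mem_union, Finset.mem_filter, Finset.mem_filter]
        by_cases h : p ∣ r
        · exact Or.inr ⟨hr.1, h⟩
        · exact Or.inl ⟨hr.1, h, hr.2⟩
      · rw [Finset.mem_union, Finset.mem_filter, Finset.mem_filter] at hr
        rcases hr with hr | hr
        · exact hnn r hr.1
        · exact hnn r hr.1
    · rw [Finset.disjoint_left]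
      intro r hr hr'
      rw [Finset.mem_filter] at hr hr'
      exact hr.2.1 hr'.2
  linarith

/-- The logarithmic sum as a double sum. -/
private lemma D0_log {R : ℝ} (hR1 : 1 ≤ R) :
    ∑ r ∈ SR R, hR r * Real.log r = ∑ p ∈ Pab 4 ⌊R⌋₊,
      ch p * ∑ r ∈ (SR R).filter (fun r => ¬ p ∣ r ∧ ((p * r : ℕ) : ℝ) ≤ R), hR r := by
  classical
  have hRp : 0 < R := by linarith
  have h1 : ∀ r ∈ SR R, hR r * Real.log r
      = ∑ p ∈ Pab 4 ⌊R⌋₊, if p ∣ r then hR r * Real.log p else 0 := by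
    intro r hr
    have hg := good_of_mem_SR hr
    have hle : r ≤ ⌊R⌋₊ := (Finset.mem_Icc.mp (Finset.mem_filter.mp hr).1).2
    rw [hg.log_eq, hg.primeFactors_eq hle, ← Finset.sum_filter, Finset.mul_sum]
  rw [Finset.sum_congr rfl h1, Finset.sum_comm]
  refine Finset.sum_congr rfl (fun p hp' => ?_)
  obtain ⟨h4, hpR, hpp⟩ := mem_Pab.mp hp'
  rw [← Finset.sum_filter, ← Finset.sum_mul, D0_prime hRp hpp (by omega), ch_eq]
  ring

private lemma D0_lower {R : ℝ} (hR1 : 1 ≤ R) {C : ℝ}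
    (hC : ∀ m : ℕ, ∑ p ∈ Pab 4 m, ch p * hp p ≤ C) :
    2 * M R 1 - (6 + C) * M R 0 ≤ ∑ r ∈ SR R, hR r * Real.log r := by
  classical
  have hRp : 0 < R := by linarith
  rw [D0_log hR1]
  have h1 : ∑ p ∈ Pab 4 ⌊R⌋₊, (ch p * (∑ r ∈ (SR R).filter (fun r : ℕ => ((p * r : ℕ) : ℝ) ≤ R),
      hR r) - ch p * hp p * M R 0) ≤ ∑ p ∈ Pab 4 ⌊R⌋₊,
      ch p * ∑ r ∈ (SR R).filter (fun r => ¬ p ∣ r ∧ ((p * r : ℕ) : ℝ) ≤ R), hR r := by
    refine Finset.sum_le_sum fun p hp' => ?_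
    obtain ⟨h4, hpR, hpp⟩ := mem_Pab.mp hp'
    have h5 : 5 ≤ p := by omega
    have := mul_le_mul_of_nonneg_left (D0_inner hRp hpp h5) (ch_nonneg h5)
    linarith
  refine le_trans ?_ h1
  rw [Finset.sum_sub_distrib, ← Finset.sum_mul]
  have h2 : (∑ p ∈ Pab 4 ⌊R⌋₊, ch p * hp p) * M R 0 ≤ C * M R 0 :=
    mul_le_mul_of_nonneg_right (hC _) (D0_M0_nonneg R)
  have h3 : ∑ p ∈ Pab 4 ⌊R⌋₊, ch p * (∑ r ∈ (SR R).filter (fun r : ℕ => ((p * r : ℕ) : ℝ) ≤ R),
      hR r) = ∑ r ∈ SR R, hR r * ∑ p ∈ (Pab 4 ⌊R⌋₊).filter (fun p : ℕ => ((p * r : ℕ) : ℝ) ≤ R),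
        ch p := by
    simp_rw [Finset.mul_sum, Finset.sum_filter]
    rw [Finset.sum_comm]
    refine Finset.sum_congr rfl fun r _ => Finset.sum_congr rfl fun p _ => ?_
    split_ifs <;> ring
  have h4 : 2 * M R 1 - 6 * M R 0 ≤ ∑ r ∈ SR R,
      hR r * ∑ p ∈ (Pab 4 ⌊R⌋₊).filter (fun p : ℕ => ((p * r : ℕ) : ℝ) ≤ R), ch p := by
    unfold M
    rw [Finset.mul_sum, Finset.mul_sum, ← Finset.sum_sub_distrib]
    refine Finset.sum_le_sum fun r hr => ?_
    have hg := good_of_mem_SR hr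
    have hr0 := hg.pos
    have hr1 : (1 : ℝ) ≤ r := by exact_mod_cast hr0
    have hrR := ((mem_SR hRp.le).mp hr).2
    have hY := Y_eq hr0 hrR
    have e1 : aS ⌊Real.exp (Y R r)⌋₊ ≤
        ∑ p ∈ (Pab 4 ⌊R⌋₊).filter (fun p : ℕ => ((p * r : ℕ) : ℝ) ≤ R), ch p := by
      unfold aS
      have e2 : ∀ p ∈ Pab 4 ⌊Real.exp (Y R r)⌋₊, 2 * Real.log p / ((p : ℝ) - 1) ≤ ch p := by
        intro p hp'
        obtain ⟨h4, -, hpp⟩ := mem_Pab.mp hp'
        have h5 : (5 : ℝ) ≤ p := by exact_mod_cast h4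
        unfold ch
        apply div_le_div_of_nonneg_left _ (by linarith) (by linarith)
        have := Real.log_nonneg (show (1 : ℝ) ≤ p by linarith)
        linarith
      refine (Finset.sum_le_sum e2).trans ?_
      apply Finset.sum_le_sum_of_subset_of_nonneg
      · intro p hp'
        obtain ⟨h4, h4', hpp⟩ := mem_Pab.mp hp'
        have hlp := (log_le_iff hpp.pos _).mpr h4'
        have hpr : ((p * r : ℕ) : ℝ) ≤ R := by
          push_cast
          have hp0 : (0 : ℝ) < p := by exact_mod_cast hpp.pos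
          rw [← Real.log_le_log_iff (by positivity) hRp, Real.log_mul hp0.ne' (by linarith)]
          linarith
        rw [Finset.mem_filter]
        refine ⟨mem_Pab.mpr ⟨h4, ?_, hpp⟩, hpr⟩
        apply Nat.le_floor
        refine le_trans ?_ hpr
        push_cast
        have hp0 : (0 : ℝ) ≤ p := Nat.cast_nonneg _
        nlinarith
      · intro p hp' _
        have := (mem_Pab.mp (Finset.mem_filter.mp hp').1).1
        exact ch_nonneg (by omega)
    have e3 := aS_lower ⌊Real.exp (Y R r)⌋₊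
    have e4 : Y R r ≤ Real.log ((⌊Real.exp (Y R r)⌋₊ : ℝ) + 1) := by
      rw [Real.le_log_iff_exp_le (by positivity)]
      exact (Nat.lt_floor_add_one _).le
    have e5 : 2 + 2 * Real.log 2 + Real.log 3 ≤ 6 := by
      have a1 := Real.log_two_lt_d9
      have a2 : Real.log 3 ≤ 2 := by
        have := Real.log_le_sub_one_of_pos (show (0 : ℝ) < 3 by norm_num)
        linarith
      linarith
    have e6 : 2 * Y R r - 6 ≤
        ∑ p ∈ (Pab 4 ⌊R⌋₊).filter (fun p : ℕ => ((p * r : ℕ) : ℝ) ≤ R), ch p := by linarith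
    have e7 := mul_le_mul_of_nonneg_left e6 (hR_pos hg).le
    simp only [pow_zero, pow_one, mul_one]
    linarith
  rw [h3]
  linarith

theorem p_D0 : S_D0 := by
  obtain ⟨C, hC0, hC⟩ := D0_bd
  refine ⟨6 + C, by positivity, fun v hv => ?_⟩
  have hR1 : 1 ≤ Real.exp v := Real.one_le_exp hv
  have h1 := log_moment_eq hR1 0
  have h2 := D0_lower hR1 hC
  simp only [pow_zero, mul_one, zero_add, Real.log_exp] at h1
  linarith

end Pool.Agent.TwA
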