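import Mathlib
import Pool.Agent.Lib.MP_d610d0_nt.AS.Stm

set_option autoImplicit false

namespace Pool.Agent.TwA

open Finset MeasureTheory
open Pool.Agent.Lib.MP_d610d0_nt

private lemma D1_M {u v : ℝ} (h : u ≤ v) (k : ℕ) :
    M (Real.exp u) k = ∑ r ∈ SR (Real.exp v),
      if Real.log r ≤ u then hR r * (u - Real.log r) ^ k else 0 := by
  unfold M
  rw [← Finset.sum_filter]
  have hs : SR (Real.exp u) = (SR (Real.exp v)).filter (fun r : ℕ => Real.log r ≤ u) := by
    ext r
    rw [Finset.mem_filter, mem_SR (Real.exp_pos u).le, mem_SR (Real.exp_pos v).le]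
    constructor
    · rintro ⟨h1, h2⟩
      have hr : (0 : ℝ) < r := by exact_mod_cast h1.pos
      exact ⟨⟨h1, h2.trans (Real.exp_le_exp.2 h)⟩, (Real.log_le_iff_le_exp hr).2 h2⟩
    · rintro ⟨⟨h1, _⟩, h3⟩
      have hr : (0 : ℝ) < r := by exact_mod_cast h1.pos
      exact ⟨h1, (Real.log_le_iff_le_exp hr).1 h3⟩
  rw [← hs]
  refine Finset.sum_congr rfl (fun r hr => ?_)
  have h1 := (mem_SR (Real.exp_pos u).le).1 hr
  rw [Y_eq h1.1.pos h1.2, Real.log_exp]

theorem p_D1 : S_D1 := by
  intro v hv k
  have hint : ∀ r ∈ SR (Real.exp v),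
      IntervalIntegrable (fun u => if Real.log r ≤ u then hR r * (u - Real.log r) ^ k else 0)
        volume 0 v ∧
      (∫ u in (0 : ℝ)..v, if Real.log r ≤ u then hR r * (u - Real.log r) ^ k else 0) =
        hR r * ((v - Real.log r) ^ (k + 1) / (k + 1)) := by
    intro r hr
    have h1 := (mem_SR (Real.exp_pos v).le).1 hr
    have hr0 : (0 : ℝ) < r := by exact_mod_cast h1.1.pos
    have hr1 : (1 : ℝ) ≤ r := by exact_mod_cast h1.1.pos
    have hlv : Real.log r ≤ v := (Real.log_le_iff_le_exp hr0).2 h1.2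
    have hl0 : 0 ≤ Real.log r := Real.log_nonneg hr1
    have hc : ContinuousOn (fun u : ℝ => hR r * (u - Real.log r) ^ k) (Set.Icc 0 v) :=
      (continuous_const.mul ((continuous_id.sub continuous_const).pow k)).continuousOn
    obtain ⟨i1, i2⟩ := step_int (v := Real.log r) hv (fun u => hR r * (u - Real.log r) ^ k) hc
    refine ⟨i1, ?_⟩
    rw [i2, if_pos hlv, max_eq_left hl0, intervalIntegral.integral_const_mul,
      intervalIntegral.integral_comp_sub_right (fun x => x ^ k) (Real.log r), integral_pow,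
      sub_self, zero_pow (Nat.succ_ne_zero k), sub_zero]
  have hEq : ∀ u ∈ Set.uIcc 0 v, M (Real.exp u) k = ∑ r ∈ SR (Real.exp v),
      if Real.log r ≤ u then hR r * (u - Real.log r) ^ k else 0 := by
    intro u hu
    rw [Set.uIcc_of_le hv] at hu
    exact D1_M hu.2 k
  have hsum : IntervalIntegrable (fun u => ∑ r ∈ SR (Real.exp v),
      if Real.log r ≤ u then hR r * (u - Real.log r) ^ k else 0) volume 0 v := by
    have e2 : (fun u => ∑ r ∈ SR (Real.exp v),
        if Real.log r ≤ u then hR r * (u - Real.log r) ^ k else 0)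
        = ∑ r ∈ SR (Real.exp v),
          fun u => if Real.log r ≤ u then hR r * (u - Real.log r) ^ k else 0 := by
      funext u
      rw [Finset.sum_apply]
    rw [e2]
    exact IntervalIntegrable.sum _ (fun r hr => (hint r hr).1)
  constructor
  · refine (intervalIntegrable_congr ?_).2 hsum
    intro u hu
    exact hEq u (Set.uIoc_subset_uIcc hu)
  · rw [intervalIntegral.integral_congr hEq,
      intervalIntegral.integral_finsetSum (fun r hr => (hint r hr).1), Finset.mul_sum,
      D1_M le_rfl (k + 1)]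
    refine Finset.sum_congr rfl (fun r hr => ?_)
    have h1 := (mem_SR (Real.exp_pos v).le).1 hr
    have hr0 : (0 : ℝ) < r := by exact_mod_cast h1.1.pos
    have hlv : Real.log r ≤ v := (Real.log_le_iff_le_exp hr0).2 h1.2
    rw [(hint r hr).2, if_pos hlv]
    have : ((k : ℝ) + 1) ≠ 0 := by positivity
    field_simp

end Pool.Agent.TwA
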