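import Mathlib
import Pool.Agent.Lib.MP_d610d0_nt.AS.Stm

set_option autoImplicit false

namespace Pool.Agent.TwA

open Finset MeasureTheory
open Pool.Agent.Lib.MP_d610d0_nt

private lemma D2a_M {u v : ℝ} (h : u ≤ v) (k : ℕ) :
    M (Real.exp u) k = ∑ r ∈ SR (Real.exp v),
      if Real.log r ≤ u then hR r * (u - Real.log r) ^ k else 0 := by
  unfold M
  rw [← Finset.sum_filter]
  have hs : SR (Real.exp u) = (SR (Real.exp v)).filter (fun r : ℕ => Real.log r ≤ u) := by
    ext r
    rw [Finset.mem_filter, mem_SR (Real.exp_pos u).le, mem_SR (Real.exp_pos v).le]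
    constructor
    · rintro ⟨h1, h2⟩
      have hr : (0 : ℝ) < r := by exact_mod_cast h1.pos
      exact ⟨⟨h1, h2.trans (Real.exp_le_exp.2 h)⟩, (Real.log_le_iff_le_exp hr).2 h2⟩
    · rintro ⟨⟨h1, _⟩, h3⟩
      have hr : (0 : ℝ) < r := by exact_mod_cast h1.pos
      exact ⟨h1, (Real.log_le_iff_le_exp hr).1 h3⟩
  rw [← hs]
  refine Finset.sum_congr rfl (fun r hr => ?_)
  have h1 := (mem_SR (Real.exp_pos u).le).1 hr
  rw [Y_eq h1.1.pos h1.2, Real.log_exp]

/-- The global version of `u ↦ M (exp u) 1`. -/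
private noncomputable def D2a_F (v u : ℝ) : ℝ :=
  ∑ r ∈ SR (Real.exp v), hR r * max 0 (u - Real.log r)

private lemma D2a_F_eq {u v : ℝ} (h : u ≤ v) : D2a_F v u = M (Real.exp u) 1 := by
  rw [D2a_M h 1]
  unfold D2a_F
  refine Finset.sum_congr rfl (fun r _ => ?_)
  by_cases hr : Real.log r ≤ u
  · rw [if_pos hr, max_eq_right (sub_nonneg.2 hr), pow_one]
  · rw [if_neg hr, max_eq_left (by linarith), mul_zero]

private lemma D2a_max (a u : ℝ) :
    HasDerivWithinAt (fun x => max 0 (x - a)) (if a ≤ u then 1 else 0) (Set.Ici u) u := by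
  by_cases h : a ≤ u
  · rw [if_pos h]
    have h1 : HasDerivWithinAt (fun x : ℝ => x - a) 1 (Set.Ici u) u :=
      ((hasDerivAt_id u).sub_const a).hasDerivWithinAt
    refine h1.congr (fun x hx => ?_) ?_
    · exact max_eq_right (sub_nonneg.2 (h.trans hx))
    · exact max_eq_right (sub_nonneg.2 h)
  · rw [if_neg h]
    push_neg at h
    have h1 : HasDerivAt (fun _ : ℝ => (0 : ℝ)) 0 u := hasDerivAt_const u 0
    have h2 : (fun x : ℝ => max 0 (x - a)) =ᶠ[nhds u] fun _ => 0 := by
      filter_upwards [Iio_mem_nhds h] with x hx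
      have : x < a := hx
      exact max_eq_left (by linarith)
    exact (h1.congr_of_eventuallyEq h2).hasDerivWithinAt

private lemma D2a_F_deriv {u v : ℝ} (h : u ≤ v) :
    HasDerivWithinAt (D2a_F v) (M (Real.exp u) 0) (Set.Ici u) u := by
  have h1 : HasDerivWithinAt (fun x => ∑ r ∈ SR (Real.exp v), hR r * max 0 (x - Real.log r))
      (∑ r ∈ SR (Real.exp v), hR r * (if Real.log r ≤ u then 1 else 0)) (Set.Ici u) u :=
    HasDerivWithinAt.fun_sum (fun r _ => (D2a_max (Real.log r) u).const_mul (hR r))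
  rw [D2a_M h 0]
  have e : (∑ r ∈ SR (Real.exp v), if Real.log r ≤ u then hR r * (u - Real.log r) ^ 0 else 0) =
      ∑ r ∈ SR (Real.exp v), hR r * (if Real.log r ≤ u then 1 else 0) := by
    refine Finset.sum_congr rfl (fun r _ => ?_)
    split_ifs <;> simp
  rw [e]
  exact h1

private lemma D2a_F_cont (v : ℝ) : Continuous (D2a_F v) := by
  unfold D2a_F
  exact continuous_finsetSum _
    (fun r _ => continuous_const.mul (continuous_const.max (continuous_id.sub continuous_const)))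

theorem p_D2a (_hD1 : S_D1) : S_D2a := by
  intro v1 v2 hv1 hv12
  have hpos : ∀ x ∈ Set.Icc v1 v2, 0 < x := fun x hx => hv1.trans_le hx.1
  have hc : ContinuousOn (fun u => D2a_F v2 u / u ^ 3) (Set.Icc v1 v2) :=
    (D2a_F_cont v2).continuousOn.div ((continuous_id.pow 3).continuousOn)
      (fun x hx => (pow_pos (hpos x hx) 3).ne')
  have hd : ∀ x ∈ Set.Ico v1 v2, HasDerivWithinAt (fun u => D2a_F v2 u / u ^ 3)
      ((M (Real.exp x) 0 * x ^ 3 - D2a_F v2 x * (3 * x ^ 2)) / (x ^ 3) ^ 2) (Set.Ici x) x := by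
    intro x hx
    have hx0 : 0 < x := hv1.trans_le hx.1
    have h1 := D2a_F_deriv (v := v2) hx.2.le
    have h2 : HasDerivWithinAt (fun u : ℝ => u ^ 3) (3 * x ^ 2) (Set.Ici x) x := by
      have := (hasDerivAt_pow 3 x).hasDerivWithinAt (s := Set.Ici x)
      simpa using this
    exact h1.fun_div h2 (pow_pos hx0 3).ne'
  have key := image_le_of_deriv_right_le_deriv_boundary hc hd (B := fun _ => D2a_F v2 v1 / v1 ^ 3)
    (B' := fun _ => 0) le_rfl continuousOn_const (fun x _ => hasDerivWithinAt_const _ _ _)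
    (by
      intro x hx
      have hx0 : 0 < x := hv1.trans_le hx.1
      have h1 := rel0 (Real.one_le_exp hx0.le)
      rw [Real.log_exp] at h1
      rw [D2a_F_eq hx.2.le]
      refine div_nonpos_of_nonpos_of_nonneg ?_ (by positivity)
      have h2 : M (Real.exp x) 0 * x ^ 3 - M (Real.exp x) 1 * (3 * x ^ 2) =
          x ^ 2 * (x * M (Real.exp x) 0 - 3 * M (Real.exp x) 1) := by ring
      rw [h2]
      exact mul_nonpos_of_nonneg_of_nonpos (sq_nonneg x) (by linarith))
  have h3 := key (Set.right_mem_Icc.2 hv12)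
  rw [D2a_F_eq le_rfl, D2a_F_eq hv12,
    div_le_div_iff₀ (pow_pos (hv1.trans_le hv12) 3) (pow_pos hv1 3)] at h3
  exact h3

end Pool.Agent.TwA
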