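import Pool.Agent.Lib.MP_d610d0_nt.AS.Stm

set_option autoImplicit false

namespace Pool.Agent.TwA

open Finset MeasureTheory
open Pool.Agent.Lib.MP_d610d0_nt

private lemma D3_hRpos {R : ℝ} {r : ℕ} (hr : r ∈ SR R) : 0 < hR r :=
  hR_pos (good_of_mem_SR hr)

private lemma D3_M_nonneg (R : ℝ) (k : ℕ) : 0 ≤ M R k := by
  unfold M
  exact Finset.sum_nonneg (fun r hr =>
    mul_nonneg (D3_hRpos hr).le (pow_nonneg (Y_nonneg R r) k))

private lemma D3_M0_mono {u v : ℝ} (huv : u ≤ v) : M (Real.exp u) 0 ≤ M (Real.exp v) 0 := by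
  unfold M
  simp only [pow_zero, mul_one]
  refine Finset.sum_le_sum_of_subset_of_nonneg ?_ (fun r hr _ => (D3_hRpos hr).le)
  intro r hr
  rw [mem_SR (Real.exp_pos _).le] at hr ⊢
  exact ⟨hr.1, hr.2.trans (Real.exp_le_exp.mpr huv)⟩

private lemma D3_M1_one : 1 ≤ M (Real.exp 1) 1 := by
  have h1 : (1 : ℕ) ∈ SR (Real.exp 1) := by
    rw [mem_SR (Real.exp_pos _).le]
    refine ⟨⟨squarefree_one, Nat.coprime_one_left 6⟩, ?_⟩
    have := Real.add_one_le_exp (1 : ℝ)
    push_cast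
    linarith
  have h2 : hR 1 * Y (Real.exp 1) 1 ^ 1 = 1 := by
    unfold hR Y
    simp
  unfold M
  calc (1 : ℝ) = hR 1 * Y (Real.exp 1) 1 ^ 1 := h2.symm
    _ ≤ _ := Finset.single_le_sum (f := fun r => hR r * Y (Real.exp 1) r ^ 1)
        (fun r hr => mul_nonneg (D3_hRpos hr).le (pow_nonneg (Y_nonneg _ r) 1)) h1

theorem p_D3 (hD0 : S_D0) (hD1 : S_D1) (hD2a : S_D2a) (hD2b : S_D2b) : S_D3 := by
  obtain ⟨K0, hK0, hK⟩ := hD0
  obtain ⟨K1, hK1def⟩ : ∃ K1, K1 = K0 + 1 := ⟨_, rfl⟩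
  have hK1 : 0 < K1 := by linarith
  have hup : ∀ v : ℝ, 0 ≤ v → 3 * M (Real.exp v) 1 ≤ (v + K1) * M (Real.exp v) 0 := by
    intro v hv
    have h1 := hK v hv
    have h2 := D3_M_nonneg (Real.exp v) 0
    nlinarith
  have hlow : ∀ v : ℝ, 0 ≤ v → v * M (Real.exp v) 0 ≤ 3 * M (Real.exp v) 1 := by
    intro v hv
    have h := rel0 (R := Real.exp v) (Real.one_le_exp hv)
    rwa [Real.log_exp] at h
  have hb := hD2b K1 hK1 hup
  -- b w ≤ a v
  have hba : ∀ v w : ℝ, 0 < v → 0 ≤ w →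
      M (Real.exp w) 1 / (w + K1) ^ 3 ≤ M (Real.exp v) 1 / v ^ 3 := by
    intro v w hv hw
    have hu1 : v ≤ max v w := le_max_left _ _
    have hu2 : w ≤ max v w := le_max_right _ _
    have hu : 0 < max v w := lt_of_lt_of_le hv hu1
    have h1 := hD2a v (max v w) hv hu1
    have h2 := hb w (max v w) hw hu2
    have h3 : M (Real.exp w) 1 / (w + K1) ^ 3
        ≤ M (Real.exp (max v w)) 1 / (max v w + K1) ^ 3 := by
      rw [div_le_div_iff₀ (by positivity) (by positivity)]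
      exact h2
    have h4 : M (Real.exp (max v w)) 1 / (max v w) ^ 3 ≤ M (Real.exp v) 1 / v ^ 3 := by
      rw [div_le_div_iff₀ (by positivity) (by positivity)]
      exact h1
    have h5 : M (Real.exp (max v w)) 1 / (max v w + K1) ^ 3
        ≤ M (Real.exp (max v w)) 1 / (max v w) ^ 3 := by
      apply div_le_div_of_nonneg_left (D3_M_nonneg _ _) (by positivity)
      exact pow_le_pow_left₀ hu.le (by linarith) 3
    exact h3.trans (h5.trans h4)
  obtain ⟨A, hA⟩ : ∃ A : ℝ, A = sSup ((fun w : ℝ => M (Real.exp w) 1 / (w + K1) ^ 3) '' Set.Ici 0) :=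
    ⟨_, rfl⟩
  have hbdd : BddAbove ((fun w : ℝ => M (Real.exp w) 1 / (w + K1) ^ 3) '' Set.Ici 0) := by
    refine ⟨M (Real.exp 1) 1 / 1 ^ 3, ?_⟩
    rintro _ ⟨w, hw, rfl⟩
    exact hba 1 w one_pos hw
  have hA1 : ∀ w : ℝ, 0 ≤ w → M (Real.exp w) 1 / (w + K1) ^ 3 ≤ A := by
    intro w hw
    rw [hA]
    exact le_csSup hbdd ⟨w, hw, rfl⟩
  have hA2 : ∀ v : ℝ, 0 < v → A ≤ M (Real.exp v) 1 / v ^ 3 := by
    intro v hv
    rw [hA]
    refine csSup_le ⟨_, ⟨0, Set.mem_Ici.mpr le_rfl, rfl⟩⟩ ?_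
    rintro _ ⟨w, hw, rfl⟩
    exact hba v w hv hw
  have hApos : 0 < A := by
    have h1 := hA1 1 zero_le_one
    have h2 : 0 < M (Real.exp 1) 1 / (1 + K1) ^ 3 := by
      have := D3_M1_one
      positivity
    linarith
  have hM1u : ∀ v : ℝ, 0 ≤ v → M (Real.exp v) 1 ≤ A * (v + K1) ^ 3 := by
    intro v hv
    have h := hA1 v hv
    rwa [div_le_iff₀ (by positivity)] at h
  have hM1l : ∀ v : ℝ, 0 ≤ v → A * v ^ 3 ≤ M (Real.exp v) 1 := by
    intro v hv
    rcases hv.eq_or_lt with h0 | h0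
    · rw [← h0]
      have := D3_M_nonneg (Real.exp 0) 1
      simpa using this
    · have h := hA2 v h0
      rwa [le_div_iff₀ (by positivity)] at h
  obtain ⟨P, hP⟩ : ∃ P, P = 3 * K1 + 3 * K1 ^ 2 + K1 ^ 3 := ⟨_, rfl⟩
  obtain ⟨Q, hQ⟩ : ∃ Q, Q = 2 * K1 + 3 * K1 ^ 2 + 2 * K1 ^ 3 := ⟨_, rfl⟩
  obtain ⟨m, hm⟩ : ∃ m, m = M (Real.exp 1) 0 := ⟨_, rfl⟩
  have hP0 : 0 < P := by rw [hP]; positivity
  have hQ0 : 0 < Q := by rw [hQ]; positivity
  have hm0 : 0 ≤ m := by rw [hm]; exact D3_M_nonneg _ _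
  have hAP : 0 < A * P := mul_pos hApos hP0
  have hAQ : 0 < A * Q := mul_pos hApos hQ0
  refine ⟨3 * A, 3 * A * P + 3 * A + m + A * Q, by positivity, by positivity, ?_⟩
  intro v hv
  have e1 := hM1u v hv
  have e2 := hM1l v hv
  refine ⟨?_, ?_, ?_⟩
  · -- M_0
    have n0 := D3_M_nonneg (Real.exp v) 0
    rcases le_or_gt v 1 with h1 | h1
    · have n1 : M (Real.exp v) 0 ≤ m := by rw [hm]; exact D3_M0_mono h1
      have n2 : v ^ 2 ≤ 1 := by nlinarith
      have n3 : 0 ≤ v ^ 2 := by positivity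
      have n4 : 3 * A * v ^ 2 ≤ 3 * A := by nlinarith
      have n5 : 0 ≤ 3 * A * v ^ 2 := by positivity
      have n6 : (3 * A * P + 3 * A + m + A * Q) * 1 ≤ (3 * A * P + 3 * A + m + A * Q) * (v + 1) := by
        apply mul_le_mul_of_nonneg_left (by linarith) (by positivity)
      rw [abs_le]
      constructor
      · nlinarith
      · nlinarith
    · have hv0 : 0 < v := by linarith
      have l1 := hlow v hv
      have l2 := hup v hv
      -- upper
      have u1 : v * M (Real.exp v) 0 ≤ 3 * (A * (v + K1) ^ 3) := by linarith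
      have u2 : M (Real.exp v) 0 ≤ 3 * A * v ^ 2 + 3 * A * P * v := by
        have : v * M (Real.exp v) 0 ≤ v * (3 * A * v ^ 2 + 3 * A * P * v) := by
          refine u1.trans ?_
          rw [hP]
          have k1 : 0 ≤ A * K1 ^ 2 * (v * (v - 1)) := by
            have : 0 ≤ v * (v - 1) := mul_nonneg hv0.le (by linarith)
            positivity
          have k2 : 0 ≤ A * K1 ^ 3 * (v ^ 2 - 1) := by
            have : 0 ≤ v ^ 2 - 1 := by nlinarith
            positivity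
          nlinarith
        exact le_of_mul_le_mul_left this hv0
      have u3 : 3 * A * v ^ 2 - 3 * A * K1 * v ≤ M (Real.exp v) 0 := by
        have : (v + K1) * (3 * A * v ^ 2 - 3 * A * K1 * v) ≤ (v + K1) * M (Real.exp v) 0 := by
          refine le_trans ?_ l2
          have k3 : 0 ≤ 3 * A * K1 ^ 2 * v := by positivity
          nlinarith
        exact le_of_mul_le_mul_left this (by linarith)
      have u4 : 3 * A * K1 * v ≤ 3 * A * P * v := by
        have : K1 ≤ P := by rw [hP]; nlinarith [sq_nonneg K1, pow_pos hK1 3]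
        have : 3 * A * K1 ≤ 3 * A * P := by nlinarith
        exact mul_le_mul_of_nonneg_right this hv0.le
      have u5 : 3 * A * P * v ≤ (3 * A * P + 3 * A + m + A * Q) * (v + 1) := by
        have : 0 ≤ (3 * A + m + A * Q) * (v + 1) + 3 * A * P := by positivity
        nlinarith
      rw [abs_le]
      constructor <;> linarith
  · -- M_1
    have h1 : A * (v + K1) ^ 3 - A * v ^ 3 ≤ A * P * (v + 1) ^ 2 := by
      rw [hP]
      have k1 : 0 ≤ A * K1 * (2 * v + 1) := by positivity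
      have k2 : 0 ≤ A * K1 ^ 2 * (v ^ 2 + v + 1) := by positivity
      have k3 : 0 ≤ A * K1 ^ 3 * (v ^ 2 + 2 * v) := by positivity
      nlinarith
    have h2 : A * P * (v + 1) ^ 2 ≤ (3 * A * P + 3 * A + m + A * Q) * (v + 1) ^ 2 := by
      apply mul_le_mul_of_nonneg_right _ (by positivity)
      nlinarith
    have h3 : 3 * A / 3 * v ^ 3 = A * v ^ 3 := by ring
    rw [h3, abs_le]
    have h4 : 0 ≤ (3 * A * P + 3 * A + m + A * Q) * (v + 1) ^ 2 := by positivity
    constructor <;> linarith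
  · -- M_2
    obtain ⟨hint, heq⟩ := hD1 v hv 1
    have heq2 : M (Real.exp v) 2 = 2 * ∫ u in (0 : ℝ)..v, M (Real.exp u) 1 := by
      have := heq
      norm_num at this
      exact this
    have i1 : ∫ u in (0 : ℝ)..v, A * u ^ 3 ≤ ∫ u in (0 : ℝ)..v, M (Real.exp u) 1 := by
      apply intervalIntegral.integral_mono_on hv _ hint
      · intro u hu
        exact hM1l u hu.1
      · apply Continuous.intervalIntegrable
        fun_prop
    have i2 : ∫ u in (0 : ℝ)..v, M (Real.exp u) 1 ≤ ∫ u in (0 : ℝ)..v, A * (u + K1) ^ 3 := by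
      apply intervalIntegral.integral_mono_on hv hint
      · apply Continuous.intervalIntegrable
        fun_prop
      · intro u hu
        exact hM1u u hu.1
    have j1 : ∫ u in (0 : ℝ)..v, A * u ^ 3 = A * v ^ 4 / 4 := by
      rw [intervalIntegral.integral_const_mul, integral_pow]
      norm_num
      ring
    have j2 : ∫ u in (0 : ℝ)..v, A * (u + K1) ^ 3 = A * ((v + K1) ^ 4 - K1 ^ 4) / 4 := by
      rw [intervalIntegral.integral_const_mul,
        intervalIntegral.integral_comp_add_right (fun x => x ^ 3) K1, integral_pow]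
      norm_num
      ring
    rw [j1] at i1
    rw [j2] at i2
    have h1 : A * ((v + K1) ^ 4 - K1 ^ 4) / 2 - A * v ^ 4 / 2 ≤ A * Q * (v + 1) ^ 3 := by
      rw [hQ]
      have k1 : 0 ≤ A * K1 * (2 * (v + 1) ^ 3 - 2 * v ^ 3) := by
        have : 0 ≤ 2 * (v + 1) ^ 3 - 2 * v ^ 3 := by nlinarith [pow_nonneg hv 2]
        positivity
      have k2 : 0 ≤ A * K1 ^ 2 * (3 * (v + 1) ^ 3 - 3 * v ^ 2) := by
        have : 0 ≤ 3 * (v + 1) ^ 3 - 3 * v ^ 2 := by nlinarith [pow_nonneg hv 2, pow_nonneg hv 3]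
        positivity
      have k3 : 0 ≤ A * K1 ^ 3 * (2 * (v + 1) ^ 3 - 2 * v) := by
        have : 0 ≤ 2 * (v + 1) ^ 3 - 2 * v := by nlinarith [pow_nonneg hv 2, pow_nonneg hv 3]
        positivity
      have k4 : A * (2 * K1 + 3 * K1 ^ 2 + 2 * K1 ^ 3) * (v + 1) ^ 3
          - (A * ((v + K1) ^ 4 - K1 ^ 4) / 2 - A * v ^ 4 / 2)
          = A * K1 * (2 * (v + 1) ^ 3 - 2 * v ^ 3)
          + A * K1 ^ 2 * (3 * (v + 1) ^ 3 - 3 * v ^ 2)
          + A * K1 ^ 3 * (2 * (v + 1) ^ 3 - 2 * v) := by ring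
      linarith
    have h2 : A * Q * (v + 1) ^ 3 ≤ (3 * A * P + 3 * A + m + A * Q) * (v + 1) ^ 3 := by
      apply mul_le_mul_of_nonneg_right _ (by positivity)
      nlinarith
    have h3 : 3 * A / 6 * v ^ 4 = A * v ^ 4 / 2 := by ring
    have h4 : 0 ≤ (3 * A * P + 3 * A + m + A * Q) * (v + 1) ^ 3 := by positivity
    rw [h3, heq2, abs_le]
    constructor <;> linarith

end Pool.Agent.TwA
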