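import Mathlib
import Pool.Agent.Lib.MP_d610d0_nt.AS.Stm

set_option autoImplicit false

namespace Pool.Agent.TwA

open Finset MeasureTheory
open Pool.Agent.Lib.MP_d610d0_nt

private lemma D4_Yq {ℓ : ℝ} {r : ℕ} (hr : 0 < r) (h : (r : ℝ) ≤ Real.exp ℓ) :
    Yq (Real.exp ℓ) r = ℓ - Real.log r + ℓ / 8 := by
  have hr' : (0 : ℝ) < r := by exact_mod_cast hr
  unfold Yq
  rw [if_pos h, Real.log_div (Real.exp_pos _).ne' hr'.ne', Real.log_exp]

private lemma D4_Y {ℓ : ℝ} {r : ℕ} (hr : 0 < r) (h : (r : ℝ) ≤ Real.exp ℓ) :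
    Y (Real.exp ℓ) r = ℓ - Real.log r := by
  rw [Y_eq hr h, Real.log_exp]

private lemma D4_mem {ℓ : ℝ} {r : ℕ} (h : r ∈ SR (Real.exp ℓ)) :
    0 < r ∧ (r : ℝ) ≤ Real.exp ℓ :=
  ⟨(good_of_mem_SR h).pos, ((mem_SR (Real.exp_pos _).le).mp h).2⟩

private lemma D4_iff {ℓ : ℝ} {p r : ℕ} (hp : 0 < p) :
    ((p * r : ℕ) : ℝ) ≤ Real.exp ℓ ↔ (r : ℝ) ≤ Real.exp (ℓ - Real.log p) := by
  have hp' : (0 : ℝ) < p := by exact_mod_cast hp
  rw [Real.exp_sub, Real.exp_log hp', le_div_iff₀ hp']
  push_cast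
  rw [mul_comm]

private lemma D4_M (ℓ a : ℝ) :
    ∑ r ∈ SR (Real.exp ℓ), hR r * (Y (Real.exp ℓ) r + a) ^ 2
      = M (Real.exp ℓ) 2 + 2 * a * M (Real.exp ℓ) 1 + a ^ 2 * M (Real.exp ℓ) 0 := by
  unfold M
  rw [Finset.mul_sum, Finset.mul_sum, ← Finset.sum_add_distrib, ← Finset.sum_add_distrib]
  apply Finset.sum_congr rfl
  intro r _
  ring

theorem p_D4 : S_D4 := by
  intro ℓ hℓ
  refine ⟨?_, ?_⟩
  · have h1 : Mq (Real.exp ℓ)
        = ∑ r ∈ SR (Real.exp ℓ), hR r * (Y (Real.exp ℓ) r + ℓ / 8) ^ 2 := by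
      unfold Mq
      apply Finset.sum_congr rfl
      intro r hr
      obtain ⟨h0, h1⟩ := D4_mem hr
      rw [D4_Yq h0 h1, D4_Y h0 h1]
    rw [h1, D4_M]
    ring
  · intro p hp h5
    have hp0 : 0 < p := hp.pos
    have hlp : 0 ≤ Real.log p := Real.log_natCast_nonneg p
    refine ⟨?_, ?_⟩
    · intro hle
      have h2 : Gq (Real.exp ℓ) p = Mq (Real.exp ℓ)
          + ∑ r ∈ SR (Real.exp (ℓ - Real.log p)),
            hR r * (Real.log p ^ 2
              - (Y (Real.exp (ℓ - Real.log p)) r + (Real.log p + ℓ / 8)) ^ 2) := by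
        have hsub : SR (Real.exp (ℓ - Real.log p))
            = (SR (Real.exp ℓ)).filter (fun r : ℕ => (r : ℝ) ≤ Real.exp (ℓ - Real.log p)) := by
          ext r
          rw [Finset.mem_filter, mem_SR (Real.exp_pos _).le, mem_SR (Real.exp_pos _).le]
          constructor
          · rintro ⟨a, b⟩
            exact ⟨⟨a, b.trans (Real.exp_le_exp.mpr (by linarith))⟩, b⟩
          · rintro ⟨⟨a, _⟩, b⟩
            exact ⟨a, b⟩
        rw [hsub, Finset.sum_filter]
        unfold Gq Mq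
        rw [← Finset.sum_add_distrib]
        apply Finset.sum_congr rfl
        intro r hr
        obtain ⟨h0, h1⟩ := D4_mem hr
        have hr' : (0 : ℝ) < r := by exact_mod_cast h0
        have hp' : (0 : ℝ) < p := by exact_mod_cast hp0
        split_ifs with hc
        · rw [D4_Yq h0 h1, D4_Yq (Nat.mul_pos hp0 h0) ((D4_iff hp0).mpr hc), D4_Y h0 hc]
          push_cast
          rw [Real.log_mul hp'.ne' hr'.ne']
          ring
        · have hz : Yq (Real.exp ℓ) (p * r) = 0 := by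
            unfold Yq
            rw [if_neg]
            rw [D4_iff hp0]
            exact hc
          rw [hz]
          ring
      rw [h2]
      have h3 : ∑ r ∈ SR (Real.exp (ℓ - Real.log p)),
            hR r * (Real.log p ^ 2
              - (Y (Real.exp (ℓ - Real.log p)) r + (Real.log p + ℓ / 8)) ^ 2)
          = Real.log p ^ 2 * M (Real.exp (ℓ - Real.log p)) 0
            - ∑ r ∈ SR (Real.exp (ℓ - Real.log p)),
            hR r * (Y (Real.exp (ℓ - Real.log p)) r + (Real.log p + ℓ / 8)) ^ 2 := by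
        unfold M
        rw [Finset.mul_sum, ← Finset.sum_sub_distrib]
        apply Finset.sum_congr rfl
        intro r _
        ring
      rw [h3, D4_M]
      ring
    · intro hlt
      unfold Gq Mq
      apply Finset.sum_congr rfl
      intro r hr
      obtain ⟨h0, h1⟩ := D4_mem hr
      have hr1 : (1 : ℝ) ≤ r := by exact_mod_cast h0
      have hz : Yq (Real.exp ℓ) (p * r) = 0 := by
        unfold Yq
        rw [if_neg]
        rw [D4_iff hp0]
        intro hcon
        have h4 : Real.exp (ℓ - Real.log p) < 1 := by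
          rw [Real.exp_lt_one_iff]
          linarith
        linarith
      rw [hz]
      ring

end Pool.Agent.TwA
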