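import Mathlib
import Pool.Agent.Lib.MP_d610d0_nt.AS.Stm

/-!
[D5] Uniform asymptotics for `Mq` and `Gq`.
-/

set_option autoImplicit false

namespace Pool.Agent.TwA

open Finset MeasureTheory
open Pool.Agent.Lib.MP_d610d0_nt

/-- Bounds of D3 on `[0, ℓ]` in terms of `ℓ`. -/
private lemma D5_unif {C0 K : ℝ} (hK : 0 ≤ K)
    (h : ∀ v : ℝ, 0 ≤ v →
      |M (Real.exp v) 0 - C0 * v ^ 2| ≤ K * (v + 1) ∧
      |M (Real.exp v) 1 - C0 / 3 * v ^ 3| ≤ K * (v + 1) ^ 2 ∧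
      |M (Real.exp v) 2 - C0 / 6 * v ^ 4| ≤ K * (v + 1) ^ 3)
    {ℓ m : ℝ} (hℓ : 1 ≤ ℓ) (hm : 0 ≤ m) (hmℓ : m ≤ ℓ) :
    |M (Real.exp m) 0 - C0 * m ^ 2| ≤ 2 * K * ℓ ∧
    |M (Real.exp m) 1 - C0 / 3 * m ^ 3| ≤ 4 * K * ℓ ^ 2 ∧
    |M (Real.exp m) 2 - C0 / 6 * m ^ 4| ≤ 8 * K * ℓ ^ 3 := by
  obtain ⟨h0, h1, h2⟩ := h m hm
  have e : m + 1 ≤ 2 * ℓ := by linarith
  have e0 : (0 : ℝ) ≤ m + 1 := by linarith
  refine ⟨h0.trans ?_, h1.trans ?_, h2.trans ?_⟩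
  · calc K * (m + 1) ≤ K * (2 * ℓ) := mul_le_mul_of_nonneg_left e hK
      _ = 2 * K * ℓ := by ring
  · calc K * (m + 1) ^ 2 ≤ K * (2 * ℓ) ^ 2 :=
          mul_le_mul_of_nonneg_left (pow_le_pow_left₀ e0 e 2) hK
      _ = 4 * K * ℓ ^ 2 := by ring
  · calc K * (m + 1) ^ 3 ≤ K * (2 * ℓ) ^ 3 :=
          mul_le_mul_of_nonneg_left (pow_le_pow_left₀ e0 e 3) hK
      _ = 8 * K * ℓ ^ 3 := by ring

/-- `|c * a| ≤ c' * b`. -/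
private lemma D5_abs {c c' a b : ℝ} (hc : 0 ≤ c) (hcc : c ≤ c') (ha : |a| ≤ b) :
    |c * a| ≤ c' * b := by
  rw [abs_mul, abs_of_nonneg hc]
  exact mul_le_mul hcc ha (abs_nonneg _) (hc.trans hcc)

theorem p_D5 (hD3 : S_D3) (hD4 : S_D4) : S_D5 := by
  obtain ⟨C0, K, hC0, hK, h3⟩ := hD3
  refine ⟨C0, 32 * K, hC0, by positivity, fun ℓ hℓ => ?_⟩
  have hℓ0 : 0 ≤ ℓ := by linarith
  have hℓp : 0 < ℓ := by linarith
  obtain ⟨hM, hG⟩ := hD4 ℓ hℓ0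
  obtain ⟨a0, a1, a2⟩ := D5_unif hK h3 hℓ hℓ0 le_rfl
  have hKℓ : 0 ≤ K * ℓ ^ 3 := by positivity
  -- the total moment
  have hMq : |Mq (Real.exp ℓ) - 17 / 64 * C0 * ℓ ^ 4| ≤ 10 * K * ℓ ^ 3 := by
    have e : Mq (Real.exp ℓ) - 17 / 64 * C0 * ℓ ^ 4 =
        (M (Real.exp ℓ) 2 - C0 / 6 * ℓ ^ 4) + ℓ / 4 * (M (Real.exp ℓ) 1 - C0 / 3 * ℓ ^ 3) +
        ℓ ^ 2 / 64 * (M (Real.exp ℓ) 0 - C0 * ℓ ^ 2) := by
      rw [hM]; ring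
    have b1 := D5_abs (c := ℓ / 4) (c' := ℓ / 4) (by positivity) le_rfl a1
    have b0 := D5_abs (c := ℓ ^ 2 / 64) (c' := ℓ ^ 2 / 64) (by positivity) le_rfl a0
    rw [e]
    refine (abs_add_le _ _).trans ?_
    have := abs_add_le (M (Real.exp ℓ) 2 - C0 / 6 * ℓ ^ 4)
      (ℓ / 4 * (M (Real.exp ℓ) 1 - C0 / 3 * ℓ ^ 3))
    have c1 : ℓ / 4 * (4 * K * ℓ ^ 2) = K * ℓ ^ 3 := by ring
    have c0 : ℓ ^ 2 / 64 * (2 * K * ℓ) = 1 / 32 * (K * ℓ ^ 3) := by ring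
    rw [c1] at b1
    rw [c0] at b0
    nlinarith
  refine ⟨hMq.trans (by nlinarith), fun p hp hp5 => ?_⟩
  obtain ⟨hle, hgt⟩ := hG p hp hp5
  have hlp : 0 ≤ Real.log p := Real.log_natCast_nonneg p
  rcases le_or_gt (Real.log p) ℓ with hcase | hcase
  · have hgt' : gt (Real.log p / ℓ) = gq (Real.log p / ℓ) := by
      unfold gt
      rw [min_eq_left ((div_le_one hℓp).2 hcase)]
    set x := Real.log p with hx
    obtain ⟨b0, b1, b2⟩ := D5_unif hK h3 hℓ (m := ℓ - x) (by linarith) (by linarith)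
    rw [hle hcase, hgt']
    have e : Mq (Real.exp ℓ)
        - (M (Real.exp (ℓ - x)) 2 + 2 * (x + ℓ / 8) * M (Real.exp (ℓ - x)) 1
        + (x + ℓ / 8) ^ 2 * M (Real.exp (ℓ - x)) 0) + x ^ 2 * M (Real.exp (ℓ - x)) 0
        - C0 * ℓ ^ 4 * gq (x / ℓ) =
        (Mq (Real.exp ℓ) - 17 / 64 * C0 * ℓ ^ 4)
        - (M (Real.exp (ℓ - x)) 2 - C0 / 6 * (ℓ - x) ^ 4)
        - 2 * (x + ℓ / 8) * (M (Real.exp (ℓ - x)) 1 - C0 / 3 * (ℓ - x) ^ 3)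
        - (x + ℓ / 8) ^ 2 * (M (Real.exp (ℓ - x)) 0 - C0 * (ℓ - x) ^ 2)
        + x ^ 2 * (M (Real.exp (ℓ - x)) 0 - C0 * (ℓ - x) ^ 2) := by
      unfold gq
      field_simp
      ring
    rw [e]
    have d1 := D5_abs (c := 2 * (x + ℓ / 8)) (c' := 9 / 4 * ℓ) (by positivity) (by linarith) b1
    have d0 := D5_abs (c := (x + ℓ / 8) ^ 2) (c' := (9 / 8 * ℓ) ^ 2) (by positivity)
      (pow_le_pow_left₀ (by positivity) (by linarith) 2) b0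
    have d2 := D5_abs (c := x ^ 2) (c' := ℓ ^ 2) (by positivity)
      (pow_le_pow_left₀ hlp hcase 2) b0
    have c1 : 9 / 4 * ℓ * (4 * K * ℓ ^ 2) = 9 * (K * ℓ ^ 3) := by ring
    have c0 : (9 / 8 * ℓ) ^ 2 * (2 * K * ℓ) = 81 / 32 * (K * ℓ ^ 3) := by ring
    have c2 : ℓ ^ 2 * (2 * K * ℓ) = 2 * (K * ℓ ^ 3) := by ring
    rw [c1] at d1
    rw [c0] at d0
    rw [c2] at d2
    rw [abs_le] at hMq b2 d0 d1 d2 ⊢
    constructor <;> linarith [hMq.1, hMq.2, b2.1, b2.2, d0.1, d0.2, d1.1, d1.2, d2.1, d2.2]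
  · have hgt' : gt (Real.log p / ℓ) = 17 / 64 := by
      unfold gt
      rw [min_eq_right ((one_le_div hℓp).2 hcase.le)]
      unfold gq
      norm_num
    rw [hgt hcase, hgt']
    have : C0 * ℓ ^ 4 * (17 / 64) = 17 / 64 * C0 * ℓ ^ 4 := by ring
    rw [this]
    exact hMq.trans (by nlinarith)

end Pool.Agent.TwA
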