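import Pool.Agent.Lib.MP_d610d0_nt.AS.Stm
import Pool.Agent.Lib.MP_d610d0_nt.Layer
import Pool.Agent.Lib.MP_d610d0_nt.Weight

set_option autoImplicit false

/-!
Piece [AS D6]: the sum over the primes of the limit function.
-/

namespace Pool.Agent.TwA

open Finset MeasureTheory
open Pool.Agent.Lib.MP_d610d0_nt

private noncomputable def D6_f1 (l u : ℝ) : ℝ :=
  (1 / 32) / l + 235 / 192 * u / l ^ 2 - 367 / 192 * u ^ 2 / l ^ 3 + u ^ 3 / l ^ 4
    - u ^ 4 / (6 * l ^ 5)

private noncomputable def D6_p1 (l u : ℝ) : ℝ :=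
  -(235 / 192) / l ^ 2 + 367 / 96 * u / l ^ 3 - 3 * u ^ 2 / l ^ 4 + 2 / 3 * u ^ 3 / l ^ 5

private lemma D6_der (l u : ℝ) (hl : 0 < l) : HasDerivAt (fun u => - D6_f1 l u) (D6_p1 l u) u := by
  have h1 : HasDerivAt (fun u : ℝ => u) 1 u := hasDerivAt_id u
  have h2 : HasDerivAt (fun u : ℝ => u ^ 2) (2 * u) u := by
    simpa using hasDerivAt_pow 2 u
  have h3 : HasDerivAt (fun u : ℝ => u ^ 3) (3 * u ^ 2) u := by
    simpa using hasDerivAt_pow 3 u
  have h4 : HasDerivAt (fun u : ℝ => u ^ 4) (4 * u ^ 3) u := by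
    simpa using hasDerivAt_pow 4 u
  have h := (((((hasDerivAt_const u ((1 / 32) / l)).add
    ((h1.const_mul (235 / 192)).div_const (l ^ 2))).sub
    ((h2.const_mul (367 / 192)).div_const (l ^ 3))).add
    (h3.div_const (l ^ 4))).sub (h4.div_const (6 * l ^ 5))).neg
  have h' : HasDerivAt (fun u => - D6_f1 l u) _ u := h
  refine h'.congr_deriv ?_
  unfold D6_p1
  field_simp
  ring

private lemma D6_cont (l : ℝ) : Continuous (D6_p1 l) := by
  unfold D6_p1
  fun_prop

private lemma D6_int1 (l v w : ℝ) (hl : 0 < l) :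
    ∫ u in v..w, D6_p1 l u = D6_f1 l v - D6_f1 l w := by
  rw [intervalIntegral.integral_eq_sub_of_hasDerivAt (f := fun u => - D6_f1 l u)
    (fun u _ => D6_der l u hl) ((D6_cont l).intervalIntegrable _ _)]
  ring

private lemma D6_abs (l u : ℝ) (hl : 0 < l) (h0 : 0 ≤ u) (h1 : u ≤ l) :
    |D6_p1 l u| ≤ 10 / l ^ 2 := by
  have e1 : u ^ 2 ≤ l ^ 2 := pow_le_pow_left₀ h0 h1 2
  have e2 : u ^ 3 ≤ l ^ 3 := pow_le_pow_left₀ h0 h1 3
  have a1 : u / l ^ 3 ≤ 1 / l ^ 2 := by
    rw [div_le_div_iff₀ (by positivity) (by positivity)]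
    nlinarith [pow_pos hl 2]
  have a2 : u ^ 2 / l ^ 4 ≤ 1 / l ^ 2 := by
    rw [div_le_div_iff₀ (by positivity) (by positivity)]
    nlinarith [pow_pos hl 2]
  have a3 : u ^ 3 / l ^ 5 ≤ 1 / l ^ 2 := by
    rw [div_le_div_iff₀ (by positivity) (by positivity)]
    nlinarith [pow_pos hl 2]
  have b1 : 0 ≤ u / l ^ 3 := by positivity
  have b2 : 0 ≤ u ^ 2 / l ^ 4 := by positivity
  have b3 : 0 ≤ u ^ 3 / l ^ 5 := by positivity
  have b0 : 0 ≤ 1 / l ^ 2 := by positivity
  have e : D6_p1 l u = -(235 / 192) * (1 / l ^ 2) + 367 / 96 * (u / l ^ 3)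
      - 3 * (u ^ 2 / l ^ 4) + 2 / 3 * (u ^ 3 / l ^ 5) := by
    unfold D6_p1
    ring
  have e10 : (10 : ℝ) / l ^ 2 = 10 * (1 / l ^ 2) := by ring
  rw [e, e10, abs_le]
  constructor <;> nlinarith

private lemma D6_int2 (l v : ℝ) (hl : 0 < l) (hv : 0 < v) (hv' : v ≤ 3 * l) :
    ∫ u in v..(3 * l), (17 / 64 : ℝ) / u ^ 2 = 17 / 64 * (1 / v - 1 / (3 * l)) := by
  have hpos : ∀ u ∈ Set.uIcc v (3 * l), 0 < u := by
    intro u hu
    rw [Set.uIcc_of_le hv'] at hu
    exact lt_of_lt_of_le hv hu.1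
  rw [intervalIntegral.integral_eq_sub_of_hasDerivAt (f := fun u => -(17 / 64 * u⁻¹))]
  · field_simp
    ring
  · intro u hu
    have h := ((hasDerivAt_inv (hpos u hu).ne').const_mul (17 / 64 : ℝ)).neg
    refine h.congr_deriv ?_
    have := (hpos u hu).ne'
    field_simp
  · apply ContinuousOn.intervalIntegrable
    apply ContinuousOn.div continuousOn_const (by fun_prop)
    intro u hu
    have := (hpos u hu).ne'
    positivity

private lemma D6_Ale (l u : ℝ) (hu : 0 ≤ u) : aF (Pr (3 * l)) ca lg u ≤ 2 * u := by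
  have h := aFa_le (Pr (3 * l)) (fun p hp => ⟨(mem_Pr.mp hp).1, (mem_Pr.mp hp).2.1⟩) u
  exact h.trans (max_le (by linarith) (by linarith))

private lemma D6_Age (l u : ℝ) (hu : u < 3 * l) : 2 * u - 6 ≤ aF (Pr (3 * l)) ca lg u := by
  have h := aFa_ge (Pr (3 * l)) (fun p hp => (mem_Pr.mp hp).2.1) u
    (fun p hp h5 hlp => mem_Pr.mpr ⟨hp, h5, lt_of_le_of_lt hlp hu⟩)
  have h2 : Real.log 2 ≤ 1 := by
    have := Real.log_two_lt_d9
    linarith
  have h3 : Real.log 3 ≤ 2 := by
    have := Real.log_le_sub_one_of_pos (show (0 : ℝ) < 3 by norm_num)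
    linarith
  linarith

theorem p_D6 : S_D6 := by
  refine ⟨60, by norm_num, fun l hl1 => ?_⟩
  have hl : 0 < l := by linarith
  set P := Pr (3 * l) with hP
  set A := aF P ca lg with hA
  -- the layer formula on the two ranges
  have L1 := layer P ca lg hl.le (D6_p1 l) (D6_cont l).continuousOn
  have hc2 : ContinuousOn (fun u : ℝ => (17 / 64 : ℝ) / u ^ 2) (Set.Icc l (3 * l)) := by
    apply ContinuousOn.div continuousOn_const (by fun_prop)
    intro u hu
    have : 0 < u := lt_of_lt_of_le hl hu.1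
    positivity
  have L2 := layer P ca lg (show l ≤ 3 * l by linarith) (fun u => (17 / 64 : ℝ) / u ^ 2) hc2
  have hsum : ∑ p ∈ P, wt (3 * l) p * (2 / ((p : ℝ) - 1)) * gt (Real.log p / l) =
      (∫ u in (0 : ℝ)..l, D6_p1 l u * A u) + ∫ u in l..(3 * l), (17 / 64 : ℝ) / u ^ 2 * A u := by
    rw [L1.2, L2.2, ← Finset.sum_add_distrib]
    refine Finset.sum_congr rfl fun p hp => ?_
    obtain ⟨hp1, hp5, hp3⟩ := mem_Pr.mp hp
    have hp5' : (5 : ℝ) ≤ p := by exact_mod_cast hp5
    have hx0 : 0 < lg p := by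
      unfold lg
      exact Real.log_pos (by linarith)
    have hx3 : lg p < 3 * l := hp3
    have hca : ca p = 2 * lg p / ((p : ℝ) - 1) := rfl
    have hwt : wt (3 * l) p = 1 - lg p / (3 * l) := rfl
    have hlog : Real.log p = lg p := rfl
    have hpp : (0 : ℝ) < (p : ℝ) - 1 := by linarith
    rw [hlog, hwt, hca, if_pos hx3.le]
    obtain ⟨x, hx⟩ : ∃ x, x = lg p := ⟨_, rfl⟩
    rw [← hx] at hx0 hx3 ⊢
    rcases le_or_gt x l with h | h
    · rw [if_pos h, max_eq_left hx0.le, max_eq_right h, D6_int1 l x l hl,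
        D6_int2 l l hl hl (by linarith)]
      have hgt : gt (x / l) = gq (x / l) := by
        unfold gt
        rw [min_eq_left ((div_le_one hl).mpr h)]
      rw [hgt]
      unfold gq D6_f1
      field_simp
      ring
    · rw [if_neg (not_le.mpr h), max_eq_left h.le, D6_int2 l x hl hx0 hx3.le]
      have hgt : gt (x / l) = gq 1 := by
        unfold gt
        rw [min_eq_right ((one_le_div hl).mpr h.le)]
      rw [hgt]
      unfold gq
      field_simp
      ring
  rw [hsum]
  -- the first integral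
  have I1 : ∫ u in (0 : ℝ)..l, D6_p1 l u * A u ≤
      (235 / 192 * (-1) + 367 / 144 - 3 / 2 + 4 / 15) + 60 / l := by
    have h1 : ∫ u in (0 : ℝ)..l, D6_p1 l u * A u ≤
        ∫ u in (0 : ℝ)..l, (D6_p1 l u * (2 * u) + 60 / l ^ 2) := by
      apply intervalIntegral.integral_mono_on hl.le L1.1
      · apply Continuous.intervalIntegrable
        have := D6_cont l
        fun_prop
      · intro u hu
        have a1 : A u ≤ 2 * u := D6_Ale l u hu.1
        have a2 : 2 * u - 6 ≤ A u := D6_Age l u (by linarith [hu.2])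
        have a3 := D6_abs l u hl hu.1 hu.2
        have a4 : |A u - 2 * u| ≤ 6 := by
          rw [abs_le]
          constructor <;> linarith
        have a5 : D6_p1 l u * (A u - 2 * u) ≤ 10 / l ^ 2 * 6 := by
          refine (le_abs_self _).trans ?_
          rw [abs_mul]
          exact mul_le_mul a3 a4 (abs_nonneg _) (by positivity)
        have a6 : (60 : ℝ) / l ^ 2 = 10 / l ^ 2 * 6 := by ring
        rw [a6]
        linarith [mul_sub (D6_p1 l u) (A u) (2 * u)]
    refine h1.trans (le_of_eq ?_)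
    have hG : ∀ u ∈ Set.uIcc (0 : ℝ) l, HasDerivAt (fun u : ℝ =>
        -(235 / 192) * u ^ 2 / l ^ 2 + 367 / 144 * u ^ 3 / l ^ 3 - 3 / 2 * u ^ 4 / l ^ 4
          + 4 / 15 * u ^ 5 / l ^ 5 + 60 / l ^ 2 * u) (D6_p1 l u * (2 * u) + 60 / l ^ 2) u := by
      intro u _
      have h1 : HasDerivAt (fun u : ℝ => u) 1 u := hasDerivAt_id u
      have h2 : HasDerivAt (fun u : ℝ => u ^ 2) (2 * u) u := by
        simpa using hasDerivAt_pow 2 u
      have h3 : HasDerivAt (fun u : ℝ => u ^ 3) (3 * u ^ 2) u := by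
        simpa using hasDerivAt_pow 3 u
      have h4 : HasDerivAt (fun u : ℝ => u ^ 4) (4 * u ^ 3) u := by
        simpa using hasDerivAt_pow 4 u
      have h5 : HasDerivAt (fun u : ℝ => u ^ 5) (5 * u ^ 4) u := by
        simpa using hasDerivAt_pow 5 u
      have h := (((((h2.const_mul (-(235 / 192) : ℝ)).div_const (l ^ 2)).add
        ((h3.const_mul (367 / 144 : ℝ)).div_const (l ^ 3))).sub
        ((h4.const_mul (3 / 2 : ℝ)).div_const (l ^ 4))).add
        ((h5.const_mul (4 / 15 : ℝ)).div_const (l ^ 5))).add (h1.const_mul (60 / l ^ 2))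
      refine h.congr_deriv ?_
      unfold D6_p1
      field_simp
      ring
    rw [intervalIntegral.integral_eq_sub_of_hasDerivAt hG
      (by
        apply Continuous.intervalIntegrable
        have := D6_cont l
        fun_prop)]
    field_simp
    ring
  have I2 : ∫ u in l..(3 * l), (17 / 64 : ℝ) / u ^ 2 * A u ≤ 17 / 32 * Real.log 3 := by
    have h1 : ∫ u in l..(3 * l), (17 / 64 : ℝ) / u ^ 2 * A u ≤
        ∫ u in l..(3 * l), (17 / 32 : ℝ) * u⁻¹ := by
      apply intervalIntegral.integral_mono_on (by linarith) L2.1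
      · apply ContinuousOn.intervalIntegrable
        rw [Set.uIcc_of_le (by linarith)]
        apply ContinuousOn.mul continuousOn_const
        apply ContinuousOn.inv₀ continuousOn_id
        intro u hu
        exact (lt_of_lt_of_le hl hu.1).ne'
      · intro u hu
        have hu0 : 0 < u := lt_of_lt_of_le hl hu.1
        have a1 : A u ≤ 2 * u := D6_Ale l u hu0.le
        calc (17 / 64 : ℝ) / u ^ 2 * A u ≤ (17 / 64 : ℝ) / u ^ 2 * (2 * u) :=
              mul_le_mul_of_nonneg_left a1 (by positivity)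
          _ = 17 / 32 * u⁻¹ := by
              field_simp
              ring
    refine h1.trans (le_of_eq ?_)
    rw [intervalIntegral.integral_const_mul, integral_inv_of_pos hl (by linarith)]
    congr 2
    field_simp
  calc _ ≤ ((235 / 192 * (-1) + 367 / 144 - 3 / 2 + 4 / 15) + 60 / l) + 17 / 32 * Real.log 3 :=
        add_le_add I1 I2
    _ = _ := by ring

end Pool.Agent.TwA
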