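import Pool.Agent.Lib.MP_d610d0_nt.AS.Stm

set_option autoImplicit false

namespace Pool.Agent.TwA

open Finset MeasureTheory
open Pool.Agent.Lib.MP_d610d0_nt

private lemma D7_log {p : ℕ} (h : 5 ≤ p) : 1 ≤ Real.log p := by
  rw [Real.le_log_iff_exp_le (by positivity)]
  have h1 := Real.exp_one_lt_d9
  have : (5 : ℝ) ≤ p := by exact_mod_cast h
  linarith

private lemma D7_term {η : ℝ} (hη : 1 ≤ η) {p : ℕ} (h : 5 ≤ p) :
    2 / ((p : ℝ) - 1) ≤ (if lg p ≤ Real.sqrt η then ca p else 0) + ca p * (1 / Real.sqrt η) := by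
  have hs : 1 ≤ Real.sqrt η := Real.one_le_sqrt.mpr hη
  have hs0 : 0 < Real.sqrt η := by linarith
  have hp : (5 : ℝ) ≤ p := by exact_mod_cast h
  have hl := D7_log h
  have hc := ca_nonneg h
  have hca : ca p = 2 / ((p : ℝ) - 1) * Real.log p := by
    unfold ca; ring
  have hq : 0 < 2 / ((p : ℝ) - 1) := by
    apply div_pos <;> linarith
  split_ifs with h1
  · have h2 : 2 / ((p : ℝ) - 1) ≤ ca p := by
      rw [hca]
      nlinarith
    have h3 : 0 ≤ ca p * (1 / Real.sqrt η) := by positivity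
    linarith
  · have h2 : Real.sqrt η ≤ Real.log p := by
      have := not_le.mp h1
      unfold lg at this
      exact this.le
    rw [zero_add, hca, mul_assoc]
    have h3 : 1 ≤ Real.log p * (1 / Real.sqrt η) := by
      rw [mul_one_div, one_le_div hs0]
      exact h2
    nlinarith

theorem p_D7 : S_D7 := by
  intro η hη
  have hs : 1 ≤ Real.sqrt η := Real.one_le_sqrt.mpr hη
  have hs0 : 0 < Real.sqrt η := by linarith
  have h1 : ∑ p ∈ Pr η, 2 / ((p : ℝ) - 1) ≤
      ∑ p ∈ Pr η, ((if lg p ≤ Real.sqrt η then ca p else 0) + ca p * (1 / Real.sqrt η)) := by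
    apply Finset.sum_le_sum
    intro p hp
    exact D7_term hη (mem_Pr.mp hp).2.1
  rw [Finset.sum_add_distrib, ← Finset.sum_mul] at h1
  have h2 : ∑ p ∈ Pr η, (if lg p ≤ Real.sqrt η then ca p else 0) ≤ 2 * Real.sqrt η := by
    have h := aFa_le (Pr η) Pr_prop (Real.sqrt η)
    unfold aF at h
    refine h.trans (max_le (by positivity) (by linarith))
  have h3 : ∑ p ∈ Pr η, ca p ≤ 2 * η := by
    have h := aFa_le (Pr η) Pr_prop η
    unfold aF at h
    have h4 : ∑ p ∈ Pr η, ca p = ∑ p ∈ Pr η, (if lg p ≤ η then ca p else 0) := by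
      apply Finset.sum_congr rfl
      intro p hp
      have h6 : lg p ≤ η := (mem_Pr.mp hp).2.2.le
      rw [if_pos h6]
    rw [h4]
    exact h.trans (max_le (by linarith) (by linarith))
  have h5 : (∑ p ∈ Pr η, ca p) * (1 / Real.sqrt η) ≤ 2 * Real.sqrt η := by
    rw [mul_one_div, div_le_iff₀ hs0]
    have : Real.sqrt η * Real.sqrt η = η := Real.mul_self_sqrt (by linarith)
    linarith
  linarith

end Pool.Agent.TwA
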