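import Pool.Agent.Lib.MP_d610d0_nt.AS.Stm

set_option autoImplicit false

namespace Pool.Agent.TwA

open Finset MeasureTheory
open Pool.Agent.Lib.MP_d610d0_nt

private lemma D8_term {R : ℝ} {p r : ℕ} (h : r ∈ SR R) :
    0 ≤ hR r * (Yq R r - Yq R (p * r)) ^ 2 :=
  mul_nonneg (hR_pos (good_of_mem_SR h)).le (sq_nonneg _)

private lemma D8_Gn_nonneg (R : ℝ) (p : ℕ) : 0 ≤ Gn R p :=
  Finset.sum_nonneg (fun _ hr => D8_term (Finset.mem_filter.mp hr).1)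

private lemma D8_Gn_le (R : ℝ) (p : ℕ) : Gn R p ≤ Gq R p :=
  Finset.sum_le_sum_of_subset_of_nonneg (Finset.filter_subset _ _) (fun _ hr _ => D8_term hr)

private lemma D8_Gq_nonneg (R : ℝ) (p : ℕ) : 0 ≤ Gq R p :=
  Finset.sum_nonneg (fun _ hr => D8_term hr)

private lemma D8_Mq_nonneg (R : ℝ) : 0 ≤ Mq R :=
  Finset.sum_nonneg (fun _ hr => mul_nonneg (hR_pos (good_of_mem_SR hr)).le (sq_nonneg _))

private lemma D8_two_div {p : ℕ} (h5 : 5 ≤ p) :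
    0 ≤ 2 / (p : ℝ) ∧ 2 / (p : ℝ) ≤ 2 / ((p : ℝ) - 1) ∧ 0 ≤ 2 / ((p : ℝ) - 1) := by
  have hp : (5 : ℝ) ≤ p := by exact_mod_cast h5
  refine ⟨by positivity, ?_, div_nonneg (by norm_num) (by linarith)⟩
  exact div_le_div_of_nonneg_left (by norm_num) (by linarith) (by linarith)

private lemma D8_size {K C ℓ A : ℝ} (hK : 0 ≤ K) (hA : 1 ≤ A) (hℓ : A ^ 2 ≤ ℓ)
    (hKA : K ≤ C * A) : K * ℓ ^ 3 * Real.sqrt (3 * ℓ) ≤ 2 * C * ℓ ^ 4 := by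
  have hℓ1 : 1 ≤ ℓ := by nlinarith
  have hs : 0 ≤ Real.sqrt ℓ := Real.sqrt_nonneg _
  have hAs : A ≤ Real.sqrt ℓ := Real.le_sqrt_of_sq_le hℓ
  have hC : 0 ≤ C := by
    by_contra hneg
    have : C * A < 0 := mul_neg_of_neg_of_pos (lt_of_not_ge hneg) (by linarith)
    linarith
  have h3 : Real.sqrt (3 * ℓ) ≤ 2 * Real.sqrt ℓ := by
    have h4 : Real.sqrt (3 * ℓ) ≤ Real.sqrt (2 ^ 2 * ℓ) := Real.sqrt_le_sqrt (by linarith)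
    have h5 : Real.sqrt (2 ^ 2 * ℓ) = 2 * Real.sqrt ℓ := by
      rw [Real.sqrt_mul (by norm_num) ℓ, Real.sqrt_sq (by norm_num)]
    linarith
  have hKs : K ≤ C * Real.sqrt ℓ := hKA.trans (mul_le_mul_of_nonneg_left hAs hC)
  have hss : Real.sqrt ℓ * Real.sqrt ℓ = ℓ := Real.mul_self_sqrt (by linarith)
  have hl3 : 0 ≤ ℓ ^ 3 := by positivity
  calc K * ℓ ^ 3 * Real.sqrt (3 * ℓ) ≤ K * ℓ ^ 3 * (2 * Real.sqrt ℓ) :=
        mul_le_mul_of_nonneg_left h3 (mul_nonneg hK hl3)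
    _ = K * (ℓ ^ 3 * (2 * Real.sqrt ℓ)) := by ring
    _ ≤ (C * Real.sqrt ℓ) * (ℓ ^ 3 * (2 * Real.sqrt ℓ)) :=
        mul_le_mul_of_nonneg_right hKs (by positivity)
    _ = 2 * C * ℓ ^ 3 * (Real.sqrt ℓ * Real.sqrt ℓ) := by ring
    _ = 2 * C * ℓ ^ 4 := by rw [hss]; ring

theorem p_D8 (hD5 : S_D5) (hD6 : S_D6) (hD7 : S_D7) (hD9 : S_D9) : S_D8 := by
  obtain ⟨C0, K, hC0, hK, h5⟩ := hD5
  obtain ⟨K6, hK6, h6⟩ := hD6
  -- the constant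
  set A : ℝ := 1 + (K + C0 * K6) / (0.000001 * C0) with hAdef
  have hA1 : 1 ≤ A := by
    have : 0 ≤ (K + C0 * K6) / (0.000001 * C0) := by positivity
    linarith
  have hKA : K + C0 * K6 ≤ (0.000001 * C0) * A := by
    have hpos : 0 < 0.000001 * C0 := by positivity
    have h1 : (K + C0 * K6) / (0.000001 * C0) ≤ A := by linarith
    rw [div_le_iff₀ hpos] at h1
    linarith
  refine ⟨C0, A ^ 2, hC0, by nlinarith, ?_⟩
  intro ℓ hℓ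
  have hℓ1 : 1 ≤ ℓ := by nlinarith
  have hℓ0 : 0 < ℓ := by linarith
  have hη : (0 : ℝ) < 3 * ℓ := by linarith
  obtain ⟨hM, hG⟩ := h5 ℓ hℓ1
  have h6' := h6 ℓ hℓ1
  have h7' := hD7 (3 * ℓ) (by linarith)
  have hsz := D8_size (K := K + C0 * K6) (by positivity) hA1 hℓ hKA
  have hC0K6 : 0 ≤ C0 * K6 := by positivity
  have hl3 : 0 ≤ ℓ ^ 3 := by positivity
  have hsq1 : 1 ≤ Real.sqrt (3 * ℓ) := by
    rw [Real.one_le_sqrt]; linarith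
  have hsq0 : 0 ≤ Real.sqrt (3 * ℓ) := by linarith
  -- bound for K ℓ^3 √(3ℓ) etc.
  have hb1 : K * ℓ ^ 3 * Real.sqrt (3 * ℓ) ≤ 0.000002 * C0 * ℓ ^ 4 := by
    have : K * ℓ ^ 3 * Real.sqrt (3 * ℓ) ≤ (K + C0 * K6) * ℓ ^ 3 * Real.sqrt (3 * ℓ) :=
      mul_le_mul_of_nonneg_right (mul_le_mul_of_nonneg_right (by linarith) hl3) hsq0
    linarith
  have hb2 : (K + C0 * K6) * ℓ ^ 3 ≤ 0.000002 * C0 * ℓ ^ 4 := by
    have : (K + C0 * K6) * ℓ ^ 3 * 1 ≤ (K + C0 * K6) * ℓ ^ 3 * Real.sqrt (3 * ℓ) :=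
      mul_le_mul_of_nonneg_left hsq1 (by positivity)
    linarith
  have hGle : ∀ p ∈ Pr (3 * ℓ), Gq (Real.exp ℓ) p ≤ C0 * ℓ ^ 4 * gt (Real.log p / ℓ) + K * ℓ ^ 3 := by
    intro p hp
    obtain ⟨hpp, hp5, _⟩ := mem_Pr.mp hp
    have := (abs_le.mp (hG p hpp hp5)).2
    linarith
  have hKl : 0 ≤ K * ℓ ^ 3 := mul_nonneg hK hl3
  refine ⟨?_, ?_⟩
  · intro B hB
    have hMq := (abs_le.mp hM).1
    have hBM : 2.5506 * Mq (Real.exp ℓ) ≤ B * Mq (Real.exp ℓ) :=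
      mul_le_mul_of_nonneg_right hB (D8_Mq_nonneg _)
    have hsum : ∑ p ∈ Pr (3 * ℓ), wt (3 * ℓ) p * (2 / (p : ℝ) * Gn (Real.exp ℓ) p)
        ≤ C0 * ℓ ^ 4 * (∑ p ∈ Pr (3 * ℓ), wt (3 * ℓ) p * (2 / ((p : ℝ) - 1)) * gt (Real.log p / ℓ))
          + K * ℓ ^ 3 * ∑ p ∈ Pr (3 * ℓ), 2 / ((p : ℝ) - 1) := by
      rw [Finset.mul_sum, Finset.mul_sum, ← Finset.sum_add_distrib]
      refine Finset.sum_le_sum (fun p hp => ?_)
      obtain ⟨hpp, hp5, _⟩ := mem_Pr.mp hp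
      obtain ⟨q1, q2, q3⟩ := D8_two_div hp5
      have w0 := wt_nonneg hη hp
      have w1 := wt_le_one hη hp
      have e1 : 2 / (p : ℝ) * Gn (Real.exp ℓ) p ≤ 2 / ((p : ℝ) - 1) * Gq (Real.exp ℓ) p :=
        mul_le_mul q2 (D8_Gn_le _ _) (D8_Gn_nonneg _ _) q3
      have e2 : 2 / ((p : ℝ) - 1) * Gq (Real.exp ℓ) p
          ≤ 2 / ((p : ℝ) - 1) * (C0 * ℓ ^ 4 * gt (Real.log p / ℓ) + K * ℓ ^ 3) :=
        mul_le_mul_of_nonneg_left (hGle p hp) q3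
      have e3 : wt (3 * ℓ) p * (2 / ((p : ℝ) - 1) * (K * ℓ ^ 3))
          ≤ 1 * (2 / ((p : ℝ) - 1) * (K * ℓ ^ 3)) :=
        mul_le_mul_of_nonneg_right w1 (mul_nonneg q3 hKl)
      have e4 := mul_le_mul_of_nonneg_left (e1.trans e2) w0
      calc wt (3 * ℓ) p * (2 / (p : ℝ) * Gn (Real.exp ℓ) p)
          ≤ wt (3 * ℓ) p * (2 / ((p : ℝ) - 1) * (C0 * ℓ ^ 4 * gt (Real.log p / ℓ) + K * ℓ ^ 3)) := e4
        _ = C0 * ℓ ^ 4 * (wt (3 * ℓ) p * (2 / ((p : ℝ) - 1)) * gt (Real.log p / ℓ))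
            + wt (3 * ℓ) p * (2 / ((p : ℝ) - 1) * (K * ℓ ^ 3)) := by ring
        _ ≤ C0 * ℓ ^ 4 * (wt (3 * ℓ) p * (2 / ((p : ℝ) - 1)) * gt (Real.log p / ℓ))
            + 1 * (2 / ((p : ℝ) - 1) * (K * ℓ ^ 3)) := by linarith
        _ = _ := by ring
    have hCl : 0 ≤ C0 * ℓ ^ 4 := by positivity
    have f1 := mul_le_mul_of_nonneg_left h6' hCl
    have f2 := mul_le_mul_of_nonneg_left h7' hKl
    have f3 : C0 * ℓ ^ 4 * (K6 / ℓ) = C0 * K6 * ℓ ^ 3 := by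
      field_simp
    have hlog : Real.log 3 ≤ 1.09862 := by
      have := Real.log_three_lt_d9
      linarith
    have f4 : C0 * ℓ ^ 4 * (35 / 64 - 73 / 720 + 17 / 32 * (Real.log 3 - 2 / 3))
        ≤ C0 * ℓ ^ 4 * 0.67497 := mul_le_mul_of_nonneg_left (by linarith) hCl
    have f5 : K * ℓ ^ 3 ≤ (K + C0 * K6) * ℓ ^ 3 :=
      mul_le_mul_of_nonneg_right (by linarith) hl3
    have f6 : C0 * K6 * ℓ ^ 3 ≤ (K + C0 * K6) * ℓ ^ 3 :=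
      mul_le_mul_of_nonneg_right (by linarith) hl3
    unfold mq
    rw [mul_add] at f1
    rw [f3] at f1
    linarith
  · intro w hw
    have h9' := hD9 (3 * ℓ) ℓ w hℓ0 hw
    have hsum : ∑ p ∈ (Pr (3 * ℓ)).filter (fun p : ℕ => Real.log p ≤ w),
          2 / (p : ℝ) * Gq (Real.exp ℓ) p
        ≤ C0 * ℓ ^ 4 * (∑ p ∈ (Pr (3 * ℓ)).filter (fun p : ℕ => Real.log p ≤ w),
            2 / ((p : ℝ) - 1) * gt (Real.log p / ℓ))
          + K * ℓ ^ 3 * ∑ p ∈ (Pr (3 * ℓ)).filter (fun p : ℕ => Real.log p ≤ w),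
            2 / ((p : ℝ) - 1) := by
      rw [Finset.mul_sum, Finset.mul_sum, ← Finset.sum_add_distrib]
      refine Finset.sum_le_sum (fun p hp => ?_)
      have hp' := (Finset.mem_filter.mp hp).1
      obtain ⟨hpp, hp5, _⟩ := mem_Pr.mp hp'
      obtain ⟨q1, q2, q3⟩ := D8_two_div hp5
      calc 2 / (p : ℝ) * Gq (Real.exp ℓ) p ≤ 2 / ((p : ℝ) - 1) * Gq (Real.exp ℓ) p :=
            mul_le_mul_of_nonneg_right q2 (D8_Gq_nonneg _ _)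
        _ ≤ 2 / ((p : ℝ) - 1) * (C0 * ℓ ^ 4 * gt (Real.log p / ℓ) + K * ℓ ^ 3) :=
            mul_le_mul_of_nonneg_left (hGle p hp') q3
        _ = _ := by ring
    have hsub : ∑ p ∈ (Pr (3 * ℓ)).filter (fun p : ℕ => Real.log p ≤ w), 2 / ((p : ℝ) - 1)
        ≤ ∑ p ∈ Pr (3 * ℓ), 2 / ((p : ℝ) - 1) := by
      refine Finset.sum_le_sum_of_subset_of_nonneg (Finset.filter_subset _ _) (fun p hp _ => ?_)
      exact (D8_two_div (mem_Pr.mp hp).2.1).2.2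
    have hCl : 0 ≤ C0 * ℓ ^ 4 := by positivity
    have f1 := mul_le_mul_of_nonneg_left h9' hCl
    have f2 := mul_le_mul_of_nonneg_left (hsub.trans h7') hKl
    have f3 : (3 * w / ℓ + 0.00001) * C0 * ℓ ^ 4
        = C0 * ℓ ^ 4 * (3 * w / ℓ) + 0.00001 * C0 * ℓ ^ 4 := by ring
    rw [f3]
    linarith

end Pool.Agent.TwA
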