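import Pool.Agent.Lib.MP_d610d0_nt.AS.Stm

set_option autoImplicit false

namespace Pool.Agent.TwA

open Finset MeasureTheory
open Pool.Agent.Lib.MP_d610d0_nt

private lemma D9_gt {x : ℝ} (hx : 0 ≤ x) : gt x ≤ 1.3 * x := by
  unfold gt gq
  have h0 : 0 ≤ min x 1 := le_min hx zero_le_one
  have h1 : min x 1 ≤ 1 := min_le_right _ _
  have h2 : min x 1 ≤ x := min_le_left _ _
  generalize min x 1 = v at h0 h1 h2
  have h3 : v / 32 + 79 / 64 * v ^ 2 - 3 / 2 * v ^ 3 + v ^ 4 / 2 ≤ 1.3 * v := by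
    have h4 : 0 ≤ v * (1 - v) := mul_nonneg h0 (by linarith)
    have h5 : 0 ≤ v ^ 2 * (1 - v) := mul_nonneg (by positivity) (by linarith)
    have h6 : 0 ≤ v ^ 3 * (1 - v) := mul_nonneg (by positivity) (by linarith)
    have h7 : 0 ≤ v ^ 2 := by positivity
    have h8 : 0 ≤ v ^ 3 := by positivity
    nlinarith
  linarith

theorem p_D9 : S_D9 := by
  intro η ℓ w hℓ hw
  have h1 := aFa_le (Pr η) (fun p hp => ⟨(mem_Pr.mp hp).1, (mem_Pr.mp hp).2.1⟩) w
  have h2 : aF (Pr η) ca lg w = ∑ p ∈ (Pr η).filter (fun p : ℕ => Real.log p ≤ w), ca p := by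
    unfold aF lg
    rw [← Finset.sum_filter]
  have h3 : max 0 (2 * w - 2.02) ≤ 2 * w := max_le (by linarith) (by linarith)
  have h4 : ∑ p ∈ (Pr η).filter (fun p : ℕ => Real.log p ≤ w), ca p ≤ 2 * w := by
    rw [← h2]; exact h1.trans h3
  calc ∑ p ∈ (Pr η).filter (fun p : ℕ => Real.log p ≤ w), 2 / ((p : ℝ) - 1) * gt (Real.log p / ℓ)
      ≤ ∑ p ∈ (Pr η).filter (fun p : ℕ => Real.log p ≤ w), (1.3 / ℓ) * ca p := by
        refine Finset.sum_le_sum fun p hp => ?_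
        have h5 : 5 ≤ p := (mem_Pr.mp (Finset.mem_filter.mp hp).1).2.1
        have h6 : (5 : ℝ) ≤ p := by exact_mod_cast h5
        have h7 : 0 ≤ Real.log p := Real.log_natCast_nonneg p
        have h8 := D9_gt (div_nonneg h7 hℓ.le)
        have h9 : 0 ≤ 2 / ((p : ℝ) - 1) := div_nonneg (by norm_num) (by linarith)
        refine (mul_le_mul_of_nonneg_left h8 h9).trans (le_of_eq ?_)
        unfold ca
        ring
    _ = (1.3 / ℓ) * ∑ p ∈ (Pr η).filter (fun p : ℕ => Real.log p ≤ w), ca p := by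
        rw [Finset.mul_sum]
    _ ≤ (1.3 / ℓ) * (2 * w) := mul_le_mul_of_nonneg_left h4 (by positivity)
    _ ≤ 3 * w / ℓ := by
        have h5 : (1.3 / ℓ) * (2 * w) = 2.6 * w / ℓ := by ring
        rw [h5]
        apply div_le_div_of_nonneg_right _ hℓ.le
        linarith

end Pool.Agent.TwA
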