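import Mathlib
import Pool.Agent.Lib.MP_d610d0_nt.AS.Stm

/-!
Piece E1: the sieve inequality, pointwise.
-/

set_option autoImplicit false

namespace Pool.Agent.TwA

open Finset MeasureTheory
open Pool.Agent.Lib.MP_d610d0_nt
open scoped ArithmeticFunction.Omega

open Classical in
private lemma E1_point (R η w l B : ℝ) (t : ℕ) (hη : 0 < η) (hw : w < η)
    (hl : Real.log (F t) ≤ l) (hB : B = 7 - l / η) (hB0 : 0 ≤ B) :
    fq R η B t ≤ B * (if Good6 w t then Lq R t ^ 2 else 0)
      + B * ∑ p ∈ (Pr η).filter (fun p : ℕ => Real.log p ≤ w), indF p t * Lq R t ^ 2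
      + B * (if SqBad w t then Lq R t ^ 2 else 0) := by
  have hL : 0 ≤ Lq R t ^ 2 := sq_nonneg _
  have hind : ∀ p : ℕ, 0 ≤ indF p t := by
    intro p; unfold indF; split_ifs <;> norm_num
  have hS : 0 ≤ ∑ p ∈ Pr η, wt η p * indF p t :=
    Finset.sum_nonneg (fun p hp => mul_nonneg (wt_nonneg hη hp) (hind p))
  have hup : fq R η B t ≤ B * Lq R t ^ 2 := by
    unfold fq
    exact mul_le_mul_of_nonneg_right (by linarith) hL
  have h2 : 0 ≤ ∑ p ∈ (Pr η).filter (fun p : ℕ => Real.log p ≤ w), indF p t * Lq R t ^ 2 :=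
    Finset.sum_nonneg (fun p _ => mul_nonneg (hind p) hL)
  have h2B := mul_nonneg hB0 h2
  have h1 : 0 ≤ B * (if Good6 w t then Lq R t ^ 2 else 0) := by
    split_ifs
    · exact mul_nonneg hB0 hL
    · simp
  have h3 : 0 ≤ B * (if SqBad w t then Lq R t ^ 2 else 0) := by
    split_ifs
    · exact mul_nonneg hB0 hL
    · simp
  by_cases hsm : ∃ p : ℕ, p.Prime ∧ p ∣ F t ∧ Real.log p ≤ w
  · obtain ⟨p, hp, hd, hpw⟩ := hsm
    have hmem : p ∈ (Pr η).filter (fun p : ℕ => Real.log p ≤ w) :=
      Finset.mem_filter.mpr ⟨mem_Pr.mpr ⟨hp, five_le_of_dvd_F hp hd, lt_of_le_of_lt hpw hw⟩, hpw⟩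
    have h4 : Lq R t ^ 2
        ≤ ∑ p ∈ (Pr η).filter (fun p : ℕ => Real.log p ≤ w), indF p t * Lq R t ^ 2 := by
      refine le_trans (le_of_eq ?_) (Finset.single_le_sum
        (f := fun p : ℕ => indF p t * Lq R t ^ 2)
        (fun q _ => mul_nonneg (hind q) hL) hmem)
      simp [indF, hd]
    have h5 := mul_le_mul_of_nonneg_left h4 hB0
    linarith
  · push Not at hsm
    by_cases hsq : SqBad w t
    · rw [if_pos hsq]
      linarith
    · by_cases hom : Ω (F t) ≤ 6
      · have hg : Good6 w t := ⟨hom, fun p hp hd => hsm p hp hd⟩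
        rw [if_pos hg]
        linarith
      · push Not at hom
        have h6 := weight_lower (k := 6) (B := B) hη hl (by rw [hB]; norm_num) hom
        have h7 : ∑ p ∈ Pr η, wt η p * ((F t).factorization p : ℝ)
            = ∑ p ∈ Pr η, wt η p * indF p t := by
          refine Finset.sum_congr rfl (fun p hp => ?_)
          congr 1
          have hpp := (mem_Pr.mp hp).1
          unfold indF
          by_cases hd : p ∣ F t
          · rw [if_pos hd]
            have h8 : ¬ p ^ 2 ∣ F t := fun h => hsq ⟨p, hpp, hsm p hpp hd, h⟩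
            rw [Nat.Prime.pow_dvd_iff_le_factorization hpp (F_ne_zero t)] at h8
            have h9 : 1 ≤ (F t).factorization p :=
              (Nat.Prime.dvd_iff_one_le_factorization hpp (F_ne_zero t)).mp hd
            have h10 : (F t).factorization p = 1 := by omega
            rw [h10]; norm_num
          · rw [if_neg hd, Nat.factorization_eq_zero_of_not_dvd hd]; norm_num
        rw [h7] at h6
        have h8 : fq R η B t ≤ 0 := by
          unfold fq
          exact mul_nonpos_of_nonpos_of_nonneg (by linarith) hL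
        linarith

theorem p_E1 : S_E1 := by
  classical
  intro R η w l B T hη hw hT hB hB0
  have h := Finset.sum_le_sum (fun t ht => E1_point R η w l B t hη hw (hT t ht) hB hB0)
  refine h.trans (le_of_eq ?_)
  rw [Finset.sum_add_distrib, Finset.sum_add_distrib, ← Finset.mul_sum, ← Finset.mul_sum,
    ← Finset.mul_sum]
  have e1 : ∑ t ∈ T, (if Good6 w t then Lq R t ^ 2 else 0)
      = ∑ t ∈ T.filter (Good6 w), Lq R t ^ 2 := (Finset.sum_filter _ _).symm
  have e3 : ∑ t ∈ T, (if SqBad w t then Lq R t ^ 2 else 0)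
      = ∑ t ∈ T.filter (SqBad w), Lq R t ^ 2 := (Finset.sum_filter _ _).symm
  have e2 : ∑ t ∈ T, ∑ p ∈ (Pr η).filter (fun p : ℕ => Real.log p ≤ w), indF p t * Lq R t ^ 2
      = ∑ p ∈ (Pr η).filter (fun p : ℕ => Real.log p ≤ w), ∑ t ∈ T, indF p t * Lq R t ^ 2 :=
    Finset.sum_comm
  rw [e1, e2, e3]


end Pool.Agent.TwA
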