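import Mathlib
import Pool.Agent.Lib.MP_d610d0_nt.AS.Stm

set_option autoImplicit false

namespace Pool.Agent.TwA

open Finset MeasureTheory
open Pool.Agent.Lib.MP_d610d0_nt

private lemma E2_cnt (m c s L : ℕ) (hm : 0 < m) (hc : Nat.Coprime m 6) :
    (((Ico s (s + L)).filter (fun t => m ∣ 6 * t + c)).card : ℝ) ≤ (L : ℝ) / m + 1 := by
  rcases Finset.eq_empty_or_nonempty ((Ico s (s + L)).filter (fun t => m ∣ 6 * t + c)) with h | h
  · rw [h]
    simp only [card_empty, Nat.cast_zero]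
    positivity
  · obtain ⟨t0, ht0⟩ := h
    have ht0' := (Finset.mem_filter.1 ht0).2
    have hsub : (Ico s (s + L)).filter (fun t => m ∣ 6 * t + c) ⊆
        (Ico s (s + L)).filter (fun t => t ≡ t0 [MOD m]) := by
      intro t ht
      rw [Finset.mem_filter] at ht ⊢
      refine ⟨ht.1, ?_⟩
      have h1 : 6 * t + c ≡ 6 * t0 + c [MOD m] :=
        ((Nat.modEq_zero_iff_dvd.2 ht.2)).trans ((Nat.modEq_zero_iff_dvd.2 ht0').symm)
      have h2 : 6 * t ≡ 6 * t0 [MOD m] := Nat.ModEq.add_right_cancel' c h1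
      exact Nat.ModEq.cancel_left_of_coprime hc h2
    have h3 : (((Ico s (s + L)).filter (fun t => m ∣ 6 * t + c)).card : ℝ) ≤
        (((Ico s (s + L)).filter (fun t => t ≡ t0 [MOD m])).card : ℝ) := by
      exact_mod_cast Finset.card_le_card hsub
    refine h3.trans ?_
    have h4 := Nat.Ico_filter_modEq_card s (s + L) hm t0
    have h5 : (((Ico s (s + L)).filter (fun t => t ≡ t0 [MOD m])).card : ℚ) ≤ (L : ℚ) / m + 1 := by
      have h6 : (((Ico s (s + L)).filter (fun t => t ≡ t0 [MOD m])).card : ℚ) =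
          (((((Ico s (s + L)).filter (fun t => t ≡ t0 [MOD m])).card : ℤ)) : ℚ) := by norm_cast
      rw [h6, h4]
      have hmQ : (0 : ℚ) < m := by exact_mod_cast hm
      push_cast
      apply max_le
      · have h7 := Int.ceil_lt_add_one (((s : ℚ) + L - t0) / m)
        have h8 := Int.le_ceil (((s : ℚ) - t0) / m)
        have h9 : ((s : ℚ) + L - t0) / m = ((s : ℚ) - t0) / m + L / m := by
          field_simp
          ring
        linarith
      · positivity
    have h6 := (Rat.cast_le (K := ℝ)).2 h5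
    push_cast at h6
    exact h6

open Classical in
theorem p_E2 : S_E2 := by
  intro w s L hw
  set X : ℕ := 6 * (s + L) + 7 with hX
  set N : ℕ := Nat.sqrt X with hN
  set a : ℕ := ⌊Real.exp w⌋₊ with ha
  have hexp1 : 1 ≤ Real.exp w := Real.one_le_exp hw
  have ha1 : 1 ≤ a := by
    rw [ha]; exact (Nat.one_le_floor_iff _).2 hexp1
  have ha1' : (1 : ℝ) ≤ a := by exact_mod_cast ha1
  have ha2 : Real.exp w ≤ 2 * a := by
    have := Nat.lt_floor_add_one (Real.exp w)
    rw [← ha] at this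
    linarith
  -- the set of primes
  set P : Finset ℕ := (Ioc a N).filter (fun p => p.Prime ∧ Nat.Coprime p 6) with hP
  have hsub : (Ico s (s + L)).filter (SqBad w) ⊆ P.biUnion (fun p =>
      (Ico s (s + L)).filter (fun t => p ^ 2 ∣ 6 * t + 5) ∪
      (Ico s (s + L)).filter (fun t => p ^ 2 ∣ 6 * t + 7)) := by
    intro t ht
    rw [Finset.mem_filter] at ht
    obtain ⟨htI, p, hp, hwp, hdvd⟩ := ht
    have hF : F t = (6 * t + 5) * (6 * t + 7) := rfl
    rw [hF] at hdvd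
    have hp1 : p ∣ (6 * t + 5) * (6 * t + 7) := (dvd_pow_self p two_ne_zero).trans hdvd
    have hcop : Nat.Coprime p 6 := by
      rw [hp.coprime_iff_not_dvd]
      intro h6
      rcases hp.dvd_mul.1 hp1 with h | h
      · have h5 : p ∣ 5 := (Nat.dvd_add_right (h6.mul_right t)).1 h
        have : p ∣ 6 - 5 := Nat.dvd_sub h6 h5
        exact hp.one_lt.ne' (Nat.dvd_one.1 this)
      · have h7 : p ∣ 7 := (Nat.dvd_add_right (h6.mul_right t)).1 h
        have : p ∣ 7 - 6 := Nat.dvd_sub h7 h6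
        exact hp.one_lt.ne' (Nat.dvd_one.1 this)
    have hsplit : p ^ 2 ∣ 6 * t + 5 ∨ p ^ 2 ∣ 6 * t + 7 := by
      by_cases h : p ∣ 6 * t + 5
      · left
        have h' : ¬ p ∣ 6 * t + 7 := by
          intro h7
          have h8 : p ∣ (6 * t + 7) - (6 * t + 5) := Nat.dvd_sub h7 h
          have h9 : (6 * t + 7) - (6 * t + 5) = 2 := by omega
          rw [h9] at h8
          have h10 : p ∣ 6 := h8.trans ⟨3, rfl⟩
          exact (hp.coprime_iff_not_dvd.1 hcop) h10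
        have h2 : Nat.Coprime (p ^ 2) (6 * t + 7) :=
          Nat.Coprime.pow_left 2 ((hp.coprime_iff_not_dvd).2 h')
        exact h2.dvd_of_dvd_mul_right hdvd
      · right
        have h2 : Nat.Coprime (p ^ 2) (6 * t + 5) :=
          Nat.Coprime.pow_left 2 ((hp.coprime_iff_not_dvd).2 h)
        exact h2.dvd_of_dvd_mul_left hdvd
    have htlt : t < s + L := (Finset.mem_Ico.1 htI).2
    have hle : p ^ 2 ≤ X := by
      rcases hsplit with h | h
      · have := Nat.le_of_dvd (by omega) h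
        omega
      · have := Nat.le_of_dvd (by omega) h
        omega
    have hpN : p ≤ N := by rw [hN]; exact Nat.le_sqrt'.2 hle
    have hap : a < p := by
      rw [ha, Nat.floor_lt (Real.exp_pos w).le]
      exact (Real.lt_log_iff_exp_lt (by exact_mod_cast hp.pos)).1 hwp
    rw [Finset.mem_biUnion]
    refine ⟨p, ?_, ?_⟩
    · rw [hP, Finset.mem_filter, Finset.mem_Ioc]
      exact ⟨⟨hap, hpN⟩, hp, hcop⟩
    · rw [Finset.mem_union, Finset.mem_filter, Finset.mem_filter]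
      rcases hsplit with h | h
      · exact Or.inl ⟨htI, h⟩
      · exact Or.inr ⟨htI, h⟩
  have h1 : (((Ico s (s + L)).filter (SqBad w)).card : ℝ) ≤
      ∑ p ∈ P, 2 * ((L : ℝ) * ((p : ℝ) ^ 2)⁻¹ + 1) := by
    have h2 : ((Ico s (s + L)).filter (SqBad w)).card ≤ ∑ p ∈ P,
        (((Ico s (s + L)).filter (fun t => p ^ 2 ∣ 6 * t + 5)).card +
        ((Ico s (s + L)).filter (fun t => p ^ 2 ∣ 6 * t + 7)).card) := by
      refine (Finset.card_le_card hsub).trans (Finset.card_biUnion_le.trans ?_)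
      exact Finset.sum_le_sum fun p _ => Finset.card_union_le _ _
    have h3 : (((Ico s (s + L)).filter (SqBad w)).card : ℝ) ≤ ∑ p ∈ P,
        ((((Ico s (s + L)).filter (fun t => p ^ 2 ∣ 6 * t + 5)).card : ℝ) +
        (((Ico s (s + L)).filter (fun t => p ^ 2 ∣ 6 * t + 7)).card : ℝ)) := by
      exact_mod_cast h2
    refine h3.trans (Finset.sum_le_sum fun p hp => ?_)
    rw [hP, Finset.mem_filter] at hp
    have hc : Nat.Coprime (p ^ 2) 6 := Nat.Coprime.pow_left 2 hp.2.2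
    have hpos : 0 < p ^ 2 := pow_pos hp.2.1.pos 2
    have h4 := E2_cnt (p ^ 2) 5 s L hpos hc
    have h5 := E2_cnt (p ^ 2) 7 s L hpos hc
    push_cast at h4 h5
    rw [div_eq_mul_inv] at h4 h5
    linarith
  have h2 : ∑ p ∈ P, 2 * ((L : ℝ) * ((p : ℝ) ^ 2)⁻¹ + 1) ≤
      ∑ p ∈ Ioc a N, 2 * ((L : ℝ) * ((p : ℝ) ^ 2)⁻¹ + 1) := by
    refine Finset.sum_le_sum_of_subset_of_nonneg (Finset.filter_subset _ _) ?_
    intro p _ _
    positivity
  have h3 : ∑ p ∈ Ioc a N, 2 * ((L : ℝ) * ((p : ℝ) ^ 2)⁻¹ + 1) =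
      2 * L * (∑ p ∈ Ioc a N, ((p : ℝ) ^ 2)⁻¹) + 2 * ((Ioc a N).card : ℝ) := by
    rw [← Finset.mul_sum, Finset.sum_add_distrib, ← Finset.mul_sum]
    simp only [Finset.sum_const, nsmul_eq_mul, mul_one]
    ring
  have h4 : ∑ p ∈ Ioc a N, ((p : ℝ) ^ 2)⁻¹ ≤ 2 * Real.exp (-w) := by
    have h5 : ∑ p ∈ Ioc a N, ((p : ℝ) ^ 2)⁻¹ ≤ (a : ℝ)⁻¹ := by
      rcases le_or_gt a N with h | h
      · have h6 := sum_Ioc_inv_sq_le_sub (α := ℝ) (by omega : a ≠ 0) h
        have h7 : (0 : ℝ) ≤ (N : ℝ)⁻¹ := by positivity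
        linarith
      · rw [Finset.Ioc_eq_empty (by omega)]
        simp
    have h6 : (a : ℝ)⁻¹ ≤ 2 * Real.exp (-w) := by
      rw [Real.exp_neg, inv_eq_one_div, inv_eq_one_div, mul_one_div,
        div_le_div_iff₀ (by linarith) (Real.exp_pos w)]
      linarith
    exact h5.trans h6
  have h5 : ((Ioc a N).card : ℝ) ≤ Real.sqrt (6 * ((s : ℝ) + L) + 7) := by
    have h6 : ((Ioc a N).card : ℝ) ≤ (N : ℝ) := by
      rw [Nat.card_Ioc]
      exact_mod_cast Nat.sub_le _ _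
    have h7 : (N : ℝ) ≤ Real.sqrt (X : ℝ) := by
      rw [hN]; exact Real.nat_sqrt_le_real_sqrt
    have h8 : (X : ℝ) = 6 * ((s : ℝ) + L) + 7 := by rw [hX]; push_cast; ring
    rw [h8] at h7
    exact h6.trans h7
  have h6 : 2 * (L : ℝ) * (∑ p ∈ Ioc a N, ((p : ℝ) ^ 2)⁻¹) ≤ 2 * L * (2 * Real.exp (-w)) :=
    mul_le_mul_of_nonneg_left h4 (by positivity)
  have h7 : 0 ≤ Real.sqrt (6 * ((s : ℝ) + L) + 7) := Real.sqrt_nonneg _
  calc (((Ico s (s + L)).filter (SqBad w)).card : ℝ)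
      ≤ 2 * L * (∑ p ∈ Ioc a N, ((p : ℝ) ^ 2)⁻¹) + 2 * ((Ioc a N).card : ℝ) := by
        rw [← h3]; exact h1.trans h2
    _ ≤ 4 * L * Real.exp (-w) + 4 * Real.sqrt (6 * ((s : ℝ) + L) + 7) := by linarith

end Pool.Agent.TwA
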