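import Mathlib
import Pool.Agent.Lib.MP_d610d0_nt.AS.Stm

/-!
Piece E4: small primes in a window.
-/

set_option autoImplicit false

namespace Pool.Agent.TwA

open Finset MeasureTheory
open Pool.Agent.Lib.MP_d610d0_nt

private lemma E4_Gn_le (R : ℝ) (p : ℕ) : Gn R p ≤ Gq R p := by
  unfold Gn Gq
  refine Finset.sum_le_sum_of_subset_of_nonneg (Finset.filter_subset _ _) fun r hr _ => ?_
  exact mul_nonneg (hR_pos (good_of_mem_SR hr)).le (sq_nonneg _)

theorem p_E4 (hC3 : S_C3) : S_E4 := by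
  intro R η w s L hR hw
  set P := (Pr η).filter (fun p : ℕ => Real.log p ≤ w) with hP
  have hmem : ∀ p ∈ P, p.Prime ∧ 5 ≤ p ∧ Real.log p ≤ w := by
    intro p hp
    rw [hP, Finset.mem_filter, mem_Pr] at hp
    exact ⟨hp.1.1, hp.1.2.1, hp.2⟩
  have hterm : ∀ p ∈ P, ∑ t ∈ Ico s (s + L), indF p t * Lq R t ^ 2 ≤
      L * (2 / (p : ℝ) * Gq R p) + 2 * Zq R ^ 2 := by
    intro p hp
    obtain ⟨hp1, hp5, _⟩ := hmem p hp
    have h := (abs_le.1 (hC3 R hR p hp1 hp5 s L)).2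
    have h2 : (L : ℝ) * (2 / (p : ℝ) * Gn R p) ≤ L * (2 / (p : ℝ) * Gq R p) := by
      refine mul_le_mul_of_nonneg_left ?_ (Nat.cast_nonneg L)
      exact mul_le_mul_of_nonneg_left (E4_Gn_le R p) (by positivity)
    linarith
  have hcard : (P.card : ℝ) ≤ Real.exp w := by
    have hsub : P ⊆ Icc 1 ⌊Real.exp w⌋₊ := by
      intro p hp
      obtain ⟨hp1, hp5, hlog⟩ := hmem p hp
      rw [Finset.mem_Icc]
      refine ⟨by omega, Nat.le_floor ?_⟩
      have hpos : (0 : ℝ) < p := by exact_mod_cast (by omega : 0 < p)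
      rw [← Real.exp_log hpos]
      exact Real.exp_le_exp.2 hlog
    have h1 := Finset.card_le_card hsub
    rw [Nat.card_Icc, Nat.add_sub_cancel] at h1
    calc (P.card : ℝ) ≤ (⌊Real.exp w⌋₊ : ℝ) := by exact_mod_cast h1
      _ ≤ Real.exp w := Nat.floor_le (Real.exp_pos w).le
  calc ∑ p ∈ P, ∑ t ∈ Ico s (s + L), indF p t * Lq R t ^ 2
      ≤ ∑ p ∈ P, (L * (2 / (p : ℝ) * Gq R p) + 2 * Zq R ^ 2) := Finset.sum_le_sum hterm
    _ = L * ∑ p ∈ P, 2 / (p : ℝ) * Gq R p + P.card * (2 * Zq R ^ 2) := by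
        rw [Finset.sum_add_distrib, ← Finset.mul_sum, Finset.sum_const, nsmul_eq_mul]
    _ ≤ L * ∑ p ∈ P, 2 / (p : ℝ) * Gq R p + Real.exp w * (2 * Zq R ^ 2) := by
        have : (P.card : ℝ) * (2 * Zq R ^ 2) ≤ Real.exp w * (2 * Zq R ^ 2) :=
          mul_le_mul_of_nonneg_right hcard (by positivity)
        linarith

end Pool.Agent.TwA
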