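import Mathlib
import Pool.Agent.Lib.MP_d610d0_nt.AS.Stm

set_option autoImplicit false

namespace Pool.Agent.TwA

open Finset MeasureTheory
open Pool.Agent.Lib.MP_d610d0_nt

theorem p_E5 : S_E5 := by
  intro R hR1
  have hRp : 0 < R := by linarith
  have hl : 0 ≤ Real.log R := Real.log_nonneg hR1
  have h1 : Zq R ≤ ∑ r ∈ SR R, 9 / 8 * Real.log R * R * WQ (Pab 4 ⌊R⌋₊) r := by
    unfold Zq
    refine Finset.sum_le_sum (fun r hr => ?_)
    have hg := good_of_mem_SR hr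
    have hr0 : (0 : ℝ) < r := by exact_mod_cast hg.pos
    have hr1 : (1 : ℝ) ≤ r := by exact_mod_cast hg.pos
    have hle : r ≤ ⌊R⌋₊ := (Finset.mem_Icc.mp (Finset.mem_filter.mp hr).1).2
    have hleR : (r : ℝ) ≤ R := ((mem_SR hRp.le).mp hr).2
    rw [← WR_div_eq hg hle]
    have h2 : Yq R r ≤ 9 / 8 * Real.log R := by
      unfold Yq
      rw [if_pos hleR]
      have : Real.log (R / r) ≤ Real.log R := by
        apply Real.log_le_log (by positivity)
        exact div_le_self hRp.le hr1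
      linarith
    have hW := (WR_pos hg).le
    have h3 : WR r ≤ R * (WR r / r) := by
      rw [← mul_div_assoc, le_div_iff₀ hr0]
      nlinarith
    calc Yq R r * WR r ≤ 9 / 8 * Real.log R * WR r := mul_le_mul_of_nonneg_right h2 hW
      _ ≤ 9 / 8 * Real.log R * (R * (WR r / r)) := mul_le_mul_of_nonneg_left h3 (by positivity)
      _ = _ := by ring
  rw [← Finset.mul_sum] at h1
  have hQ : ∀ q ∈ Pab 4 ⌊R⌋₊, q.Prime ∧ 5 ≤ q := by
    intro q hq
    obtain ⟨h1, _, h2⟩ := mem_Pab.mp hq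
    exact ⟨h2, by omega⟩
  have h2 := sum_WQ hRp (Pab 4 ⌊R⌋₊) hQ
  have h3 : ∏ q ∈ Pab 4 ⌊R⌋₊, (1 + hp q / q) ≤ Real.exp (1 / 3) := by
    calc ∏ q ∈ Pab 4 ⌊R⌋₊, (1 + hp q / q) ≤ ∏ q ∈ Pab 4 ⌊R⌋₊, Real.exp (hp q / q) := by
          apply Finset.prod_le_prod
          · intro q hq
            have := (hp_pos (hQ q hq).2).le
            positivity
          · intro q hq
            have := Real.add_one_le_exp (hp q / q)
            linarith
      _ = Real.exp (∑ q ∈ Pab 4 ⌊R⌋₊, hp q / q) := (Real.exp_sum _ _).symm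
      _ ≤ _ := Real.exp_le_exp.mpr (sum_hp_div _)
  have h4 : ∑ r ∈ SR R, WQ (Pab 4 ⌊R⌋₊) r ≤ Real.exp (1 / 3) * M R 0 :=
    h2.trans (mul_le_mul_of_nonneg_right h3 (M_nonneg R 0))
  have h5 : Real.exp (1 / 3) ≤ 16 / 9 := by
    have h6 : Real.exp (1 / 3) ^ 3 ≤ (16 / 9) ^ 3 := by
      rw [← Real.exp_nat_mul]
      have := Real.exp_one_lt_d9
      norm_num
      linarith
    exact le_of_pow_le_pow_left₀ (by norm_num) (by norm_num) h6
  have hM := M_nonneg R 0
  calc Zq R ≤ 9 / 8 * Real.log R * R * ∑ r ∈ SR R, WQ (Pab 4 ⌊R⌋₊) r := h1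
    _ ≤ 9 / 8 * Real.log R * R * (16 / 9 * M R 0) := by
        apply mul_le_mul_of_nonneg_left _ (by positivity)
        exact h4.trans (mul_le_mul_of_nonneg_right h5 hM)
    _ = _ := by ring

end Pool.Agent.TwA
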