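import Mathlib
import Pool.Agent.Lib.MP_d610d0_nt.AS.Stm

/-!
Elementary asymptotics.
-/

set_option autoImplicit false

namespace Pool.Agent.TwA

open Finset Filter

lemma F0_ev (K : ℝ) (k : ℕ) {δ : ℝ} (hδ : 0 < δ) :
    ∃ N0 : ℕ, 1 ≤ N0 ∧ ∀ N : ℕ, N0 ≤ N → K * (1 + Real.log N) ^ k ≤ (N : ℝ) ^ δ := by
  set ε : ℝ := δ / (2 * (k + 1)) with hε
  have hε0 : 0 < ε := by positivity
  have h1 : Tendsto (fun N : ℕ => (N : ℝ) ^ (δ / 2)) atTop atTop :=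
    (tendsto_rpow_atTop (by positivity)).comp tendsto_natCast_atTop_atTop
  obtain ⟨N1, hN1⟩ := (tendsto_atTop_atTop.mp h1) (|K| * (1 + 1 / ε) ^ k)
  refine ⟨max N1 1, le_max_right _ _, fun N hN => ?_⟩
  have hN1' : N1 ≤ N := (le_max_left _ _).trans hN
  have hN1'' : 1 ≤ N := (le_max_right _ _).trans hN
  have hNr : (1 : ℝ) ≤ N := by exact_mod_cast hN1''
  have hN0 : (0 : ℝ) < N := by linarith
  have h2 := hN1 N hN1'
  have hl : Real.log N ≤ (N : ℝ) ^ ε / ε := Real.log_le_rpow_div hN0.le hε0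
  have hl0 : 0 ≤ Real.log N := Real.log_nonneg hNr
  have h3 : 1 + Real.log N ≤ (1 + 1 / ε) * (N : ℝ) ^ ε := by
    have : (1 : ℝ) ≤ (N : ℝ) ^ ε := Real.one_le_rpow hNr hε0.le
    have e : (1 + 1 / ε) * (N : ℝ) ^ ε = (N : ℝ) ^ ε + (N : ℝ) ^ ε / ε := by ring
    rw [e]; linarith
  have h4 : (1 + Real.log N) ^ k ≤ (1 + 1 / ε) ^ k * (N : ℝ) ^ (δ / 2) := by
    calc (1 + Real.log N) ^ k ≤ ((1 + 1 / ε) * (N : ℝ) ^ ε) ^ k :=
          pow_le_pow_left₀ (by linarith) h3 k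
      _ = (1 + 1 / ε) ^ k * (N : ℝ) ^ (ε * k) := by
          rw [mul_pow, ← Real.rpow_natCast ((N : ℝ) ^ ε) k, ← Real.rpow_mul hN0.le]
      _ ≤ (1 + 1 / ε) ^ k * (N : ℝ) ^ (δ / 2) := by
          apply mul_le_mul_of_nonneg_left _ (by positivity)
          apply Real.rpow_le_rpow_of_exponent_le hNr
          rw [hε]
          rw [div_mul_eq_mul_div, div_le_div_iff₀ (by positivity) (by norm_num)]
          nlinarith
  have hpos : 0 ≤ (1 + Real.log N) ^ k := by positivity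
  calc K * (1 + Real.log N) ^ k ≤ |K| * (1 + Real.log N) ^ k :=
        mul_le_mul_of_nonneg_right (le_abs_self K) hpos
    _ ≤ |K| * ((1 + 1 / ε) ^ k * (N : ℝ) ^ (δ / 2)) :=
        mul_le_mul_of_nonneg_left h4 (abs_nonneg K)
    _ = (|K| * (1 + 1 / ε) ^ k) * (N : ℝ) ^ (δ / 2) := by ring
    _ ≤ (N : ℝ) ^ (δ / 2) * (N : ℝ) ^ (δ / 2) :=
        mul_le_mul_of_nonneg_right h2 (by positivity)
    _ = (N : ℝ) ^ δ := by rw [← Real.rpow_add hN0]; ring_nf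

/-- `K (1 + log N)^k N^a ≤ N^b` for large `N` if `a < b`. -/
lemma F0_ev2 (K : ℝ) (k : ℕ) {a b : ℝ} (hab : a < b) :
    ∃ N0 : ℕ, 1 ≤ N0 ∧ ∀ N : ℕ, N0 ≤ N →
      K * (1 + Real.log N) ^ k * (N : ℝ) ^ a ≤ (N : ℝ) ^ b := by
  obtain ⟨N0, h0, h⟩ := F0_ev K k (sub_pos.mpr hab)
  refine ⟨N0, h0, fun N hN => ?_⟩
  have hNr : (0 : ℝ) < N := by
    have : 1 ≤ N := h0.trans hN
    exact_mod_cast this
  calc K * (1 + Real.log N) ^ k * (N : ℝ) ^ a ≤ (N : ℝ) ^ (b - a) * (N : ℝ) ^ a :=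
        mul_le_mul_of_nonneg_right (h N hN) (by positivity)
    _ = (N : ℝ) ^ b := by rw [← Real.rpow_add hNr]; ring_nf

end Pool.Agent.TwA
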