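import Mathlib
import Pool.Agent.Lib.MP_d610d0_nt.AS.Stm
import Pool.Agent.Lib.MP_d610d0_nt.AS.P.F0
import Pool.Agent.Lib.MP_1e1427_nt.DivBound

/-!
Parameters, and the number of good `t` in a window.
-/

set_option autoImplicit false

namespace Pool.Agent.TwA

open Finset Filter
open Pool.Agent.Lib.MP_d610d0_nt
open scoped ArithmeticFunction.Omega

/-- `log R = el N`. -/
noncomputable def el (N : ℕ) : ℝ := 899 / 2000 * Real.log N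
noncomputable def Bn (N : ℕ) : ℝ := 7 - 6 * Real.log (2 * N) / (3 * el N)
noncomputable def wn (N : ℕ) : ℝ := el N / 30000

lemma F1_div : ∃ C : ℝ, 1 ≤ C ∧ ∀ N : ℕ, 1 ≤ N → ∀ n : ℕ, (n : ℝ) ≤ (N : ℝ) ^ (12 : ℕ) →
    ((n.divisors.card : ℕ) : ℝ) ≤ C * (N : ℝ) ^ (1 / 10000000 : ℝ) := by
  obtain ⟨C, hC, h⟩ := Pool.Agent.Lib.MP1e1427.exists_card_divisors_le 120000000 (by norm_num)
  refine ⟨C, hC, fun N hN n hn => ?_⟩
  have hNr : (1 : ℝ) ≤ N := by exact_mod_cast hN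
  apply h _ (Real.one_le_rpow hNr (by norm_num)) n
  rw [← Real.rpow_natCast ((N : ℝ) ^ (1 / 10000000 : ℝ)), ← Real.rpow_mul (by linarith)]
  refine hn.trans (le_of_eq ?_)
  rw [← Real.rpow_natCast]
  congr 1
  norm_num

lemma F1_log {N : ℕ} (h : 300000 ≤ Real.log N) : 4 ≤ N ∧ 1 ≤ el N ∧ el N ≤ Real.log N ∧
    2.5506 ≤ Bn N ∧ Bn N ≤ 3 ∧ 0 < wn N ∧ wn N < 3 * el N ∧ 5 ≤ Real.exp (el N) := by
  have hN0 : N ≠ 0 := by
    rintro rfl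
    norm_num at h
  have hNr : (0 : ℝ) < N := by positivity
  have he : el N = 899 / 2000 * Real.log N := rfl
  have h1 : 1 ≤ el N := by rw [he]; linarith
  have h4 : 4 ≤ N := by
    have : (4 : ℝ) ≤ N := by
      have h5 := Real.add_one_le_exp (Real.log N)
      rw [Real.exp_log hNr] at h5
      linarith
    exact_mod_cast this
  have hlog2 : Real.log (2 * N) = Real.log 2 + Real.log N :=
    Real.log_mul (by norm_num) hNr.ne'
  have l2 := Real.log_two_gt_d9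
  have l2' := Real.log_two_lt_d9
  refine ⟨h4, h1, by rw [he]; linarith, ?_, ?_, ?_, ?_, ?_⟩
  · unfold Bn
    rw [hlog2, he]
    have : 6 * (Real.log 2 + Real.log N) / (3 * (899 / 2000 * Real.log N)) ≤ 4.4494 := by
      rw [div_le_iff₀ (by positivity)]
      nlinarith
    linarith
  · unfold Bn
    rw [hlog2, he]
    have : 4 ≤ 6 * (Real.log 2 + Real.log N) / (3 * (899 / 2000 * Real.log N)) := by
      rw [le_div_iff₀ (by positivity)]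
      nlinarith
    linarith
  · unfold wn; positivity
  · unfold wn; linarith
  · have := Real.add_one_le_exp (el N)
    have h6 : 4 ≤ el N := by rw [he]; linarith
    linarith

lemma F1_exp {N : ℕ} (hN : 1 ≤ N) (a : ℝ) :
    Real.exp (a * el N) = (N : ℝ) ^ (a * (899 / 2000)) := by
  have hNr : (0 : ℝ) < N := by exact_mod_cast hN
  rw [Real.rpow_def_of_pos hNr]
  congr 1
  unfold el
  ring

lemma F1_L {N : ℕ} (hN : 4 ≤ N) : (N : ℝ) ^ 2 / 16 ≤ ((N ^ 2 / 8 : ℕ) : ℝ) ∧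
    ((N ^ 2 / 8 : ℕ) : ℝ) ≤ (N : ℝ) ^ 2 := by
  constructor
  · have h1 : N ^ 2 < (N ^ 2 / 8 + 1) * 8 := by omega
    have h2 : ((N : ℝ)) ^ 2 < (((N ^ 2 / 8 : ℕ) : ℝ) + 1) * 8 := by exact_mod_cast h1
    have h3 : (16 : ℝ) ≤ (N : ℝ) ^ 2 := by
      have : 4 ^ 2 ≤ N ^ 2 := Nat.pow_le_pow_left hN 2
      exact_mod_cast this
    linarith
  · have h1 : N ^ 2 / 8 ≤ N ^ 2 := Nat.div_le_self _ _
    exact_mod_cast h1

open Classical in
/-- many good `t` in a window with a large weighted sum. -/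
theorem F1_main (hE1 : S_E1) (hE2 : S_E2) (hE3 : S_E3) (hE4 : S_E4) (hE5 : S_E5)
    {C0 ℓ0 : ℝ} (hC0 : 0 < C0)
    (h8 : ∀ ℓ : ℝ, ℓ0 ≤ ℓ → ∀ w : ℝ, 0 ≤ w →
      ∑ p ∈ (Pr (3 * ℓ)).filter (fun p : ℕ => Real.log p ≤ w),
      2 / (p : ℝ) * Gq (Real.exp ℓ) p ≤ (3 * w / ℓ + 0.00001) * C0 * ℓ ^ 4) :
    ∃ c3 : ℝ, 0 < c3 ∧ ∃ N0 : ℕ, 1 ≤ N0 ∧ ∀ N : ℕ, N0 ≤ N → ∀ s : ℕ,
      (∀ t ∈ Ico s (s + N ^ 2 / 8), F t ≤ (2 * N) ^ 6) → s + N ^ 2 / 8 ≤ 2 * N ^ 3 →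
      0.0015 * C0 * el N ^ 4 * ((N ^ 2 / 8 : ℕ) : ℝ)
        ≤ ∑ t ∈ Ico s (s + N ^ 2 / 8), fq (Real.exp (el N)) (3 * el N) (Bn N) t →
      c3 * (N : ℝ) ^ 2 / (Real.log N) ^ 2
        ≤ (((Ico s (s + N ^ 2 / 8)).filter (Good6 (wn N))).card : ℝ) := by
  obtain ⟨Cd, hCd, hdiv⟩ := F1_div
  -- thresholds
  obtain ⟨n1, -, hn1⟩ := F0_ev (8 * 16 * 100000 / C0) 2 (δ := 1.1) (by norm_num)
  obtain ⟨n2, -, hn2⟩ := F0_ev (16 * Cd ^ 4 * 200000 / C0) 2 (δ := 0.00001) (by norm_num)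
  obtain ⟨n3, -, hn3⟩ := F0_ev (64 * 16 * Cd ^ 4 * 200000 / C0) 2 (δ := 0.4) (by norm_num)
  obtain ⟨n4, hn4⟩ := exists_nat_ge (Real.exp 300000)
  obtain ⟨n5, hn5⟩ := exists_nat_ge (Real.exp (3 * |ℓ0|))
  refine ⟨0.0003 * C0 / (16 * 49000000), by positivity,
    max 1 (max n1 (max n2 (max n3 (max n4 n5)))), le_max_left _ _, fun N hN s hF hs hsum => ?_⟩
  have hNn1 : n1 ≤ N := by omega
  have hNn2 : n2 ≤ N := by omega
  have hNn3 : n3 ≤ N := by omega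
  have hNn4 : n4 ≤ N := by omega
  have hNn5 : n5 ≤ N := by omega
  have hN1 : 1 ≤ N := by omega
  have hNr : (0 : ℝ) < N := by exact_mod_cast hN1
  have hNr1 : (1 : ℝ) ≤ N := by exact_mod_cast hN1
  have hlog : 300000 ≤ Real.log N := by
    rw [Real.le_log_iff_exp_le hNr]
    exact hn4.trans (by exact_mod_cast hNn4)
  have hlog5 : 3 * |ℓ0| ≤ Real.log N := by
    rw [Real.le_log_iff_exp_le hNr]
    exact hn5.trans (by exact_mod_cast hNn5)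
  obtain ⟨hN4, hl1, hlN, hB1, hB2, hw0, hwη, hR5⟩ := F1_log hlog
  set ℓ := el N with hℓ
  have hℓ0 : ℓ0 ≤ ℓ := by
    have : ℓ = 899 / 2000 * Real.log N := rfl
    have h2 := le_abs_self ℓ0
    have h3 := abs_nonneg ℓ0
    rw [this]; linarith
  have hℓp : 0 < ℓ := by linarith
  obtain ⟨hL1, hL2⟩ := F1_L hN4
  set L : ℕ := N ^ 2 / 8 with hL
  set R := Real.exp ℓ with hR
  set w := wn N with hw
  have hlogR : Real.log R = ℓ := by rw [hR, Real.log_exp]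
  have hR1 : 1 ≤ R := by linarith
  have hM0 : M R 0 ≤ ℓ ^ 2 := by
    have h1 := M0_le hR5
    rw [hlogR] at h1
    nlinarith [sq_nonneg ℓ]
  have hM00 : 0 ≤ M R 0 := M_nonneg R 0
  -- `log (F t) ≤ 6 log (2 N)`
  have hlogF : ∀ t ∈ Ico s (s + L), Real.log (F t) ≤ 6 * Real.log (2 * N) := by
    intro t ht
    have h1 : ((F t : ℕ) : ℝ) ≤ (2 * (N : ℝ)) ^ 6 := by exact_mod_cast hF t ht
    have h2 : (0 : ℝ) < F t := by exact_mod_cast F_pos t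
    have h3 := Real.log_le_log h2 h1
    rw [Real.log_pow] at h3
    exact_mod_cast h3
  have hBB : Bn N = 7 - 6 * Real.log (2 * N) / (3 * ℓ) := rfl
  have hB0 : 0 ≤ Bn N := by linarith
  have h1 := hE1 R (3 * ℓ) w (6 * Real.log (2 * N)) (Bn N) (Ico s (s + L)) (by positivity) hwη
    hlogF hBB hB0
  -- pointwise bound
  have hLq : ∀ t ∈ Ico s (s + L), ∀ T : ℝ, ((F t).divisors.card : ℝ) ≤ T →
      Lq R t ^ 2 ≤ (2 * ℓ ^ 3 * T ^ 2) ^ 2 := by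
    intro t ht T hT
    have a1 := hE3 R t hR1
    rw [hlogR] at a1
    have a0 : (0 : ℝ) ≤ ((F t).divisors.card : ℝ) := Nat.cast_nonneg _
    have a2 : 2 * ℓ * M R 0 * ((F t).divisors.card : ℝ) ^ 2 ≤ 2 * ℓ ^ 3 * T ^ 2 := by
      have b1 : 2 * ℓ * M R 0 ≤ 2 * ℓ ^ 3 := by nlinarith
      have b2 : ((F t).divisors.card : ℝ) ^ 2 ≤ T ^ 2 := pow_le_pow_left₀ a0 hT 2
      exact mul_le_mul b1 b2 (by positivity) (by positivity)
    rw [← sq_abs]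
    exact pow_le_pow_left₀ (abs_nonneg _) (a1.trans a2) 2
  -- small primes
  have hP := hE4 R (3 * ℓ) w s L hR1 hw0.le
  have hP2 := h8 ℓ hℓ0 w hw0.le
  have hw3 : 3 * w / ℓ = 1 / 10000 := by
    have : w = ℓ / 30000 := rfl
    rw [this]; field_simp; norm_num
  rw [hw3] at hP2
  have hZ : Real.exp w * (2 * Zq R ^ 2) ≤ 0.00001 * C0 * ℓ ^ 4 * L := by
    have a1 := hE5 R hR1
    rw [hlogR] at a1
    have a2 : 2 * ℓ * R * M R 0 ≤ 2 * ℓ ^ 3 * R := by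
      have : 2 * ℓ * R * M R 0 ≤ 2 * ℓ * R * ℓ ^ 2 :=
        mul_le_mul_of_nonneg_left hM0 (by positivity)
      linarith [this]
    have a0 : 0 ≤ Zq R := by
      unfold Zq
      refine Finset.sum_nonneg (fun r hr => mul_nonneg ?_ (WR_pos (good_of_mem_SR hr)).le)
      have hle := ((mem_SR (by linarith)).mp hr).2
      have hr1 : (1 : ℝ) ≤ r := by exact_mod_cast (good_of_mem_SR hr).pos
      unfold Yq
      rw [if_pos hle]
      have b1 : 0 ≤ Real.log (R / r) := Real.log_nonneg (by rw [le_div_iff₀ (by linarith)]; linarith)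
      have b2 : 0 ≤ Real.log R := Real.log_nonneg hR1
      linarith
    have a3 : Zq R ^ 2 ≤ (2 * ℓ ^ 3 * R) ^ 2 := pow_le_pow_left₀ a0 (a1.trans a2) 2
    have a4 : Real.exp w * (2 * Zq R ^ 2) ≤ Real.exp w * (2 * (2 * ℓ ^ 3 * R) ^ 2) :=
      mul_le_mul_of_nonneg_left (by linarith) (Real.exp_pos w).le
    refine a4.trans ?_
    have a5 : Real.exp w * (2 * (2 * ℓ ^ 3 * R) ^ 2) = 8 * ℓ ^ 6 * Real.exp ((1 / 30000 + 2) * ℓ) := by
      have e1 : Real.exp ((1 / 30000 + 2) * ℓ) = Real.exp w * (R * R) := by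
        rw [hR, ← Real.exp_add, ← Real.exp_add]
        congr 1
        have : w = ℓ / 30000 := rfl
        rw [this]; ring
      rw [e1]; ring
    rw [a5, F1_exp hN1]
    have a6 := hn1 N hNn1
    have a7 : (N : ℝ) ^ ((1 / 30000 + 2) * (899 / 2000) : ℝ) ≤ (N : ℝ) ^ (0.9 : ℝ) :=
      Real.rpow_le_rpow_of_exponent_le hNr1 (by norm_num)
    have a8 : ℓ ^ 2 ≤ (1 + Real.log N) ^ 2 := pow_le_pow_left₀ hℓp.le (by linarith) 2
    have a9 : 8 * 16 * 100000 / C0 * ℓ ^ 2 ≤ (N : ℝ) ^ (1.1 : ℝ) :=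
      (mul_le_mul_of_nonneg_left a8 (by positivity)).trans a6
    have a10 : (N : ℝ) ^ (1.1 : ℝ) * (N : ℝ) ^ (0.9 : ℝ) = (N : ℝ) ^ 2 := by
      rw [← Real.rpow_add hNr, ← Real.rpow_natCast]
      norm_num
    have a11 : 8 * ℓ ^ 2 * (N : ℝ) ^ ((1 / 30000 + 2) * (899 / 2000) : ℝ) * 16
        ≤ 0.00001 * C0 * (N : ℝ) ^ 2 := by
      calc 8 * ℓ ^ 2 * (N : ℝ) ^ ((1 / 30000 + 2) * (899 / 2000) : ℝ) * 16
          = (0.00001 * C0) * (8 * 16 * 100000 / C0 * ℓ ^ 2)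
            * (N : ℝ) ^ ((1 / 30000 + 2) * (899 / 2000) : ℝ) := by
            field_simp
            norm_num
        _ ≤ (0.00001 * C0) * ((N : ℝ) ^ (1.1 : ℝ)) * (N : ℝ) ^ (0.9 : ℝ) := by
            apply mul_le_mul _ a7 (by positivity) (by positivity)
            exact mul_le_mul_of_nonneg_left a9 (by positivity)
        _ = 0.00001 * C0 * (N : ℝ) ^ 2 := by rw [mul_assoc, a10]
    calc 8 * ℓ ^ 6 * (N : ℝ) ^ ((1 / 30000 + 2) * (899 / 2000) : ℝ)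
        = ℓ ^ 4 / 16 * (8 * ℓ ^ 2 * (N : ℝ) ^ ((1 / 30000 + 2) * (899 / 2000) : ℝ) * 16) := by ring
      _ ≤ ℓ ^ 4 / 16 * (0.00001 * C0 * (N : ℝ) ^ 2) :=
          mul_le_mul_of_nonneg_left a11 (by positivity)
      _ = 0.00001 * C0 * ℓ ^ 4 * ((N : ℝ) ^ 2 / 16) := by ring
      _ ≤ 0.00001 * C0 * ℓ ^ 4 * L := mul_le_mul_of_nonneg_left hL1 (by positivity)
  have hsmall : ∑ p ∈ (Pr (3 * ℓ)).filter (fun p : ℕ => Real.log p ≤ w),
      ∑ t ∈ Ico s (s + L), indF p t * Lq R t ^ 2 ≤ 0.00012 * C0 * ℓ ^ 4 * L := by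
    refine hP.trans ?_
    have a1 : (L : ℝ) * ∑ p ∈ (Pr (3 * ℓ)).filter (fun p : ℕ => Real.log p ≤ w),
        2 / (p : ℝ) * Gq R p ≤ L * ((1 / 10000 + 0.00001) * C0 * ℓ ^ 4) :=
      mul_le_mul_of_nonneg_left hP2 (Nat.cast_nonneg _)
    nlinarith
  -- square divisors
  have hsq : ∑ t ∈ (Ico s (s + L)).filter (SqBad w), Lq R t ^ 2 ≤ 0.00001 * C0 * ℓ ^ 4 * L := by
    have hdF : ∀ t ∈ Ico s (s + L), ((F t).divisors.card : ℝ)
        ≤ Cd * (N : ℝ) ^ (1 / 10000000 : ℝ) := by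
      intro t ht
      apply hdiv N hN1
      have b1 : ((F t : ℕ) : ℝ) ≤ (2 * (N : ℝ)) ^ 6 := by exact_mod_cast hF t ht
      refine b1.trans ?_
      have b2 : (2 : ℝ) * N ≤ (N : ℝ) ^ 2 := by
        have : (4 : ℝ) ≤ N := by exact_mod_cast hN4
        nlinarith
      calc (2 * (N : ℝ)) ^ 6 ≤ ((N : ℝ) ^ 2) ^ 6 := pow_le_pow_left₀ (by positivity) b2 6
        _ = (N : ℝ) ^ 12 := by ring
    have a1 : ∑ t ∈ (Ico s (s + L)).filter (SqBad w), Lq R t ^ 2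
        ≤ (((Ico s (s + L)).filter (SqBad w)).card : ℝ)
          * (2 * ℓ ^ 3 * (Cd * (N : ℝ) ^ (1 / 10000000 : ℝ)) ^ 2) ^ 2 := by
      rw [← nsmul_eq_mul, ← Finset.sum_const]
      refine Finset.sum_le_sum (fun t ht => ?_)
      rw [Finset.mem_filter] at ht
      exact hLq t ht.1 _ (hdF t ht.1)
    have a2 : (2 * ℓ ^ 3 * (Cd * (N : ℝ) ^ (1 / 10000000 : ℝ)) ^ 2) ^ 2
        ≤ 4 * ℓ ^ 6 * Cd ^ 4 * (N : ℝ) ^ (0.000001 : ℝ) := by
      have b1 : ((N : ℝ) ^ (1 / 10000000 : ℝ)) ^ 4 ≤ (N : ℝ) ^ (0.000001 : ℝ) := by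
        rw [← Real.rpow_natCast, ← Real.rpow_mul hNr.le]
        apply Real.rpow_le_rpow_of_exponent_le hNr1
        norm_num
      calc (2 * ℓ ^ 3 * (Cd * (N : ℝ) ^ (1 / 10000000 : ℝ)) ^ 2) ^ 2
          = 4 * ℓ ^ 6 * Cd ^ 4 * ((N : ℝ) ^ (1 / 10000000 : ℝ)) ^ 4 := by ring
        _ ≤ _ := mul_le_mul_of_nonneg_left b1 (by positivity)
    have a3 := hE2 w s L hw0.le
    have a4 : Real.sqrt (6 * ((s : ℝ) + L) + 7) ≤ 4 * (N : ℝ) ^ (1.5 : ℝ) := by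
      have b1 : ((s : ℝ) + L) ≤ 2 * (N : ℝ) ^ 3 := by exact_mod_cast hs
      have b2 : (6 * ((s : ℝ) + L) + 7) ≤ 16 * (N : ℝ) ^ 3 := by
        have : (4 : ℝ) ^ 3 ≤ (N : ℝ) ^ 3 := pow_le_pow_left₀ (by norm_num) (by exact_mod_cast hN4) 3
        linarith
      have b3 : (4 * (N : ℝ) ^ (1.5 : ℝ)) ^ 2 = 16 * (N : ℝ) ^ 3 := by
        rw [mul_pow, ← Real.rpow_natCast ((N : ℝ) ^ (1.5 : ℝ)), ← Real.rpow_mul hNr.le,
          ← Real.rpow_natCast (N : ℝ) 3]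
        norm_num
      rw [Real.sqrt_le_left (by positivity), b3]
      exact b2
    have a5 : Real.exp (-w) = (N : ℝ) ^ (-(1 / 30000) * (899 / 2000) : ℝ) := by
      rw [← F1_exp hN1]
      congr 1
      have : w = ℓ / 30000 := rfl
      rw [this]; ring
    have a6 : (((Ico s (s + L)).filter (SqBad w)).card : ℝ)
        ≤ 4 * L * (N : ℝ) ^ (-0.000014 : ℝ) + 16 * (N : ℝ) ^ (1.5 : ℝ) := by
      have b1 : (N : ℝ) ^ (-(1 / 30000) * (899 / 2000) : ℝ) ≤ (N : ℝ) ^ (-0.000014 : ℝ) :=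
        Real.rpow_le_rpow_of_exponent_le hNr1 (by norm_num)
      rw [a5] at a3
      have b2 : 4 * (L : ℝ) * (N : ℝ) ^ (-(1 / 30000) * (899 / 2000) : ℝ)
          ≤ 4 * L * (N : ℝ) ^ (-0.000014 : ℝ) :=
        mul_le_mul_of_nonneg_left b1 (by positivity)
      linarith
    have a7 : (((Ico s (s + L)).filter (SqBad w)).card : ℝ)
          * (2 * ℓ ^ 3 * (Cd * (N : ℝ) ^ (1 / 10000000 : ℝ)) ^ 2) ^ 2
        ≤ (4 * L * (N : ℝ) ^ (-0.000014 : ℝ) + 16 * (N : ℝ) ^ (1.5 : ℝ))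
          * (4 * ℓ ^ 6 * Cd ^ 4 * (N : ℝ) ^ (0.000001 : ℝ)) :=
      mul_le_mul a6 a2 (by positivity) (by positivity)
    refine a1.trans (a7.trans ?_)
    have c1 : (N : ℝ) ^ (-0.000014 : ℝ) * (N : ℝ) ^ (0.000001 : ℝ) = (N : ℝ) ^ (-0.000013 : ℝ) := by
      rw [← Real.rpow_add hNr]; norm_num
    have c2 : (N : ℝ) ^ (1.5 : ℝ) * (N : ℝ) ^ (0.000001 : ℝ) = (N : ℝ) ^ (1.500001 : ℝ) := by
      rw [← Real.rpow_add hNr]; norm_num
    have c3 : (4 * L * (N : ℝ) ^ (-0.000014 : ℝ) + 16 * (N : ℝ) ^ (1.5 : ℝ))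
          * (4 * ℓ ^ 6 * Cd ^ 4 * (N : ℝ) ^ (0.000001 : ℝ))
        = 16 * ℓ ^ 6 * Cd ^ 4 * L * ((N : ℝ) ^ (-0.000014 : ℝ) * (N : ℝ) ^ (0.000001 : ℝ))
          + 64 * ℓ ^ 6 * Cd ^ 4 * ((N : ℝ) ^ (1.5 : ℝ) * (N : ℝ) ^ (0.000001 : ℝ)) := by ring
    rw [c3, c1, c2]
    have a8 : ℓ ^ 2 ≤ (1 + Real.log N) ^ 2 := pow_le_pow_left₀ hℓp.le (by linarith) 2
    have d1 : 16 * Cd ^ 4 * 200000 / C0 * ℓ ^ 2 ≤ (N : ℝ) ^ (0.00001 : ℝ) :=
      (mul_le_mul_of_nonneg_left a8 (by positivity)).trans (hn2 N hNn2)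
    have d2 : 64 * 16 * Cd ^ 4 * 200000 / C0 * ℓ ^ 2 ≤ (N : ℝ) ^ (0.4 : ℝ) :=
      (mul_le_mul_of_nonneg_left a8 (by positivity)).trans (hn3 N hNn3)
    have e1 : 16 * ℓ ^ 6 * Cd ^ 4 * L * (N : ℝ) ^ (-0.000013 : ℝ)
        ≤ 0.000005 * C0 * ℓ ^ 4 * L := by
      calc 16 * ℓ ^ 6 * Cd ^ 4 * L * (N : ℝ) ^ (-0.000013 : ℝ)
          = (0.000005 * C0 * ℓ ^ 4 * L) * (16 * Cd ^ 4 * 200000 / C0 * ℓ ^ 2)
            * (N : ℝ) ^ (-0.000013 : ℝ) := by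
            field_simp
            ring
        _ ≤ (0.000005 * C0 * ℓ ^ 4 * L) * (N : ℝ) ^ (0.00001 : ℝ) * (N : ℝ) ^ (-0.000013 : ℝ) := by
            apply mul_le_mul_of_nonneg_right _ (by positivity)
            exact mul_le_mul_of_nonneg_left d1 (by positivity)
        _ = (0.000005 * C0 * ℓ ^ 4 * L) * (N : ℝ) ^ (-0.000003 : ℝ) := by
            rw [mul_assoc, ← Real.rpow_add hNr]; norm_num
        _ ≤ (0.000005 * C0 * ℓ ^ 4 * L) * 1 := by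
            apply mul_le_mul_of_nonneg_left _ (by positivity)
            exact Real.rpow_le_one_of_one_le_of_nonpos hNr1 (by norm_num)
        _ = _ := by ring
    have e2 : 64 * ℓ ^ 6 * Cd ^ 4 * (N : ℝ) ^ (1.500001 : ℝ)
        ≤ 0.000005 * C0 * ℓ ^ 4 * L := by
      have f1 : (N : ℝ) ^ (0.4 : ℝ) * (N : ℝ) ^ (1.500001 : ℝ) ≤ (N : ℝ) ^ 2 := by
        rw [← Real.rpow_add hNr, ← Real.rpow_natCast]
        apply Real.rpow_le_rpow_of_exponent_le hNr1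
        norm_num
      calc 64 * ℓ ^ 6 * Cd ^ 4 * (N : ℝ) ^ (1.500001 : ℝ)
          = (0.000005 * C0 * ℓ ^ 4 / 16) * ((64 * 16 * Cd ^ 4 * 200000 / C0 * ℓ ^ 2)
            * (N : ℝ) ^ (1.500001 : ℝ)) := by
            field_simp
            norm_num
        _ ≤ (0.000005 * C0 * ℓ ^ 4 / 16) * ((N : ℝ) ^ (0.4 : ℝ) * (N : ℝ) ^ (1.500001 : ℝ)) := by
            apply mul_le_mul_of_nonneg_left _ (by positivity)
            exact mul_le_mul_of_nonneg_right d2 (by positivity)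
        _ ≤ (0.000005 * C0 * ℓ ^ 4 / 16) * (N : ℝ) ^ 2 :=
            mul_le_mul_of_nonneg_left f1 (by positivity)
        _ = 0.000005 * C0 * ℓ ^ 4 * ((N : ℝ) ^ 2 / 16) := by ring
        _ ≤ _ := mul_le_mul_of_nonneg_left hL1 (by positivity)
    linarith
  -- combine
  have hgs0 : 0 ≤ ∑ t ∈ (Ico s (s + L)).filter (Good6 w), Lq R t ^ 2 :=
    Finset.sum_nonneg (fun t _ => sq_nonneg _)
  have hps0 : 0 ≤ ∑ p ∈ (Pr (3 * ℓ)).filter (fun p : ℕ => Real.log p ≤ w),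
      ∑ t ∈ Ico s (s + L), indF p t * Lq R t ^ 2 := by
    refine Finset.sum_nonneg (fun p _ => Finset.sum_nonneg (fun t _ => mul_nonneg ?_ (sq_nonneg _)))
    unfold indF
    split_ifs <;> norm_num
  have hss0 : 0 ≤ ∑ t ∈ (Ico s (s + L)).filter (SqBad w), Lq R t ^ 2 :=
    Finset.sum_nonneg (fun t _ => sq_nonneg _)
  have hpos : 0 ≤ C0 * ℓ ^ 4 * L := by positivity
  have g1 : Bn N * ∑ t ∈ (Ico s (s + L)).filter (Good6 w), Lq R t ^ 2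
      ≤ 3 * ∑ t ∈ (Ico s (s + L)).filter (Good6 w), Lq R t ^ 2 :=
    mul_le_mul_of_nonneg_right hB2 hgs0
  have g2 : Bn N * ∑ p ∈ (Pr (3 * ℓ)).filter (fun p : ℕ => Real.log p ≤ w),
      ∑ t ∈ Ico s (s + L), indF p t * Lq R t ^ 2 ≤ 3 * (0.00012 * C0 * ℓ ^ 4 * L) :=
    mul_le_mul hB2 hsmall hps0 (by norm_num)
  have g3 : Bn N * ∑ t ∈ (Ico s (s + L)).filter (SqBad w), Lq R t ^ 2
      ≤ 3 * (0.00001 * C0 * ℓ ^ 4 * L) :=
    mul_le_mul hB2 hsq hss0 (by norm_num)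
  have g4 : 0.0003 * C0 * ℓ ^ 4 * L ≤ ∑ t ∈ (Ico s (s + L)).filter (Good6 w), Lq R t ^ 2 := by
    norm_num at hsum g2 g3 ⊢
    linarith
  have g5 : ∑ t ∈ (Ico s (s + L)).filter (Good6 w), Lq R t ^ 2
      ≤ (((Ico s (s + L)).filter (Good6 w)).card : ℝ) * (2 * ℓ ^ 3 * (64 : ℝ) ^ 2) ^ 2 := by
    rw [← nsmul_eq_mul, ← Finset.sum_const]
    refine Finset.sum_le_sum (fun t ht => ?_)
    rw [Finset.mem_filter] at ht
    apply hLq t ht.1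
    have h5 : (F t).divisors.card ≤ 2 ^ Ω (F t) := by
      have hm := F_ne_zero t
      rw [Nat.card_divisors hm, ArithmeticFunction.cardFactors_eq_sum_factorization, Finsupp.sum,
        Nat.support_factorization, ← Finset.prod_pow_eq_pow_sum]
      apply Finset.prod_le_prod'
      intro p _
      exact Nat.succ_le_of_lt (Nat.lt_two_pow_self)
    have h6 : (2 : ℕ) ^ Ω (F t) ≤ 2 ^ 6 := Nat.pow_le_pow_right (by norm_num) ht.2.1
    have h7 : (F t).divisors.card ≤ 64 := h5.trans (h6.trans (by norm_num))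
    exact_mod_cast h7
  set G := (((Ico s (s + L)).filter (Good6 w)).card : ℝ) with hG
  have hG0 : 0 ≤ G := Nat.cast_nonneg _
  have g6 : 0.0003 * C0 * ℓ ^ 4 * L ≤ G * (2 * ℓ ^ 3 * (64 : ℝ) ^ 2) ^ 2 := g4.trans g5
  have g7 : G * (2 * ℓ ^ 3 * (64 : ℝ) ^ 2) ^ 2 = 67108864 * G * ℓ ^ 2 * ℓ ^ 4 := by ring
  have hl4 : 0 < ℓ ^ 4 := by positivity
  have g8 : 0.0003 * C0 * L ≤ 67108864 * G * ℓ ^ 2 := by
    rw [g7] at g6
    have : 0.0003 * C0 * L * ℓ ^ 4 ≤ 67108864 * G * ℓ ^ 2 * ℓ ^ 4 := by linarith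
    exact le_of_mul_le_mul_right this hl4
  have hlN0 : 0 < Real.log N := by linarith
  rw [div_le_iff₀ (by positivity)]
  have g9 : ℓ ^ 2 ≤ 0.3 * (Real.log N) ^ 2 := by
    have : ℓ = 899 / 2000 * Real.log N := rfl
    rw [this, mul_pow]
    nlinarith [sq_nonneg (Real.log N)]
  have g10 : 67108864 * G * ℓ ^ 2 ≤ 67108864 * G * (0.3 * (Real.log N) ^ 2) :=
    mul_le_mul_of_nonneg_left g9 (by positivity)
  have g11 : 0.0003 * C0 * ((N : ℝ) ^ 2 / 16) ≤ 0.0003 * C0 * L :=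
    mul_le_mul_of_nonneg_left hL1 (by positivity)
  have g12 : 0 ≤ G * (Real.log N) ^ 2 := by positivity
  have g13 : 0.0003 * C0 / (16 * 49000000) * (N : ℝ) ^ 2
      = 0.0003 * C0 * ((N : ℝ) ^ 2 / 16) / 49000000 := by ring
  rw [g13, div_le_iff₀ (by norm_num)]
  nlinarith

end Pool.Agent.TwA
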