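import Mathlib
import Pool.Agent.Lib.MP_d610d0_nt.AS.P.F1

/-!
Few windows with a small weighted sum.
-/

set_option autoImplicit false

namespace Pool.Agent.TwA

open Finset Filter
open Pool.Agent.Lib.MP_d610d0_nt

open Classical in
theorem F2_main (hV6 : S_V6) (hB6 : S_B6) (hC4 : S_C4)
    {C0 ℓ0 : ℝ} (hC0 : 0 < C0)
    (h8 : ∀ ℓ : ℝ, ℓ0 ≤ ℓ → ∀ B : ℝ, 2.5506 ≤ B →
      0.0025 * C0 * ℓ ^ 4 ≤ mq (Real.exp ℓ) (3 * ℓ) B) :
    ∃ N0 : ℕ, 1 ≤ N0 ∧ ∀ N : ℕ, N0 ≤ N →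
      (((range (2 * N ^ 3)).filter (fun s => ∑ t ∈ Ico s (s + N ^ 2 / 8),
        fq (Real.exp (el N)) (3 * el N) (Bn N) t
          < 0.0015 * C0 * el N ^ 4 * ((N ^ 2 / 8 : ℕ) : ℝ))).card : ℝ)
        ≤ (N : ℝ) ^ (2.745 : ℝ) := by
  obtain ⟨Cd, hCd, hdiv⟩ := F1_div
  obtain ⟨n1, -, hn1⟩ := F0_ev2 (49 * 10 * 2 * 256 * 256 * 1000000 * Cd ^ 12 / C0 ^ 2) 14
    (a := 2.7426) (b := 2.745) (by norm_num)
  obtain ⟨n4, hn4⟩ := exists_nat_ge (Real.exp 300000)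
  obtain ⟨n5, hn5⟩ := exists_nat_ge (Real.exp (3 * |ℓ0|))
  refine ⟨max 1 (max n1 (max n4 n5)), le_max_left _ _, fun N hN => ?_⟩
  have hNn1 : n1 ≤ N := by omega
  have hNn4 : n4 ≤ N := by omega
  have hNn5 : n5 ≤ N := by omega
  have hN1 : 1 ≤ N := by omega
  have hNr : (0 : ℝ) < N := by exact_mod_cast hN1
  have hNr1 : (1 : ℝ) ≤ N := by exact_mod_cast hN1
  have hlog : 300000 ≤ Real.log N := by
    rw [Real.le_log_iff_exp_le hNr]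
    exact hn4.trans (by exact_mod_cast hNn4)
  have hlog5 : 3 * |ℓ0| ≤ Real.log N := by
    rw [Real.le_log_iff_exp_le hNr]
    exact hn5.trans (by exact_mod_cast hNn5)
  obtain ⟨hN4, hl1, hlN, hB1, hB2, hw0, hwη, hR5⟩ := F1_log hlog
  set ℓ := el N with hℓ
  have hℓ0 : ℓ0 ≤ ℓ := by
    have : ℓ = 899 / 2000 * Real.log N := rfl
    have h2 := le_abs_self ℓ0
    have h3 := abs_nonneg ℓ0
    rw [this]; linarith
  have hℓp : 0 < ℓ := by linarith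
  obtain ⟨hL1, hL2⟩ := F1_L hN4
  set L : ℕ := N ^ 2 / 8 with hL
  set R := Real.exp ℓ with hR
  have hlogR : Real.log R = ℓ := by rw [hR, Real.log_exp]
  have hR1 : 1 ≤ R := by linarith
  have hM0 : M R 0 ≤ ℓ ^ 2 := by
    have h1 := M0_le hR5
    rw [hlogR] at h1
    nlinarith [sq_nonneg ℓ]
  have hM00 : 0 ≤ M R 0 := M_nonneg R 0
  set D : ℕ := ⌈Real.exp (5 * ℓ)⌉₊ with hD
  have hD1 : R ^ 2 * Real.exp (3 * ℓ) ≤ D := by
    have e1 : R ^ 2 * Real.exp (3 * ℓ) = Real.exp (5 * ℓ) := by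
      rw [hR, ← Real.exp_nat_mul, ← Real.exp_add]
      congr 1
      push_cast; ring
    rw [e1]
    exact Nat.le_ceil _
  have he1 : 1 ≤ Real.exp (5 * ℓ) := Real.one_le_exp (by positivity)
  have hDr : (D : ℝ) ≤ 2 * (N : ℝ) ^ (2.2475 : ℝ) := by
    have h1 := (Nat.ceil_lt_add_one (Real.exp_pos (5 * ℓ)).le).le
    have h2 := F1_exp hN1 5
    have h3 : (5 : ℝ) * (899 / 2000) = 2.2475 := by norm_num
    rw [h3] at h2
    rw [← h2]
    linarith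
  have hDone : 1 ≤ D := by
    have : (1 : ℝ) ≤ D := he1.trans (Nat.le_ceil _)
    exact_mod_cast this
  have hDr0 : (1 : ℝ) ≤ D := by exact_mod_cast hDone
  have hlogD : Real.log D ≤ 1 + 5 * ℓ := by
    have h1 := (Nat.ceil_lt_add_one (Real.exp_pos (5 * ℓ)).le).le
    have h2 : (D : ℝ) ≤ Real.exp (1 + 5 * ℓ) := by
      rw [Real.exp_add]
      have := Real.exp_one_gt_d9
      nlinarith
    have h3 := Real.log_le_log (by linarith) h2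
    rwa [Real.log_exp] at h3
  have hlogD0 : 0 ≤ Real.log D := Real.log_nonneg hDr0
  obtain ⟨c, hc1, hc2⟩ := hB6 R (3 * ℓ) (Bn N) D hR1 (by positivity) hD1
  have hmean := hC4 R (3 * ℓ) (Bn N) D c hR1 (by positivity) hc1
  have hmq := h8 ℓ hℓ0 (Bn N) hB1
  have hvar := hV6 D (2 * N ^ 3) L c hDone
  -- weights
  have hcw : ∑ d ∈ Icc 1 D, cw c d ^ 2
      ≤ D * (256 * ℓ ^ 12 * Cd ^ 12 * (N : ℝ) ^ (0.000002 : ℝ)) := by
    have h1 : ∀ d ∈ Icc 1 D, cw c d ^ 2 ≤ 256 * ℓ ^ 12 * Cd ^ 12 * (N : ℝ) ^ (0.000002 : ℝ) := by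
      intro d hd
      have a0 : 0 ≤ cw c d := Finset.sum_nonneg (fun _ _ => abs_nonneg _)
      have a1 := hc2 d hd
      rw [hlogR] at a1
      have a2 : ((d.divisors.card : ℕ) : ℝ) ≤ Cd * (N : ℝ) ^ (1 / 10000000 : ℝ) := by
        apply hdiv N hN1
        have b1 : (d : ℝ) ≤ D := by exact_mod_cast (Finset.mem_Icc.mp hd).2
        have b2 : 2 * (N : ℝ) ^ (2.2475 : ℝ) ≤ (N : ℝ) ^ 12 := by
          have b3 : (2 : ℝ) ≤ (N : ℝ) ^ (1 : ℝ) := by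
            rw [Real.rpow_one]
            have : (4 : ℝ) ≤ N := by exact_mod_cast hN4
            linarith
          calc 2 * (N : ℝ) ^ (2.2475 : ℝ) ≤ (N : ℝ) ^ (1 : ℝ) * (N : ℝ) ^ (2.2475 : ℝ) :=
                mul_le_mul_of_nonneg_right b3 (by positivity)
            _ = (N : ℝ) ^ (3.2475 : ℝ) := by rw [← Real.rpow_add hNr]; norm_num
            _ ≤ (N : ℝ) ^ (12 : ℝ) := Real.rpow_le_rpow_of_exponent_le hNr1 (by norm_num)
            _ = (N : ℝ) ^ 12 := by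
              rw [← Real.rpow_natCast]; norm_num
        linarith
      have a3 : (|Bn N| + 1) ≤ 4 := by
        rw [abs_of_nonneg (by linarith)]; linarith
      have a4 : (2 * ℓ * M R 0) ^ 2 ≤ 4 * ℓ ^ 6 := by
        have b1 : 2 * ℓ * M R 0 ≤ 2 * ℓ * ℓ ^ 2 := mul_le_mul_of_nonneg_left hM0 (by positivity)
        calc (2 * ℓ * M R 0) ^ 2 ≤ (2 * ℓ * ℓ ^ 2) ^ 2 := pow_le_pow_left₀ (by positivity) b1 2
          _ = 4 * ℓ ^ 6 := by ring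
      have a5 : ((d.divisors.card : ℕ) : ℝ) ^ 6 ≤ (Cd * (N : ℝ) ^ (1 / 10000000 : ℝ)) ^ 6 :=
        pow_le_pow_left₀ (Nat.cast_nonneg _) a2 6
      have a6 : (|Bn N| + 1) * (2 * ℓ * M R 0) ^ 2 * ((d.divisors.card : ℕ) : ℝ) ^ 6
          ≤ 4 * (4 * ℓ ^ 6) * (Cd * (N : ℝ) ^ (1 / 10000000 : ℝ)) ^ 6 := by
        apply mul_le_mul _ a5 (by positivity) (by positivity)
        exact mul_le_mul a3 a4 (by positivity) (by norm_num)
      have a7 : ((N : ℝ) ^ (1 / 10000000 : ℝ)) ^ 12 ≤ (N : ℝ) ^ (0.000002 : ℝ) := by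
        rw [← Real.rpow_natCast, ← Real.rpow_mul hNr.le]
        apply Real.rpow_le_rpow_of_exponent_le hNr1
        norm_num
      calc cw c d ^ 2 ≤ (4 * (4 * ℓ ^ 6) * (Cd * (N : ℝ) ^ (1 / 10000000 : ℝ)) ^ 6) ^ 2 :=
            pow_le_pow_left₀ a0 (a1.trans a6) 2
        _ = 256 * ℓ ^ 12 * Cd ^ 12 * ((N : ℝ) ^ (1 / 10000000 : ℝ)) ^ 12 := by ring
        _ ≤ _ := mul_le_mul_of_nonneg_left a7 (by positivity)
    refine (Finset.sum_le_card_nsmul _ _ _ h1).trans (le_of_eq ?_)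
    rw [nsmul_eq_mul, Nat.card_Icc]
    simp
  -- Chebyshev
  set Sb := (range (2 * N ^ 3)).filter (fun s => ∑ t ∈ Ico s (s + L),
        fq R (3 * ℓ) (Bn N) t < 0.0015 * C0 * ℓ ^ 4 * (L : ℝ)) with hSb
  set lam : ℝ := 0.001 * C0 * ℓ ^ 4 * L with hlam
  have hlam0 : 0 ≤ lam := by positivity
  have hcheb : (Sb.card : ℝ) * lam ^ 2
      ≤ ∑ s ∈ range (2 * N ^ 3), ((∑ i ∈ range L, comb D c (s + i)) - L * cmean D c) ^ 2 := by
    rw [← nsmul_eq_mul, ← Finset.sum_const]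
    calc ∑ _s ∈ Sb, lam ^ 2
        ≤ ∑ s ∈ Sb, ((∑ i ∈ range L, comb D c (s + i)) - L * cmean D c) ^ 2 := by
          refine Finset.sum_le_sum (fun s hs => ?_)
          rw [hSb, Finset.mem_filter] at hs
          have e1 : ∑ i ∈ range L, comb D c (s + i) = ∑ t ∈ Ico s (s + L), fq R (3 * ℓ) (Bn N) t := by
            rw [Finset.sum_Ico_eq_sum_range]
            simp only [Nat.add_sub_cancel_left]
            exact Finset.sum_congr rfl (fun i _ => (hc1 _).symm)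
          rw [e1, hmean]
          have a1 : (L : ℝ) * (0.0025 * C0 * ℓ ^ 4) ≤ L * mq R (3 * ℓ) (Bn N) :=
            mul_le_mul_of_nonneg_left hmq (Nat.cast_nonneg _)
          have a2 := hs.2
          have a3 : lam ≤ L * mq R (3 * ℓ) (Bn N) - ∑ t ∈ Ico s (s + L), fq R (3 * ℓ) (Bn N) t := by
            rw [hlam]
            norm_num at a1 a2 ⊢
            linarith
          have a4 := pow_le_pow_left₀ hlam0 a3 2
          refine a4.trans (le_of_eq ?_)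
          ring
      _ ≤ _ := Finset.sum_le_sum_of_subset_of_nonneg (Finset.filter_subset _ _)
          (fun _ _ _ => sq_nonneg _)
  have hmain := hcheb.trans hvar
  -- bound the right hand side
  have r1 : (1 + Real.log D) ^ 2 ≤ 49 * ℓ ^ 2 := by
    have : 1 + Real.log D ≤ 7 * ℓ := by linarith
    calc (1 + Real.log D) ^ 2 ≤ (7 * ℓ) ^ 2 := pow_le_pow_left₀ (by linarith) this 2
      _ = _ := by ring
  have r2 : (((2 * N ^ 3 : ℕ) : ℝ) + 2 * (D : ℝ) ^ 2) ≤ 10 * (N : ℝ) ^ (4.495 : ℝ) := by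
    have a1 : (D : ℝ) ^ 2 ≤ 4 * (N : ℝ) ^ (4.495 : ℝ) := by
      calc (D : ℝ) ^ 2 ≤ (2 * (N : ℝ) ^ (2.2475 : ℝ)) ^ 2 := pow_le_pow_left₀ (by linarith) hDr 2
        _ = 4 * (N : ℝ) ^ (4.495 : ℝ) := by
            rw [mul_pow, ← Real.rpow_natCast ((N : ℝ) ^ (2.2475 : ℝ)), ← Real.rpow_mul hNr.le]
            norm_num
    have a2 : (N : ℝ) ^ 3 ≤ (N : ℝ) ^ (4.495 : ℝ) := by
      rw [← Real.rpow_natCast]
      apply Real.rpow_le_rpow_of_exponent_le hNr1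
      norm_num
    push_cast
    linarith
  have r3 : ∑ d ∈ Icc 1 D, cw c d ^ 2
      ≤ 2 * (N : ℝ) ^ (2.2475 : ℝ) * (256 * ℓ ^ 12 * Cd ^ 12 * (N : ℝ) ^ (0.000002 : ℝ)) :=
    hcw.trans (mul_le_mul_of_nonneg_right hDr (by positivity))
  have r0 : 0 ≤ ∑ d ∈ Icc 1 D, cw c d ^ 2 := Finset.sum_nonneg (fun _ _ => sq_nonneg _)
  have r4 : (1 + Real.log D) ^ 2 * (((2 * N ^ 3 : ℕ) : ℝ) + 2 * (D : ℝ) ^ 2)
        * ∑ d ∈ Icc 1 D, cw c d ^ 2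
      ≤ (49 * ℓ ^ 2) * (10 * (N : ℝ) ^ (4.495 : ℝ))
        * (2 * (N : ℝ) ^ (2.2475 : ℝ) * (256 * ℓ ^ 12 * Cd ^ 12 * (N : ℝ) ^ (0.000002 : ℝ))) := by
    apply mul_le_mul _ r3 r0 (by positivity)
    exact mul_le_mul r1 r2 (by positivity) (by positivity)
  have r5 : (49 * ℓ ^ 2) * (10 * (N : ℝ) ^ (4.495 : ℝ))
        * (2 * (N : ℝ) ^ (2.2475 : ℝ) * (256 * ℓ ^ 12 * Cd ^ 12 * (N : ℝ) ^ (0.000002 : ℝ)))
      = (49 * 10 * 2 * 256 * Cd ^ 12 * ℓ ^ 14) * (N : ℝ) ^ (6.742502 : ℝ) := by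
    have : (N : ℝ) ^ (6.742502 : ℝ)
        = (N : ℝ) ^ (4.495 : ℝ) * ((N : ℝ) ^ (2.2475 : ℝ) * (N : ℝ) ^ (0.000002 : ℝ)) := by
      rw [← Real.rpow_add hNr, ← Real.rpow_add hNr]; norm_num
    rw [this]; ring
  have r6 := hmain.trans (r4.trans (le_of_eq r5))
  -- lower bound of `lam`
  have s1 : 0.000001 * C0 ^ 2 / 256 * (N : ℝ) ^ 4 ≤ lam ^ 2 := by
    have a1 : 0.001 * C0 * ((N : ℝ) ^ 2 / 16) ≤ lam := by
      rw [hlam]
      have b1 : (1 : ℝ) ≤ ℓ ^ 4 := one_le_pow₀ hl1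
      have b2 : 0.001 * C0 * ((N : ℝ) ^ 2 / 16) ≤ 0.001 * C0 * L :=
        mul_le_mul_of_nonneg_left hL1 (by positivity)
      have b3 : 0 ≤ 0.001 * C0 * (L : ℝ) := by positivity
      calc 0.001 * C0 * ((N : ℝ) ^ 2 / 16) ≤ 0.001 * C0 * L := b2
        _ ≤ (0.001 * C0 * L) * ℓ ^ 4 := le_mul_of_one_le_right b3 b1
        _ = _ := by ring
    have a2 := pow_le_pow_left₀ (by positivity) a1 2
    refine le_trans (le_of_eq ?_) a2
    ring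
  have s2 : (Sb.card : ℝ) * (0.000001 * C0 ^ 2 / 256 * (N : ℝ) ^ 4)
      ≤ (49 * 10 * 2 * 256 * Cd ^ 12 * ℓ ^ 14) * (N : ℝ) ^ (6.742502 : ℝ) :=
    (mul_le_mul_of_nonneg_left s1 (Nat.cast_nonneg _)).trans r6
  have s3 : (N : ℝ) ^ (6.742502 : ℝ) = (N : ℝ) ^ (2.742502 : ℝ) * (N : ℝ) ^ 4 := by
    rw [← Real.rpow_natCast (N : ℝ) 4, ← Real.rpow_add hNr]; norm_num
  have s4 : (Sb.card : ℝ) ≤ (49 * 10 * 2 * 256 * 256 * 1000000 * Cd ^ 12 / C0 ^ 2)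
      * ℓ ^ 14 * (N : ℝ) ^ (2.742502 : ℝ) := by
    rw [s3] at s2
    have hpos : 0 < 0.000001 * C0 ^ 2 / 256 * (N : ℝ) ^ 4 := by positivity
    rw [← mul_le_mul_iff_left₀ hpos]
    refine s2.trans (le_of_eq ?_)
    field_simp
    ring
  refine s4.trans ?_
  refine le_trans ?_ (hn1 N hNn1)
  have t1 : ℓ ^ 14 ≤ (1 + Real.log N) ^ 14 := pow_le_pow_left₀ hℓp.le (by linarith) 14
  have t2 : (N : ℝ) ^ (2.742502 : ℝ) ≤ (N : ℝ) ^ (2.7426 : ℝ) :=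
    Real.rpow_le_rpow_of_exponent_le hNr1 (by norm_num)
  apply mul_le_mul _ t2 (by positivity) (by positivity)
  exact mul_le_mul_of_nonneg_left t1 (by positivity)

end Pool.Agent.TwA
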