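import Mathlib
import Pool.Agent.Lib.MP_d610d0_nt.AS.P.F2

/-!
The exceptional set.
-/

set_option autoImplicit false

namespace Pool.Agent.TwA

open Finset Filter
open Pool.Agent.Lib.MP_d610d0_nt
open scoped ArithmeticFunction.Omega

/-- The integers `m` with `n ^ 3 < m < m + 2 < (n + 1) ^ 3` such that `m (m + 2)` has at most six prime
factors, all of them larger than `n ^ (1 / 100000)`. -/
def six (n : ℕ) : Set ℕ :=
  {m | n ^ 3 < m ∧ m + 2 < (n + 1) ^ 3 ∧ Ω (m * (m + 2)) ≤ 6 ∧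
    ∀ p : ℕ, p.Prime → p ∣ m * (m + 2) → n < p ^ 100000}

lemma six_finite (n : ℕ) : (six n).Finite := by
  apply Set.Finite.subset (Set.finite_Iio ((n + 1) ^ 3))
  intro m hm
  have := hm.2.1
  exact Set.mem_Iio.mpr (by omega)

lemma F3_start {N n : ℕ} (h1 : N ≤ n) (h2 : n < 2 * N) (hN : 4 ≤ N) {s : ℕ}
    (hs : s ∈ Ico (n ^ 3 / 6 + 1) (n ^ 3 / 6 + 1 + N ^ 2 / 8)) :
    (∀ t ∈ Ico s (s + N ^ 2 / 8), n ^ 3 < 6 * t + 5 ∧ 6 * t + 5 + 2 < (n + 1) ^ 3) ∧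
    s + N ^ 2 / 8 ≤ 2 * N ^ 3 ∧ s < 2 * N ^ 3 := by
  rw [Finset.mem_Ico] at hs
  have hn2 : N ^ 2 ≤ n ^ 2 := Nat.pow_le_pow_left h1 2
  have e3 : (n + 1) ^ 3 = n ^ 3 + 3 * n ^ 2 + 3 * n + 1 := by ring
  have hb : n ^ 3 ≤ 8 * N ^ 3 := by
    calc n ^ 3 ≤ (2 * N) ^ 3 := Nat.pow_le_pow_left h2.le 3
      _ = 8 * N ^ 3 := by ring
  have hN3 : 4 * N ^ 2 ≤ N ^ 3 := by
    calc 4 * N ^ 2 ≤ N * N ^ 2 := Nat.mul_le_mul_right _ hN
      _ = N ^ 3 := by ring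
  have hN2 : 16 ≤ N ^ 2 := by
    calc 16 = 4 ^ 2 := by norm_num
      _ ≤ N ^ 2 := Nat.pow_le_pow_left hN 2
  refine ⟨fun t ht => ?_, ?_, ?_⟩
  · rw [Finset.mem_Ico] at ht
    rw [e3]
    constructor <;> omega
  · omega
  · omega

open Classical in
theorem F3_block {C0 c3 : ℝ} (hc3 : 0 < c3) (N1 N2 : ℕ)
    (hF1 : ∀ N : ℕ, N1 ≤ N → ∀ s : ℕ,
      (∀ t ∈ Ico s (s + N ^ 2 / 8), F t ≤ (2 * N) ^ 6) → s + N ^ 2 / 8 ≤ 2 * N ^ 3 →
      0.0015 * C0 * el N ^ 4 * ((N ^ 2 / 8 : ℕ) : ℝ)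
        ≤ ∑ t ∈ Ico s (s + N ^ 2 / 8), fq (Real.exp (el N)) (3 * el N) (Bn N) t →
      c3 * (N : ℝ) ^ 2 / (Real.log N) ^ 2
        ≤ (((Ico s (s + N ^ 2 / 8)).filter (Good6 (wn N))).card : ℝ))
    (hF2 : ∀ N : ℕ, N2 ≤ N →
      (((range (2 * N ^ 3)).filter (fun s => ∑ t ∈ Ico s (s + N ^ 2 / 8),
        fq (Real.exp (el N)) (3 * el N) (Bn N) t
          < 0.0015 * C0 * el N ^ 4 * ((N ^ 2 / 8 : ℕ) : ℝ))).card : ℝ)
        ≤ (N : ℝ) ^ (2.745 : ℝ)) :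
    ∃ N0 : ℕ, 1 ≤ N0 ∧ ∀ N : ℕ, N0 ≤ N →
      (((Ico N (2 * N)).filter (fun n : ℕ =>
        ((six n).ncard : ℝ) < c3 / 4 * (n : ℝ) ^ 2 / (Real.log (n + 1)) ^ 2)).card : ℝ)
        ≤ 16 * (N : ℝ) ^ (0.745 : ℝ) := by
  obtain ⟨n4, hn4⟩ := exists_nat_ge (Real.exp 300000)
  refine ⟨max 1 (max N1 (max N2 n4)), le_max_left _ _, fun N hN => ?_⟩
  have hNN1 : N1 ≤ N := by omega
  have hNN2 : N2 ≤ N := by omega
  have hNn4 : n4 ≤ N := by omega
  have hN1 : 1 ≤ N := by omega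
  have hNr : (0 : ℝ) < N := by exact_mod_cast hN1
  have hNr1 : (1 : ℝ) ≤ N := by exact_mod_cast hN1
  have hlog : 300000 ≤ Real.log N := by
    rw [Real.le_log_iff_exp_le hNr]
    exact hn4.trans (by exact_mod_cast hNn4)
  obtain ⟨hN4, -⟩ := F1_log hlog
  obtain ⟨hL1, hL2⟩ := F1_L hN4
  set Ex := (Ico N (2 * N)).filter (fun n : ℕ =>
        ((six n).ncard : ℝ) < c3 / 4 * (n : ℝ) ^ 2 / (Real.log (n + 1)) ^ 2) with hEx
  set Sb := (range (2 * N ^ 3)).filter (fun s => ∑ t ∈ Ico s (s + N ^ 2 / 8),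
        fq (Real.exp (el N)) (3 * el N) (Bn N) t
          < 0.0015 * C0 * el N ^ 4 * ((N ^ 2 / 8 : ℕ) : ℝ)) with hSb
  set J : ℕ → Finset ℕ := fun n => Ico (n ^ 3 / 6 + 1) (n ^ 3 / 6 + 1 + N ^ 2 / 8) with hJ
  have hsub : Ex.biUnion J ⊆ Sb := by
    intro s hs
    rw [Finset.mem_biUnion] at hs
    obtain ⟨n, hn, hsn⟩ := hs
    rw [hEx, Finset.mem_filter, Finset.mem_Ico] at hn
    obtain ⟨⟨hn1, hn2⟩, hn3⟩ := hn
    obtain ⟨h1, h2, h3⟩ := F3_start hn1 hn2 hN4 hsn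
    rw [hSb, Finset.mem_filter, Finset.mem_range]
    refine ⟨h3, ?_⟩
    by_contra hcon
    push Not at hcon
    have h4 := hF1 N hNN1 s (by
      intro t ht
      obtain ⟨-, a2⟩ := h1 t ht
      have e1 : F t = (6 * t + 5) * (6 * t + 7) := rfl
      have a3 : n + 1 ≤ 2 * N := hn2
      have a4 : (n + 1) ^ 3 ≤ (2 * N) ^ 3 := Nat.pow_le_pow_left a3 3
      calc F t = (6 * t + 5) * (6 * t + 7) := e1
        _ ≤ (2 * N) ^ 3 * (2 * N) ^ 3 := Nat.mul_le_mul (by omega) (by omega)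
        _ = (2 * N) ^ 6 := by ring) h2 hcon
    -- the good `t` give elements of `six n`
    have h5 : ((Ico s (s + N ^ 2 / 8)).filter (Good6 (wn N))).card ≤ (six n).ncard := by
      rw [← Set.ncard_coe_finset]
      apply Set.ncard_le_ncard_of_injOn (fun t => 6 * t + 5) (ht := six_finite n)
      · intro t ht
        rw [Finset.mem_coe, Finset.mem_filter] at ht
        obtain ⟨ht1, hg1, hg2⟩ := ht
        obtain ⟨a1, a2⟩ := h1 t ht1
        have e1 : F t = (6 * t + 5) * ((6 * t + 5) + 2) := rfl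
        refine ⟨a1, a2, ?_, ?_⟩
        · rw [← e1]; exact hg1
        · intro p hp hd
          rw [← e1] at hd
          have b1 := hg2 p hp hd
          have hp0 : (0 : ℝ) < p := by exact_mod_cast hp.pos
          have b2 : Real.log n < Real.log ((p : ℝ) ^ 100000) := by
            rw [Real.log_pow]
            have b3 : Real.log n ≤ Real.log (2 * N) := by
              apply Real.log_le_log
              · have : 1 ≤ n := by omega
                exact_mod_cast this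
              · exact_mod_cast hn2.le
            rw [Real.log_mul (by norm_num) hNr.ne'] at b3
            have b4 : wn N = 899 / 2000 * Real.log N / 30000 := rfl
            rw [b4] at b1
            have := Real.log_two_lt_d9
            push_cast
            linarith
          have hn0 : (0 : ℝ) < n := by
            have : 1 ≤ n := by omega
            exact_mod_cast this
          have b5 := (Real.log_lt_log_iff hn0 (by positivity)).mp b2
          exact_mod_cast b5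
      · intro a _ b _ hab
        have : 6 * a + 5 = 6 * b + 5 := hab
        omega
    have h6 : (((Ico s (s + N ^ 2 / 8)).filter (Good6 (wn N))).card : ℝ) ≤ ((six n).ncard : ℝ) := by
      exact_mod_cast h5
    have hnr : (N : ℝ) ≤ n := by exact_mod_cast hn1
    have hnr2 : (n : ℝ) ≤ 2 * N := by exact_mod_cast hn2.le
    have h7 : Real.log N ≤ Real.log ((n : ℝ) + 1) := Real.log_le_log hNr (by linarith)
    have h8 : c3 / 4 * (n : ℝ) ^ 2 / (Real.log (n + 1)) ^ 2 ≤ c3 * (N : ℝ) ^ 2 / (Real.log N) ^ 2 := by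
      have a1 : c3 / 4 * (n : ℝ) ^ 2 ≤ c3 * (N : ℝ) ^ 2 := by
        have : (n : ℝ) ^ 2 ≤ (2 * N) ^ 2 := pow_le_pow_left₀ (by linarith) hnr2 2
        nlinarith
      have a2 : (Real.log N) ^ 2 ≤ (Real.log (n + 1)) ^ 2 := pow_le_pow_left₀ (by linarith) h7 2
      exact div_le_div₀ (by positivity) a1 (by positivity) a2
    linarith
  have hdisj : (Ex : Set ℕ).PairwiseDisjoint J := by
    have key : ∀ a ∈ Ex, ∀ b ∈ Ex, a < b → Disjoint (J a) (J b) := by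
      intro a ha b hb hab
      rw [hEx, Finset.mem_filter, Finset.mem_Ico] at ha hb
      have h1 : (a + 1) ^ 3 ≤ b ^ 3 := Nat.pow_le_pow_left hab 3
      have h2 : N ^ 2 ≤ a ^ 2 := Nat.pow_le_pow_left ha.1.1 2
      have e3 : (a + 1) ^ 3 = a ^ 3 + 3 * a ^ 2 + 3 * a + 1 := by ring
      rw [Finset.disjoint_left]
      intro x hx hy
      simp only [hJ, Finset.mem_Ico] at hx hy
      omega
    intro a ha b hb hab
    rcases lt_or_gt_of_ne hab with h | h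
    · exact key a ha b hb h
    · exact (key b hb a ha h).symm
  have hcard : Ex.card * (N ^ 2 / 8) ≤ Sb.card := by
    calc Ex.card * (N ^ 2 / 8) = ∑ n ∈ Ex, (J n).card := by
          have : ∀ n ∈ Ex, (J n).card = N ^ 2 / 8 := by
            intro n _
            simp only [hJ, Nat.card_Ico]
            omega
          rw [Finset.sum_congr rfl this, Finset.sum_const, smul_eq_mul]
      _ = (Ex.biUnion J).card := (Finset.card_biUnion hdisj).symm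
      _ ≤ Sb.card := Finset.card_le_card hsub
  have h9 : (Ex.card : ℝ) * ((N ^ 2 / 8 : ℕ) : ℝ) ≤ (N : ℝ) ^ (2.745 : ℝ) := by
    refine le_trans ?_ (hF2 N hNN2)
    exact_mod_cast hcard
  have h10 : (Ex.card : ℝ) * ((N : ℝ) ^ 2 / 16) ≤ (N : ℝ) ^ (2.745 : ℝ) :=
    (mul_le_mul_of_nonneg_left hL1 (Nat.cast_nonneg _)).trans h9
  have h11 : (N : ℝ) ^ (2.745 : ℝ) = (N : ℝ) ^ (0.745 : ℝ) * (N : ℝ) ^ 2 := by
    rw [← Real.rpow_natCast (N : ℝ) 2, ← Real.rpow_add hNr]; norm_num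
  rw [h11] at h10
  have hN2 : 0 < (N : ℝ) ^ 2 := by positivity
  have h12 : (Ex.card : ℝ) * (N : ℝ) ^ 2 ≤ (16 * (N : ℝ) ^ (0.745 : ℝ)) * (N : ℝ) ^ 2 := by
    linarith
  exact le_of_mul_le_mul_right h12 hN2

/-- from dyadic blocks to all `N`. -/
theorem F3_all (P : ℕ → Prop) [DecidablePred P] (N0 : ℕ)
    (h : ∀ N : ℕ, N0 ≤ N → (((Ico N (2 * N)).filter P).card : ℝ) ≤ 16 * (N : ℝ) ^ (0.745 : ℝ)) :
    ∀ N : ℕ, 1 ≤ N → (((Icc 1 N).filter P).card : ℝ) ≤ (2 * N0 + 42) * (N : ℝ) ^ (3 / 4 : ℝ) := by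
  intro N
  induction N using Nat.strong_induction_on with
  | _ N ih =>
    intro hN
    have hNr : (1 : ℝ) ≤ N := by exact_mod_cast hN
    have hpow : (1 : ℝ) ≤ (N : ℝ) ^ (3 / 4 : ℝ) := Real.one_le_rpow hNr (by norm_num)
    rcases Nat.lt_or_ge N (2 * N0 + 4) with hc | hc
    · have h1 : ((Icc 1 N).filter P).card ≤ N := by
        have := Finset.card_filter_le (Icc 1 N) P
        rwa [Nat.card_Icc, Nat.add_sub_cancel] at this
      have h2 : (((Icc 1 N).filter P).card : ℝ) ≤ N := by exact_mod_cast h1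
      have h3 : (N : ℝ) ≤ 2 * N0 + 42 := by
        have : N ≤ 2 * N0 + 42 := by omega
        exact_mod_cast this
      have h4 : (0 : ℝ) ≤ 2 * N0 + 42 := by positivity
      nlinarith
    · have hlt : N / 2 < N := by omega
      have h1 := ih (N / 2) hlt (by omega)
      have h2 := h (N / 2 + 1) (by omega)
      have hsub : (Icc 1 N).filter P ⊆ (Icc 1 (N / 2)).filter P
          ∪ (Ico (N / 2 + 1) (2 * (N / 2 + 1))).filter P := by
        intro n hn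
        rw [Finset.mem_filter, Finset.mem_Icc] at hn
        rw [Finset.mem_union, Finset.mem_filter, Finset.mem_filter, Finset.mem_Icc, Finset.mem_Ico]
        by_cases hh : n ≤ N / 2
        · exact Or.inl ⟨⟨hn.1.1, hh⟩, hn.2⟩
        · exact Or.inr ⟨⟨by omega, by omega⟩, hn.2⟩
      have h3 := (Finset.card_le_card hsub).trans (Finset.card_union_le _ _)
      have h4 : (((Icc 1 N).filter P).card : ℝ) ≤ (((Icc 1 (N / 2)).filter P).card : ℝ)
          + (((Ico (N / 2 + 1) (2 * (N / 2 + 1))).filter P).card : ℝ) := by exact_mod_cast h3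
      have h5 : (((N / 2 : ℕ) : ℝ)) ^ (3 / 4 : ℝ) ≤ 0.6 * (N : ℝ) ^ (3 / 4 : ℝ) := by
        have a1 : ((N / 2 : ℕ) : ℝ) ≤ (1 / 2) * N := by
          have : 2 * (N / 2) ≤ N := by omega
          have : (2 : ℝ) * ((N / 2 : ℕ) : ℝ) ≤ N := by exact_mod_cast this
          linarith
        have a2 : (((N / 2 : ℕ) : ℝ)) ^ (3 / 4 : ℝ) ≤ ((1 / 2) * (N : ℝ)) ^ (3 / 4 : ℝ) :=
          Real.rpow_le_rpow (Nat.cast_nonneg _) a1 (by norm_num)
        rw [Real.mul_rpow (by norm_num) (by linarith)] at a2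
        have a3 : (1 / 2 : ℝ) ^ (3 / 4 : ℝ) ≤ 0.6 := by
          have b1 : (1 / 2 : ℝ) ^ (3 / 4 : ℝ) = ((1 / 2 : ℝ) ^ 3) ^ (1 / 4 : ℝ) := by
            rw [← Real.rpow_natCast, ← Real.rpow_mul (by norm_num)]; norm_num
          have b2 : (0.6 : ℝ) = ((0.6 : ℝ) ^ 4) ^ (1 / 4 : ℝ) := by
            rw [← Real.rpow_natCast, ← Real.rpow_mul (by norm_num)]; norm_num
          rw [b1, b2]
          apply Real.rpow_le_rpow (by norm_num) (by norm_num) (by norm_num)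
        exact a2.trans (mul_le_mul_of_nonneg_right a3 (by linarith))
      have h6 : (((N / 2 + 1 : ℕ) : ℝ)) ^ (0.745 : ℝ) ≤ (N : ℝ) ^ (3 / 4 : ℝ) := by
        have a1 : ((N / 2 + 1 : ℕ) : ℝ) ≤ N := by
          have : N / 2 + 1 ≤ N := by omega
          exact_mod_cast this
        calc (((N / 2 + 1 : ℕ) : ℝ)) ^ (0.745 : ℝ) ≤ (N : ℝ) ^ (0.745 : ℝ) :=
              Real.rpow_le_rpow (Nat.cast_nonneg _) a1 (by norm_num)
          _ ≤ (N : ℝ) ^ (3 / 4 : ℝ) := Real.rpow_le_rpow_of_exponent_le hNr (by norm_num)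
      have h7 : (0 : ℝ) ≤ 2 * N0 + 42 := by positivity
      have h8 : (2 * (N0 : ℝ) + 42) * (((N / 2 : ℕ) : ℝ)) ^ (3 / 4 : ℝ)
          ≤ (2 * N0 + 42) * (0.6 * (N : ℝ) ^ (3 / 4 : ℝ)) := mul_le_mul_of_nonneg_left h5 h7
      have h9 : (0 : ℝ) ≤ N0 := Nat.cast_nonneg _
      have h10 : 0 ≤ (N0 : ℝ) * (N : ℝ) ^ (3 / 4 : ℝ) := by positivity
      nlinarith

open Classical in
/-- The final theorem from the pieces. -/
theorem F3_final (hV6 : S_V6) (hB6 : S_B6) (hC4 : S_C4) (hD8 : S_D8) (hE1 : S_E1) (hE2 : S_E2)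
    (hE3 : S_E3) (hE4 : S_E4) (hE5 : S_E5) :
    ∃ c C : ℝ, 0 < c ∧ ∀ N : ℕ, 1 ≤ N →
      (((Icc 1 N).filter (fun n : ℕ =>
        ((six n).ncard : ℝ) < c * (n : ℝ) ^ 2 / (Real.log (n + 1)) ^ 2)).card : ℝ)
        ≤ C * (N : ℝ) ^ (3 / 4 : ℝ) := by
  obtain ⟨C0, ℓ0, hC0, -, h8⟩ := hD8
  obtain ⟨c3, hc3, N1, -, h1⟩ := F1_main hE1 hE2 hE3 hE4 hE5 hC0 (fun ℓ hℓ => (h8 ℓ hℓ).2)
  obtain ⟨N2, -, h2⟩ := F2_main hV6 hB6 hC4 hC0 (fun ℓ hℓ => (h8 ℓ hℓ).1)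
  obtain ⟨N0, -, h3⟩ := F3_block hc3 N1 N2 h1 h2
  exact ⟨c3 / 4, 2 * N0 + 42, by positivity, F3_all _ N0 h3⟩

end Pool.Agent.TwA
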