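import Mathlib
import Pool.Agent.Lib.MP_d610d0_nt.AS.Stm

set_option autoImplicit false

namespace Pool.Agent.TwA

open Finset MeasureTheory
open Pool.Agent.Lib.MP_d610d0_nt

private lemma V1_norm (x : ℝ) : ‖ex x‖ = 1 := by
  unfold ex
  have : (2 * (Real.pi : ℂ) * Complex.I * (x : ℂ)) = ((2 * Real.pi * x : ℝ) : ℂ) * Complex.I := by
    push_cast; ring
  rw [this, Complex.norm_exp_ofReal_mul_I]

private lemma V1_pow (β : ℝ) (i : ℕ) : ex (β * i) = ex β ^ i := by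
  unfold ex
  rw [← Complex.exp_nat_mul]
  congr 1
  push_cast
  ring

private lemma V1_den (β : ℝ) (hβ : |β| ≤ 1 / 2) : 4 * |β| ≤ ‖ex β - 1‖ := by
  unfold ex
  have h0 : (2 * (Real.pi : ℂ) * Complex.I * (β : ℂ)) = Complex.I * ((2 * Real.pi * β : ℝ) : ℂ) := by
    push_cast; ring
  rw [h0, Complex.norm_exp_I_mul_ofReal_sub_one]
  have h1 : (2 * Real.pi * β / 2) = Real.pi * β := by ring
  rw [h1, norm_mul, Real.norm_eq_abs, Real.norm_eq_abs, abs_of_pos (by norm_num : (0 : ℝ) < 2)]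
  have h2 : |Real.sin (Real.pi * β)| = Real.sin (Real.pi * |β|) := by
    have hp : 0 ≤ Real.pi * |β| := mul_nonneg Real.pi_pos.le (abs_nonneg _)
    have hp2 : Real.pi * |β| ≤ Real.pi := by nlinarith [Real.pi_pos, abs_nonneg β]
    have h3 : 0 ≤ Real.sin (Real.pi * |β|) := Real.sin_nonneg_of_nonneg_of_le_pi hp hp2
    rcases abs_cases β with ⟨h, _⟩ | ⟨h, _⟩
    · rw [h] at h3 ⊢
      exact abs_of_nonneg h3
    · rw [h] at h3 ⊢
      rw [mul_neg, Real.sin_neg] at h3 ⊢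
      exact abs_of_nonpos (by linarith)
  rw [h2]
  have h4 := Real.mul_le_sin (x := Real.pi * |β|) (mul_nonneg Real.pi_pos.le (abs_nonneg _))
    (by nlinarith [Real.pi_pos])
  have h5 : 2 / Real.pi * (Real.pi * |β|) = 2 * |β| := by
    field_simp
  rw [h5] at h4
  linarith

theorem p_V1 : S_V1 := by
  intro β hβ0 hβ L
  have hpos : 0 < |β| := abs_pos.mpr hβ0
  have hden := V1_den β hβ
  have hne : ex β ≠ 1 := by
    intro h
    rw [h, sub_self, norm_zero] at hden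
    linarith
  have hs : ∑ i ∈ range L, ex (β * i) = (ex β ^ L - 1) / (ex β - 1) := by
    rw [← geom_sum_eq hne L]
    exact Finset.sum_congr rfl (fun i _ => V1_pow β i)
  rw [hs, norm_div]
  have hnum : ‖ex β ^ L - 1‖ ≤ 2 := by
    calc ‖ex β ^ L - 1‖ ≤ ‖ex β ^ L‖ + ‖(1 : ℂ)‖ := norm_sub_le _ _
      _ = 2 := by rw [norm_pow, V1_norm]; norm_num
  have hd0 : 0 < ‖ex β - 1‖ := lt_of_lt_of_le (by linarith) hden
  rw [div_le_div_iff₀ hd0 (by linarith)]
  nlinarith [norm_nonneg (ex β ^ L - 1)]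

end Pool.Agent.TwA
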