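import Pool.Agent.Lib.MP_d610d0_nt.AS.Stm

set_option autoImplicit false

namespace Pool.Agent.TwA

open Finset MeasureTheory
open Pool.Agent.Lib.MP_d610d0_nt

private lemma V2_conj (x : ℝ) : (starRingEnd ℂ) (ex x) = ex (-x) := by
  unfold ex
  rw [← Complex.exp_conj]
  congr 1
  simp only [map_mul, Complex.conj_ofReal, Complex.conj_I, map_ofNat]
  push_cast
  ring

private lemma V2_add (x y : ℝ) : ex x * ex y = ex (x + y) := by
  unfold ex
  rw [← Complex.exp_add]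
  congr 1
  push_cast
  ring

theorem p_V2 : S_V2 := by
  intro S u β X K hK hS
  set f : ℕ → ℕ → ℝ := fun d d' => ‖∑ s ∈ range X, ex ((β d - β d') * s)‖ with hf
  have hsym : ∀ d d', f d d' = f d' d := by
    intro d d'
    simp only [hf]
    rw [← Complex.norm_conj, map_sum]
    congr 1
    refine Finset.sum_congr rfl fun s _ => ?_
    rw [V2_conj]
    congr 1
    ring
  have hdiag : ∀ d, f d d = X := by
    intro d
    simp only [hf, sub_self, zero_mul]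
    have : ex 0 = 1 := by unfold ex; simp
    rw [this]
    simp
  have hrow : ∀ d ∈ S, ∑ d' ∈ S, f d d' ≤ X + K := by
    intro d hd
    rw [← Finset.add_sum_erase S _ hd, hdiag]
    exact add_le_add le_rfl (hS d hd)
  -- expansion
  have hexp : ((∑ s ∈ range X, ‖∑ d ∈ S, u d * ex (β d * s)‖ ^ 2 : ℝ) : ℂ) =
      ∑ d ∈ S, ∑ d' ∈ S, u d * (starRingEnd ℂ) (u d') * ∑ s ∈ range X, ex ((β d - β d') * s) := by
    push_cast
    have h1 : ∀ s ∈ range X, ((‖∑ d ∈ S, u d * ex (β d * s)‖ : ℝ) : ℂ) ^ 2 =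
        ∑ d ∈ S, ∑ d' ∈ S, u d * (starRingEnd ℂ) (u d') * ex ((β d - β d') * s) := by
      intro s _
      rw [← Complex.mul_conj', map_sum, Finset.sum_mul_sum]
      refine Finset.sum_congr rfl fun d _ => Finset.sum_congr rfl fun d' _ => ?_
      rw [map_mul, V2_conj]
      have : ex ((β d - β d') * s) = ex (β d * s) * ex (-(β d' * s)) := by
        rw [V2_add]; congr 1; ring
      rw [this]
      ring
    rw [Finset.sum_congr rfl h1, Finset.sum_comm]
    refine Finset.sum_congr rfl fun d _ => ?_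
    rw [Finset.sum_comm]
    refine Finset.sum_congr rfl fun d' _ => ?_
    rw [Finset.mul_sum]
  have h2 : (∑ s ∈ range X, ‖∑ d ∈ S, u d * ex (β d * s)‖ ^ 2 : ℝ) ≤
      ∑ d ∈ S, ∑ d' ∈ S, ‖u d‖ * ‖u d'‖ * f d d' := by
    have h3 : (∑ s ∈ range X, ‖∑ d ∈ S, u d * ex (β d * s)‖ ^ 2 : ℝ) =
        ‖((∑ s ∈ range X, ‖∑ d ∈ S, u d * ex (β d * s)‖ ^ 2 : ℝ) : ℂ)‖ := by
      rw [Complex.norm_real, Real.norm_of_nonneg]
      exact Finset.sum_nonneg fun _ _ => by positivity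
    rw [h3, hexp]
    refine (norm_sum_le _ _).trans (Finset.sum_le_sum fun d _ => ?_)
    refine (norm_sum_le _ _).trans (Finset.sum_le_sum fun d' _ => ?_)
    rw [norm_mul, norm_mul, Complex.norm_conj]
  refine h2.trans ?_
  have h4 : ∑ d ∈ S, ∑ d' ∈ S, ‖u d‖ * ‖u d'‖ * f d d' ≤
      ∑ d ∈ S, ∑ d' ∈ S, (‖u d‖ ^ 2 / 2 * f d d' + ‖u d'‖ ^ 2 / 2 * f d d') := by
    refine Finset.sum_le_sum fun d _ => Finset.sum_le_sum fun d' _ => ?_
    have h5 : 0 ≤ f d d' := norm_nonneg _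
    nlinarith [sq_nonneg (‖u d‖ - ‖u d'‖), mul_nonneg (sq_nonneg (‖u d‖ - ‖u d'‖)) h5]
  refine h4.trans ?_
  have h6 : ∑ d ∈ S, ∑ d' ∈ S, (‖u d‖ ^ 2 / 2 * f d d' + ‖u d'‖ ^ 2 / 2 * f d d') =
      ∑ d ∈ S, ‖u d‖ ^ 2 * ∑ d' ∈ S, f d d' := by
    simp only [Finset.sum_add_distrib]
    have h7 : ∑ d ∈ S, ∑ d' ∈ S, ‖u d'‖ ^ 2 / 2 * f d d' =
        ∑ d ∈ S, ∑ d' ∈ S, ‖u d‖ ^ 2 / 2 * f d d' := by
      rw [Finset.sum_comm]
      refine Finset.sum_congr rfl fun d _ => Finset.sum_congr rfl fun d' _ => ?_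
      rw [hsym]
    rw [h7, ← Finset.sum_add_distrib]
    refine Finset.sum_congr rfl fun d _ => ?_
    rw [← Finset.sum_add_distrib, Finset.mul_sum]
    refine Finset.sum_congr rfl fun d' _ => ?_
    ring
  rw [h6, Finset.mul_sum]
  refine Finset.sum_le_sum fun d hd => ?_
  rw [mul_comm]
  exact mul_le_mul_of_nonneg_right (hrow d hd) (by positivity)

end Pool.Agent.TwA
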