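import Mathlib
import Pool.Agent.Lib.MP_d610d0_nt.AS.Stm

/-! Piece V3: one line of frequencies. -/

set_option autoImplicit false

namespace Pool.Agent.TwA

open Finset MeasureTheory
open Pool.Agent.Lib.MP_d610d0_nt

private lemma V3_harm (D : ℕ) : ∑ h ∈ Icc 1 D, ((h : ℕ) : ℝ)⁻¹ ≤ 1 + Real.log D := by
  have := harmonic_le_one_add_log D
  rw [harmonic_eq_sum_Icc] at this
  push_cast at this
  exact this

private lemma V3_part (D : ℕ) (A : Finset ℕ) (g : ℕ → ℕ) (hg : ∀ a ∈ A, g a ∈ Icc 1 D)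
    (hi : Set.InjOn g A) : ∑ a ∈ A, ((g a : ℕ) : ℝ)⁻¹ ≤ 1 + Real.log D := by
  have e : ∑ a ∈ A, ((g a : ℕ) : ℝ)⁻¹ = ∑ h ∈ A.image g, ((h : ℕ) : ℝ)⁻¹ := by
    rw [Finset.sum_image]
    exact hi
  rw [e]
  refine le_trans (Finset.sum_le_sum_of_subset_of_nonneg ?_ ?_) (V3_harm D)
  · intro h hh
    obtain ⟨a, ha, rfl⟩ := Finset.mem_image.1 hh
    exact hg a ha
  · intro i _ _
    positivity

private lemma V3_sum (D d : ℕ) (S : Finset ℕ) (hS : S ⊆ Icc 1 D) (hd : d ∈ S) :
    ∑ d' ∈ S.erase d, (|(d : ℝ) - d'|)⁻¹ ≤ 2 * (1 + Real.log D) := by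
  rw [← Finset.sum_filter_add_sum_filter_not (S.erase d) (fun d' => d' < d)]
  have hdD := Finset.mem_Icc.1 (hS hd)
  have h1 : ∑ d' ∈ (S.erase d).filter (fun d' => d' < d), (|(d : ℝ) - d'|)⁻¹ ≤ 1 + Real.log D := by
    have e : ∑ d' ∈ (S.erase d).filter (fun d' => d' < d), (|(d : ℝ) - d'|)⁻¹ =
        ∑ d' ∈ (S.erase d).filter (fun d' => d' < d), (((d - d' : ℕ)) : ℝ)⁻¹ := by
      refine Finset.sum_congr rfl fun d' hd' => ?_
      have h := (Finset.mem_filter.1 hd').2
      rw [Nat.cast_sub h.le, abs_of_pos]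
      have : (d' : ℝ) < d := by exact_mod_cast h
      linarith
    rw [e]
    refine V3_part D _ (fun d' => d - d') ?_ ?_
    · intro a ha
      rw [Finset.mem_filter, Finset.mem_erase] at ha
      rw [Finset.mem_Icc]
      omega
    · intro a ha b hb hab
      rw [Finset.mem_coe, Finset.mem_filter, Finset.mem_erase] at ha hb
      simp only at hab
      omega
  have h2 : ∑ d' ∈ (S.erase d).filter (fun d' => ¬ d' < d), (|(d : ℝ) - d'|)⁻¹ ≤
      1 + Real.log D := by
    have e : ∑ d' ∈ (S.erase d).filter (fun d' => ¬ d' < d), (|(d : ℝ) - d'|)⁻¹ =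
        ∑ d' ∈ (S.erase d).filter (fun d' => ¬ d' < d), (((d' - d : ℕ)) : ℝ)⁻¹ := by
      refine Finset.sum_congr rfl fun d' hd' => ?_
      rw [Finset.mem_filter, Finset.mem_erase] at hd'
      have h : d < d' := by omega
      rw [Nat.cast_sub h.le, abs_sub_comm, abs_of_pos]
      have : (d : ℝ) < d' := by exact_mod_cast h
      linarith
    rw [e]
    refine V3_part D _ (fun d' => d' - d) ?_ ?_
    · intro a ha
      rw [Finset.mem_filter, Finset.mem_erase] at ha
      have := Finset.mem_Icc.1 (hS ha.1.2)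
      rw [Finset.mem_Icc]
      omega
    · intro a ha b hb hab
      rw [Finset.mem_coe, Finset.mem_filter, Finset.mem_erase] at ha hb
      simp only at hab
      omega
  linarith

theorem p_V3 (hV1 : S_V1) (hV2 : S_V2) : S_V3 := by
  intro D c X σ hσ hD hc S hS h2 u
  have hc0 : (0 : ℝ) < c := by exact_mod_cast hc
  have hD0 : (0 : ℝ) < D := by exact_mod_cast hD
  have hlog : 0 ≤ Real.log D := Real.log_nonneg (by exact_mod_cast hD)
  have habs : |σ| = 1 := by
    rcases hσ with h | h <;> simp [h]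
  refine hV2 S u (fun d => σ * c / d) X ((D : ℝ) ^ 2 / c * (1 + Real.log D)) (by positivity) ?_
  intro d hd
  have hdD := Finset.mem_Icc.1 (hS hd)
  have hd0 : (0 : ℝ) < d := by exact_mod_cast hdD.1
  have hdD' : (d : ℝ) ≤ D := by exact_mod_cast hdD.2
  have hterm : ∀ d' ∈ S.erase d, ‖∑ s ∈ range X, ex ((σ * c / d - σ * c / d') * s)‖ ≤
      (D : ℝ) ^ 2 / (2 * c) * (|(d : ℝ) - d'|)⁻¹ := by
    intro d' hd'
    rw [Finset.mem_erase] at hd'
    obtain ⟨hne, hd'S⟩ := hd'
    have hdD2 := Finset.mem_Icc.1 (hS hd'S)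
    have hd0' : (0 : ℝ) < d' := by exact_mod_cast hdD2.1
    have hdD2' : (d' : ℝ) ≤ D := by exact_mod_cast hdD2.2
    have hne' : (d : ℝ) - d' ≠ 0 := by
      intro h
      apply hne
      have : (d : ℝ) = d' := by linarith
      exact_mod_cast this.symm
    have hpos : 0 < |(d : ℝ) - d'| := abs_pos.2 hne'
    have hβ : σ * c / d - σ * c / d' = σ * (c * (d' - d) / (d * d')) := by
      field_simp
    have hβabs : |σ * c / d - σ * c / d'| = c * |(d : ℝ) - d'| / (d * d') := by
      rw [hβ, abs_mul, habs, one_mul, abs_div, abs_mul, abs_of_pos hc0, abs_of_pos (by positivity :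
        (0 : ℝ) < d * d'), abs_sub_comm]
    have hβ0 : σ * c / d - σ * c / d' ≠ 0 := by
      rw [← abs_pos, hβabs]
      positivity
    have hle : |σ * c / d - σ * c / d'| ≤ 1 / 2 := by
      have e : |σ * c / d - σ * c / d'| = |(c : ℝ) / d - c / d'| := by
        have : σ * c / d - σ * c / d' = σ * (c / d - c / d') := by ring
        rw [this, abs_mul, habs, one_mul]
      rw [e, abs_le]
      have b1 : (c : ℝ) / d ≤ 1 / 2 := by
        rw [div_le_div_iff₀ hd0 (by norm_num)]
        have : (2 * c : ℕ) ≤ d := h2 d hd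
        have : (2 * c : ℝ) ≤ d := by exact_mod_cast this
        linarith
      have b2 : (c : ℝ) / d' ≤ 1 / 2 := by
        rw [div_le_div_iff₀ hd0' (by norm_num)]
        have : (2 * c : ℕ) ≤ d' := h2 d' hd'S
        have : (2 * c : ℝ) ≤ d' := by exact_mod_cast this
        linarith
      have b3 : 0 < (c : ℝ) / d := by positivity
      have b4 : 0 < (c : ℝ) / d' := by positivity
      constructor <;> linarith
    refine le_trans (hV1 _ hβ0 hle X) ?_
    rw [hβabs]
    have e1 : 1 / (2 * ((c : ℝ) * |(d : ℝ) - d'| / (d * d'))) =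
        (d * d') / (2 * c) * (|(d : ℝ) - d'|)⁻¹ := by
      field_simp
    rw [e1]
    refine mul_le_mul_of_nonneg_right ?_ (by positivity)
    refine div_le_div_of_nonneg_right ?_ (by positivity)
    nlinarith
  refine le_trans (Finset.sum_le_sum hterm) ?_
  rw [← Finset.mul_sum]
  have hs := V3_sum D d S hS hd
  calc (D : ℝ) ^ 2 / (2 * c) * ∑ d' ∈ S.erase d, (|(d : ℝ) - d'|)⁻¹
      ≤ (D : ℝ) ^ 2 / (2 * c) * (2 * (1 + Real.log D)) :=
        mul_le_mul_of_nonneg_left hs (by positivity)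
    _ = (D : ℝ) ^ 2 / c * (1 + Real.log D) := by
        field_simp

end Pool.Agent.TwA
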