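import Pool.Agent.Lib.MP_d610d0_nt.AS.Stm

set_option autoImplicit false

namespace Pool.Agent.TwA

open Finset MeasureTheory
open Pool.Agent.Lib.MP_d610d0_nt

private theorem V4_pow (x : ℝ) (b : ℕ) : ex (b * x) = ex x ^ b := by
  unfold ex
  rw [← Complex.exp_nat_mul]
  congr 1
  push_cast
  ring

private theorem V4_one (x : ℝ) : ex x = 1 ↔ ∃ n : ℤ, x = n := by
  unfold ex
  rw [Complex.exp_eq_one_iff]
  have h2 : (2 * (Real.pi : ℂ) * Complex.I) ≠ 0 := Complex.two_pi_I_ne_zero
  constructor
  · rintro ⟨n, hn⟩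
    refine ⟨n, ?_⟩
    have h : (2 * (Real.pi : ℂ) * Complex.I) * ((x : ℂ) - (n : ℂ)) = 0 := by
      linear_combination hn
    have h3 := (mul_eq_zero.mp h).resolve_left h2
    have h4 : (x : ℂ) = ((n : ℝ) : ℂ) := by
      push_cast
      exact sub_eq_zero.mp h3
    exact_mod_cast h4
  · rintro ⟨n, hn⟩
    refine ⟨n, ?_⟩
    rw [hn]
    push_cast
    ring

theorem p_V4 : S_V4 := by
  intro d a t had
  have hd : 0 < d := by omega
  have hdR : (d : ℝ) ≠ 0 := by positivity
  have hdC : (d : ℂ) ≠ 0 := by exact_mod_cast hd.ne'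
  have hsum : ∑ b ∈ range d, ex (b * ((t : ℝ) - a) / d) = ∑ b ∈ range d, ex (((t : ℝ) - a) / d) ^ b := by
    refine Finset.sum_congr rfl (fun b _ => ?_)
    rw [← V4_pow]
    congr 1
    ring
  rw [hsum]
  have hiff : ex (((t : ℝ) - a) / d) = 1 ↔ t % d = a := by
    rw [V4_one]
    constructor
    · rintro ⟨n, hn⟩
      rw [div_eq_iff hdR] at hn
      have h1 : (t : ℤ) = n * d + a := by
        have : (t : ℝ) = n * d + a := by linarith
        exact_mod_cast this
      have h2 : ((t % d : ℕ) : ℤ) = a := by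
        push_cast
        rw [h1, add_comm, Int.add_mul_emod_self_right]
        exact Int.emod_eq_of_lt (by positivity) (by exact_mod_cast had)
      exact_mod_cast h2
    · intro h
      refine ⟨((t / d : ℕ) : ℤ), ?_⟩
      rw [div_eq_iff hdR]
      have h1 := Nat.div_add_mod t d
      rw [h] at h1
      have h2 : ((d * (t / d) + a : ℕ) : ℝ) = (t : ℝ) := by rw [h1]
      rw [Int.cast_natCast]
      rw [Nat.cast_add, Nat.cast_mul] at h2
      linarith
  by_cases h : t % d = a
  · have hz := hiff.mpr h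
    rw [hz]
    simp only [one_pow, Finset.sum_const, Finset.card_range, nsmul_eq_mul, mul_one]
    unfold ind
    rw [if_pos h]
    push_cast
    field_simp
  · have hz : ex (((t : ℝ) - a) / d) ≠ 1 := fun h' => h (hiff.mp h')
    rw [geom_sum_eq hz]
    have hp : ex (((t : ℝ) - a) / d) ^ d = 1 := by
      rw [← V4_pow, V4_one]
      refine ⟨(t : ℤ) - a, ?_⟩
      push_cast
      field_simp
    rw [hp]
    unfold ind
    rw [if_neg h]
    simp

end Pool.Agent.TwA
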