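import Pool.Agent.Lib.MP_d610d0_nt.AS.Stm

/-!
Piece V5: Fourier expansion of the discrepancy.
-/

set_option autoImplicit false

namespace Pool.Agent.TwA

open Finset MeasureTheory
open Pool.Agent.Lib.MP_d610d0_nt

private theorem V5_add (x y : ℝ) : ex (x + y) = ex x * ex y := by
  unfold ex
  rw [← Complex.exp_add]
  congr 1
  push_cast
  ring

private theorem V5_zero : ex 0 = 1 := by
  unfold ex
  simp

private theorem V5_nat (n : ℕ) : ex (n : ℝ) = 1 := by
  unfold ex
  have h := Complex.exp_nat_mul_two_pi_mul_I n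
  rw [← h]
  congr 1
  push_cast
  ring

private theorem V5_neg_nat (n : ℕ) : ex (-(n : ℝ)) = 1 := by
  have h : ex (-(n : ℝ)) * ex (n : ℝ) = 1 := by
    rw [← V5_add, neg_add_cancel, V5_zero]
  rwa [V5_nat, mul_one] at h

private theorem V5_norm (x : ℝ) : ‖ex x‖ = 1 := by
  unfold ex
  have h : (2 * Real.pi * Complex.I * x : ℂ) = ((2 * Real.pi * x : ℝ) : ℂ) * Complex.I := by
    push_cast
    ring
  rw [h, Complex.norm_exp_ofReal_mul_I]

private noncomputable def V5_u (L : ℕ) (c : ℕ → ℕ → ℝ) (d b : ℕ) : ℂ :=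
  (1 / (d : ℂ)) * (∑ a ∈ range d, (c d a : ℂ) * ex (-((a : ℝ) * b / d))) *
    ∑ i ∈ range L, ex ((b : ℝ) / d * i)

private theorem V5_one (hV4 : S_V4) (L : ℕ) (c : ℕ → ℕ → ℝ) (d s : ℕ) (hd : 1 ≤ d) :
    ((((∑ i ∈ range L, ∑ a ∈ range d, c d a * ind d a (s + i)) -
      L * ∑ a ∈ range d, c d a / d : ℝ)) : ℂ) =
      ∑ b ∈ Ico 1 d, V5_u L c d b * ex ((b : ℝ) / d * s) := by
  have hd0 : (d : ℂ) ≠ 0 := by exact_mod_cast (by omega : d ≠ 0)
  have hd0' : (d : ℝ) ≠ 0 := by exact_mod_cast (by omega : d ≠ 0)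
  have h1 : (((∑ i ∈ range L, ∑ a ∈ range d, c d a * ind d a (s + i) : ℝ)) : ℂ) =
      ∑ b ∈ range d, V5_u L c d b * ex ((b : ℝ) / d * s) := by
    push_cast
    have h2 : ∀ i ∈ range L, ∀ a ∈ range d, (c d a : ℂ) * ((ind d a (s + i) : ℝ) : ℂ) =
        ∑ b ∈ range d, (1 / (d : ℂ)) * ((c d a : ℂ) * ex (-((a : ℝ) * b / d))) *
          ex ((b : ℝ) / d * i) * ex ((b : ℝ) / d * s) := by
      intro i _ a ha
      rw [hV4 d a (s + i) (Finset.mem_range.1 ha), Finset.mul_sum, Finset.mul_sum]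
      refine Finset.sum_congr rfl fun b _ => ?_
      have h3 : (b : ℝ) * (((s + i : ℕ) : ℝ) - a) / d =
          -((a : ℝ) * b / d) + ((b : ℝ) / d * i + (b : ℝ) / d * s) := by
        push_cast
        field_simp
        ring
      rw [h3, V5_add, V5_add]
      ring
    rw [Finset.sum_congr rfl fun i hi => Finset.sum_congr rfl fun a ha => h2 i hi a ha]
    -- exchange the sums
    have h4 : ∀ b ∈ range d, V5_u L c d b * ex ((b : ℝ) / d * s) =
        ∑ i ∈ range L, ∑ a ∈ range d, (1 / (d : ℂ)) * ((c d a : ℂ) * ex (-((a : ℝ) * b / d))) *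
          ex ((b : ℝ) / d * i) * ex ((b : ℝ) / d * s) := by
      intro b _
      unfold V5_u
      rw [Finset.mul_sum, Finset.mul_sum, Finset.sum_mul]
      refine Finset.sum_congr rfl fun i _ => ?_
      rw [Finset.sum_mul, Finset.sum_mul]
    rw [Finset.sum_congr rfl h4]
    symm
    rw [Finset.sum_comm]
    refine Finset.sum_congr rfl fun i _ => ?_
    exact Finset.sum_comm
  have h5 : ∑ b ∈ range d, V5_u L c d b * ex ((b : ℝ) / d * s) =
      V5_u L c d 0 * ex (((0 : ℕ) : ℝ) / d * s) +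
        ∑ b ∈ Ico 1 d, V5_u L c d b * ex ((b : ℝ) / d * s) := by
    rw [Finset.range_eq_Ico, Finset.sum_eq_sum_Ico_succ_bot (by omega)]
  have h6 : V5_u L c d 0 * ex (((0 : ℕ) : ℝ) / d * s) =
      (((L * ∑ a ∈ range d, c d a / d : ℝ)) : ℂ) := by
    unfold V5_u
    simp only [Nat.cast_zero, mul_zero, zero_div, zero_mul, neg_zero, V5_zero, mul_one,
      Finset.sum_const, Finset.card_range, nsmul_eq_mul]
    push_cast
    rw [Finset.mul_sum, Finset.mul_sum, Finset.sum_mul]
    refine Finset.sum_congr rfl fun a _ => ?_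
    field_simp
  rw [Complex.ofReal_sub, h1, h5, h6]
  ring

theorem p_V5 (hV1 : S_V1) (hV4 : S_V4) : S_V5 := by
  intro D L c
  refine ⟨V5_u L c, fun s => ?_, ?_⟩
  · have h1 : (∑ i ∈ range L, comb D c (s + i)) - L * cmean D c =
        ∑ d ∈ Icc 1 D, ((∑ i ∈ range L, ∑ a ∈ range d, c d a * ind d a (s + i)) -
          L * ∑ a ∈ range d, c d a / d) := by
      unfold comb cmean
      rw [Finset.sum_sub_distrib, Finset.sum_comm, ← Finset.mul_sum]
    rw [h1, Complex.ofReal_sum]
    refine Finset.sum_congr rfl fun d hd => ?_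
    exact V5_one hV4 L c d s (Finset.mem_Icc.1 hd).1
  · intro d b hb hbd
    have hd : 0 < d := by omega
    have hdR : (0 : ℝ) < d := by exact_mod_cast hd
    have hbR : (1 : ℝ) ≤ b := by exact_mod_cast hb
    have hbdR : (b : ℝ) + 1 ≤ d := by exact_mod_cast hbd
    have hA : ‖∑ a ∈ range d, (c d a : ℂ) * ex (-((a : ℝ) * b / d))‖ ≤ cw c d := by
      refine (norm_sum_le _ _).trans ?_
      unfold cw
      refine Finset.sum_le_sum fun a _ => ?_
      rw [norm_mul, V5_norm, mul_one, Complex.norm_real, Real.norm_eq_abs]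
    have hcw : 0 ≤ cw c d := Finset.sum_nonneg fun a _ => abs_nonneg _
    have hB : ‖∑ i ∈ range L, ex ((b : ℝ) / d * i)‖ ≤
        d / (2 * ((min b (d - b) : ℕ) : ℝ)) := by
      rcases le_or_gt (2 * b) d with h | h
      · have hm : min b (d - b) = b := min_eq_left (by omega)
        have h2 : (2 : ℝ) * b ≤ d := by exact_mod_cast h
        have hβ : |(b : ℝ) / d| = (b : ℝ) / d := abs_of_nonneg (by positivity)
        have hβ0 : (b : ℝ) / d ≠ 0 := by positivity
        have h3 := hV1 ((b : ℝ) / d) hβ0 (by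
          rw [hβ, div_le_iff₀ hdR]
          linarith) L
        rw [hβ] at h3
        rw [hm]
        refine h3.trans (le_of_eq ?_)
        field_simp
      · have hm : min b (d - b) = d - b := min_eq_right (by omega)
        have h2 : (d : ℝ) < 2 * b := by exact_mod_cast h
        have hc : ((d - b : ℕ) : ℝ) = (d : ℝ) - b := Nat.cast_sub hbd.le
        have hpos : (0 : ℝ) < d - b := by linarith
        have e1 : (b : ℝ) / d - 1 = -(((d : ℝ) - b) / d) := by
          field_simp
          ring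
        have hβ : |(b : ℝ) / d - 1| = ((d : ℝ) - b) / d := by
          rw [e1, abs_neg, abs_of_pos (by positivity)]
        have hβ0 : (b : ℝ) / d - 1 ≠ 0 := by
          rw [e1]
          exact neg_ne_zero.2 (by positivity)
        have h3 := hV1 ((b : ℝ) / d - 1) hβ0 (by
          rw [hβ, div_le_iff₀ hdR]
          linarith) L
        rw [hβ] at h3
        have e2 : ∑ i ∈ range L, ex (((b : ℝ) / d - 1) * i) =
            ∑ i ∈ range L, ex ((b : ℝ) / d * i) := by
          refine Finset.sum_congr rfl fun i _ => ?_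
          have e3 : ((b : ℝ) / d - 1) * i = (b : ℝ) / d * i + -(i : ℝ) := by ring
          rw [e3, V5_add, V5_neg_nat, mul_one]
        rw [e2] at h3
        rw [hm, hc]
        refine h3.trans (le_of_eq ?_)
        field_simp
    have hmin : (0 : ℝ) < ((min b (d - b) : ℕ) : ℝ) := by
      have : 0 < min b (d - b) := lt_min (by omega) (by omega)
      exact_mod_cast this
    have hn : ‖(1 / (d : ℂ))‖ = 1 / (d : ℝ) := by
      rw [norm_div, norm_one, Complex.norm_natCast]
    unfold V5_u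
    rw [norm_mul, norm_mul, hn]
    calc 1 / (d : ℝ) * ‖∑ a ∈ range d, (c d a : ℂ) * ex (-((a : ℝ) * b / d))‖ *
        ‖∑ i ∈ range L, ex ((b : ℝ) / d * i)‖ ≤
        1 / (d : ℝ) * cw c d * (d / (2 * ((min b (d - b) : ℕ) : ℝ))) := by
          refine mul_le_mul (mul_le_mul_of_nonneg_left hA (by positivity)) hB (norm_nonneg _) ?_
          positivity
      _ = cw c d / (2 * ((min b (d - b) : ℕ) : ℝ)) := by
          field_simp

end Pool.Agent.TwA
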