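import Pool.Agent.Lib.MP_d610d0_nt.AS.Stm

set_option autoImplicit false

namespace Pool.Agent.TwA

open Finset MeasureTheory
open Pool.Agent.Lib.MP_d610d0_nt

theorem V6_reindex (D : ℕ) (f : ℕ → ℕ → ℂ) :
    ∑ d ∈ Icc 1 D, ∑ b ∈ Ico 1 d, f d b =
      ∑ c ∈ Icc 1 D, ((∑ d ∈ (Icc 1 D).filter (fun d => 2 * c ≤ d), f d c) +
        ∑ d ∈ (Icc 1 D).filter (fun d => 2 * c < d), f d (d - c)) := by
  rw [sum_add_distrib]
  have h1 : ∑ c ∈ Icc 1 D, ∑ d ∈ (Icc 1 D).filter (fun d => 2 * c ≤ d), f d c =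
      ∑ d ∈ Icc 1 D, ∑ c ∈ (Icc 1 D).filter (fun c => 2 * c ≤ d), f d c := by
    apply sum_comm'
    intro c d
    simp only [mem_filter, mem_Icc]
    tauto
  have h2 : ∑ c ∈ Icc 1 D, ∑ d ∈ (Icc 1 D).filter (fun d => 2 * c < d), f d (d - c) =
      ∑ d ∈ Icc 1 D, ∑ c ∈ (Icc 1 D).filter (fun c => 2 * c < d), f d (d - c) := by
    apply sum_comm'
    intro c d
    simp only [mem_filter, mem_Icc]
    tauto
  rw [h1, h2, ← sum_add_distrib]
  apply sum_congr rfl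
  intro d hd
  rw [mem_Icc] at hd
  rw [← sum_filter_add_sum_filter_not (Ico 1 d) (fun b => 2 * b ≤ d)]
  congr 1
  · apply sum_congr _ (fun _ _ => rfl)
    ext b
    simp only [mem_filter, mem_Icc, mem_Ico]
    omega
  · refine sum_nbij' (fun b => d - b) (fun b => d - b) ?_ ?_ ?_ ?_ ?_
    · intro b hb
      simp only [mem_filter, mem_Icc, mem_Ico] at hb ⊢
      omega
    · intro b hb
      simp only [mem_filter, mem_Icc, mem_Ico] at hb ⊢
      omega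
    · intro b hb
      simp only [mem_filter, mem_Icc, mem_Ico] at hb ⊢
      omega
    · intro b hb
      simp only [mem_filter, mem_Icc, mem_Ico] at hb ⊢
      omega
    · intro b hb
      simp only [mem_filter, mem_Icc, mem_Ico] at hb ⊢
      rw [Nat.sub_sub_self (by omega)]

theorem V6_ex (d c s : ℕ) (hd : 1 ≤ d) (hc : c ≤ d) :
    ex (((d - c : ℕ) : ℝ) / d * s) = ex ((-1 : ℝ) * c / d * s) := by
  have hd0 : (d : ℝ) ≠ 0 := by positivity
  have h : (((d - c : ℕ) : ℝ) / d * s) = (-1 : ℝ) * c / d * s + s := by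
    rw [Nat.cast_sub hc]
    field_simp
    ring
  unfold ex
  rw [h]
  push_cast
  rw [mul_add, Complex.exp_add]
  have h2 : Complex.exp (2 * Real.pi * Complex.I * (s : ℂ)) = 1 := by
    have := Complex.exp_nat_mul_two_pi_mul_I s
    rw [← this]
    congr 1
    ring
  rw [h2, mul_one]

theorem V6_harm (D : ℕ) : ∑ c ∈ Icc 1 D, (1 : ℝ) / c ≤ 1 + Real.log D := by
  have h := harmonic_le_one_add_log D
  rw [harmonic_eq_sum_Icc] at h
  push_cast at h
  simpa [one_div] using h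

theorem V6_sq (D : ℕ) : ∑ c ∈ Icc 1 D, (1 : ℝ) / (c : ℝ) ^ 2 ≤ 2 := by
  have h := sum_Ioo_inv_sq_le (α := ℝ) 0 (D + 1)
  have e : Ioo 0 (D + 1) = Icc 1 D := by
    ext x
    simp only [mem_Ioo, mem_Icc]
    omega
  rw [e] at h
  simpa [one_div] using h

/-- one line of frequencies -/
theorem V6_line (hV3 : S_V3) (D X c : ℕ) (cc : ℕ → ℕ → ℝ) (σ : ℝ) (hσ : σ = 1 ∨ σ = -1)
    (hD : 1 ≤ D) (hc : 1 ≤ c) (S : Finset ℕ) (hS : S ⊆ Icc 1 D) (h2 : ∀ d ∈ S, 2 * c ≤ d)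
    (u : ℕ → ℂ) (hu : ∀ d ∈ S, ‖u d‖ ≤ cw cc d / (2 * (c : ℝ))) :
    ∑ s ∈ range X, ‖∑ d ∈ S, u d * ex (σ * c / d * s)‖ ^ 2 ≤
      (X + (D : ℝ) ^ 2 / c * (1 + Real.log D)) *
        ((∑ d ∈ Icc 1 D, cw cc d ^ 2) * (1 / (4 * (c : ℝ) ^ 2))) := by
  refine (hV3 D c X σ hσ hD hc S hS h2 u).trans ?_
  have hlog : 0 ≤ Real.log D := Real.log_nonneg (by exact_mod_cast hD)
  apply mul_le_mul_of_nonneg_left _ (by positivity)
  rw [sum_mul]
  refine le_trans (sum_le_sum (g := fun d => cw cc d ^ 2 * (1 / (4 * (c : ℝ) ^ 2))) ?_) ?_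
  · intro d hd
    have h0 : 0 ≤ ‖u d‖ := norm_nonneg _
    have := pow_le_pow_left₀ h0 (hu d hd) 2
    refine this.trans (le_of_eq ?_)
    have hc0 : (c : ℝ) ≠ 0 := by positivity
    field_simp
    ring
  · apply sum_le_sum_of_subset_of_nonneg hS
    intro i _ _
    positivity

theorem p_V6 (hV3 : S_V3) (hV5 : S_V5) : S_V6 := by
  intro D X L cc hD
  obtain ⟨u, hu1, hu2⟩ := hV5 D L cc
  set W : ℝ := ∑ d ∈ Icc 1 D, cw cc d ^ 2 with hW
  have hW0 : 0 ≤ W := sum_nonneg (fun _ _ => sq_nonneg _)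
  set H : ℝ := 1 + Real.log D with hH
  have hlog : 0 ≤ Real.log D := Real.log_nonneg (by exact_mod_cast hD)
  have hH0 : 0 ≤ H := by positivity
  set Fc : ℕ → ℕ → ℂ := fun c s =>
    ∑ d ∈ (Icc 1 D).filter (fun d => 2 * c ≤ d), u d c * ex ((1 : ℝ) * c / d * s) with hF
  set Gc : ℕ → ℕ → ℂ := fun c s =>
    ∑ d ∈ (Icc 1 D).filter (fun d => 2 * c < d), u d (d - c) * ex ((-1 : ℝ) * c / d * s) with hG
  have hpt : ∀ s : ℕ, ((((∑ i ∈ range L, comb D cc (s + i)) - L * cmean D cc : ℝ)) : ℂ) =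
      ∑ c ∈ Icc 1 D, (Fc c s + Gc c s) := by
    intro s
    rw [hu1 s, V6_reindex D (fun d b => u d b * ex ((b : ℝ) / d * s))]
    apply sum_congr rfl
    intro c hc
    rw [mem_Icc] at hc
    congr 1
    · apply sum_congr rfl
      intro d _
      rw [one_mul]
    · apply sum_congr rfl
      intro d hd
      rw [mem_filter, mem_Icc] at hd
      rw [V6_ex d c s hd.1.1 (by omega)]
  have hFb : ∀ c ∈ Icc 1 D, ∑ s ∈ range X, ‖Fc c s‖ ^ 2 ≤
      (X + (D : ℝ) ^ 2 / c * H) * (W * (1 / (4 * (c : ℝ) ^ 2))) := by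
    intro c hc
    rw [mem_Icc] at hc
    refine V6_line hV3 D X c cc 1 (Or.inl rfl) hD hc.1 _ (filter_subset _ _) ?_ (fun d => u d c) ?_
    · intro d hd; exact (mem_filter.1 hd).2
    · intro d hd
      rw [mem_filter, mem_Icc] at hd
      have := hu2 d c hc.1 (by omega)
      rwa [Nat.min_eq_left (by omega)] at this
  have hGb : ∀ c ∈ Icc 1 D, ∑ s ∈ range X, ‖Gc c s‖ ^ 2 ≤
      (X + (D : ℝ) ^ 2 / c * H) * (W * (1 / (4 * (c : ℝ) ^ 2))) := by
    intro c hc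
    rw [mem_Icc] at hc
    refine V6_line hV3 D X c cc (-1) (Or.inr rfl) hD hc.1 _ (filter_subset _ _) ?_
      (fun d => u d (d - c)) ?_
    · intro d hd; have := (mem_filter.1 hd).2; omega
    · intro d hd
      rw [mem_filter, mem_Icc] at hd
      have := hu2 d (d - c) (by omega) (by omega)
      rwa [Nat.sub_sub_self (by omega), Nat.min_eq_right (by omega)] at this
  have hCS : ∀ s : ℕ, ((∑ i ∈ range L, comb D cc (s + i)) - L * cmean D cc) ^ 2 ≤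
      H * ∑ c ∈ Icc 1 D, (c : ℝ) * (2 * ‖Fc c s‖ ^ 2 + 2 * ‖Gc c s‖ ^ 2) := by
    intro s
    have h1 : ((∑ i ∈ range L, comb D cc (s + i)) - L * cmean D cc) ^ 2 =
        ‖∑ c ∈ Icc 1 D, (Fc c s + Gc c s)‖ ^ 2 := by
      rw [← hpt s, Complex.norm_real, Real.norm_eq_abs, sq_abs]
    rw [h1]
    have h2 : ‖∑ c ∈ Icc 1 D, (Fc c s + Gc c s)‖ ^ 2 ≤
        (∑ c ∈ Icc 1 D, ‖Fc c s + Gc c s‖) ^ 2 :=
      pow_le_pow_left₀ (norm_nonneg _) (norm_sum_le _ _) 2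
    have h3 : (∑ c ∈ Icc 1 D, ‖Fc c s + Gc c s‖) ^ 2 ≤
        (∑ c ∈ Icc 1 D, (1 : ℝ) / c) * ∑ c ∈ Icc 1 D, (c : ℝ) * ‖Fc c s + Gc c s‖ ^ 2 := by
      apply sum_sq_le_sum_mul_sum_of_sq_eq_mul
      · intro c _; positivity
      · intro c _; positivity
      · intro c hc
        rw [mem_Icc] at hc
        have hc0 : (c : ℝ) ≠ 0 := by
          have : 0 < c := by omega
          positivity
        field_simp
    have h4 : ∑ c ∈ Icc 1 D, (c : ℝ) * ‖Fc c s + Gc c s‖ ^ 2 ≤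
        ∑ c ∈ Icc 1 D, (c : ℝ) * (2 * ‖Fc c s‖ ^ 2 + 2 * ‖Gc c s‖ ^ 2) := by
      apply sum_le_sum
      intro c _
      apply mul_le_mul_of_nonneg_left _ (by positivity)
      have h5 := norm_add_le (Fc c s) (Gc c s)
      have h6 := pow_le_pow_left₀ (norm_nonneg _) h5 2
      nlinarith [sq_nonneg (‖Fc c s‖ - ‖Gc c s‖)]
    refine h2.trans (h3.trans ?_)
    refine mul_le_mul (V6_harm D) h4 ?_ hH0
    exact sum_nonneg (fun c _ => by positivity)
  calc ∑ s ∈ range X, ((∑ i ∈ range L, comb D cc (s + i)) - L * cmean D cc) ^ 2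
      ≤ ∑ s ∈ range X, H * ∑ c ∈ Icc 1 D, (c : ℝ) * (2 * ‖Fc c s‖ ^ 2 + 2 * ‖Gc c s‖ ^ 2) :=
        sum_le_sum (fun s _ => hCS s)
    _ = H * ∑ c ∈ Icc 1 D, (c : ℝ) * (2 * ∑ s ∈ range X, ‖Fc c s‖ ^ 2 +
          2 * ∑ s ∈ range X, ‖Gc c s‖ ^ 2) := by
        rw [← mul_sum, sum_comm]
        congr 1
        apply sum_congr rfl
        intro c _
        rw [← mul_sum, sum_add_distrib, ← mul_sum, ← mul_sum]
    _ ≤ H * ∑ c ∈ Icc 1 D, (X * W * (1 / (c : ℝ)) + (D : ℝ) ^ 2 * H * W * (1 / (c : ℝ) ^ 2)) := by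
        apply mul_le_mul_of_nonneg_left _ hH0
        apply sum_le_sum
        intro c hc
        have h1 := hFb c hc
        have h2 := hGb c hc
        rw [mem_Icc] at hc
        have hc0 : (0 : ℝ) < c := by
          have : 0 < c := by omega
          positivity
        calc (c : ℝ) * (2 * ∑ s ∈ range X, ‖Fc c s‖ ^ 2 + 2 * ∑ s ∈ range X, ‖Gc c s‖ ^ 2)
            ≤ (c : ℝ) * (2 * ((X + (D : ℝ) ^ 2 / c * H) * (W * (1 / (4 * (c : ℝ) ^ 2)))) +
              2 * ((X + (D : ℝ) ^ 2 / c * H) * (W * (1 / (4 * (c : ℝ) ^ 2))))) := by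
              apply mul_le_mul_of_nonneg_left _ hc0.le
              linarith
          _ = X * W * (1 / (c : ℝ)) + (D : ℝ) ^ 2 * H * W * (1 / (c : ℝ) ^ 2) := by
              field_simp
              ring
    _ = H * (X * W * (∑ c ∈ Icc 1 D, (1 : ℝ) / c) +
          (D : ℝ) ^ 2 * H * W * ∑ c ∈ Icc 1 D, (1 : ℝ) / (c : ℝ) ^ 2) := by
        rw [sum_add_distrib, ← mul_sum, ← mul_sum]
    _ ≤ H * (X * W * H + (D : ℝ) ^ 2 * H * W * 2) := by
        apply mul_le_mul_of_nonneg_left _ hH0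
        apply add_le_add
        · exact mul_le_mul_of_nonneg_left (V6_harm D) (by positivity)
        · exact mul_le_mul_of_nonneg_left (V6_sq D) (by positivity)
    _ = H ^ 2 * (X + 2 * (D : ℝ) ^ 2) * W := by ring

end Pool.Agent.TwA
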