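import Pool.Agent.Lib.MP_d610d0_nt.AS.Stm

/-! Piece B4: combinations of the functions `indF m` are `comb`s. -/

set_option autoImplicit false

namespace Pool.Agent.TwA

open Finset MeasureTheory
open Pool.Agent.Lib.MP_d610d0_nt

private lemma B4_expand {d : ℕ} (hd : 0 < d) (t : ℕ) :
    ∑ a ∈ range d, indF d a * ind d a t = indF d t := by
  rw [sum_eq_single (t % d)]
  · rw [(indF_per d).mod t]
    unfold ind
    rw [if_pos rfl, mul_one]
  · intro a _ ha
    unfold ind
    rw [if_neg (fun h => ha h.symm), mul_zero]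
  · intro h
    exact absurd (mem_range.2 (Nat.mod_lt t hd)) h

private lemma B4_nonneg (q t : ℕ) : 0 ≤ indF q t := by
  unfold indF
  split_ifs <;> norm_num

theorem p_B4 (hB3 : S_B3) : S_B4 := by
  intro ι I cf md D hI
  refine ⟨fun d a => (∑ i ∈ I.filter (fun i => md i = d), cf i) * indF d a, fun t => ?_,
    fun d => ?_⟩
  · unfold comb
    have h1 : ∀ i ∈ I, md i ∈ Icc 1 D := fun i hi =>
      mem_Icc.2 ⟨Nat.pos_of_ne_zero (hI i hi).1.1.ne_zero, (hI i hi).2⟩
    rw [← sum_fiberwise_of_maps_to h1]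
    refine sum_congr rfl fun d hd => ?_
    have hd1 : 0 < d := (mem_Icc.1 hd).1
    have h2 : ∑ a ∈ range d, (∑ i ∈ I.filter (fun i => md i = d), cf i) * indF d a * ind d a t =
        (∑ i ∈ I.filter (fun i => md i = d), cf i) * indF d t := by
      rw [← B4_expand hd1 t, mul_sum]
      exact sum_congr rfl fun a _ => by ring
    rw [h2, sum_mul]
    refine sum_congr rfl fun i hi => ?_
    rw [(mem_filter.1 hi).2]
  · unfold cw
    have h1 : ∑ a ∈ range d, |(∑ i ∈ I.filter (fun i => md i = d), cf i) * indF d a| =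
        |∑ i ∈ I.filter (fun i => md i = d), cf i| * ∑ a ∈ range d, indF d a := by
      rw [mul_sum]
      refine sum_congr rfl fun a _ => ?_
      rw [abs_mul, abs_of_nonneg (B4_nonneg d a)]
    rw [h1]
    rcases (I.filter (fun i => md i = d)).eq_empty_or_nonempty with h | ⟨i, hi⟩
    · rw [h]
      simp
    · obtain ⟨hi1, hi2⟩ := mem_filter.1 hi
      have hg : Good d := hi2 ▸ (hI i hi1).1
      calc |∑ i ∈ I.filter (fun i => md i = d), cf i| * ∑ a ∈ range d, indF d a
          ≤ (∑ i ∈ I.filter (fun i => md i = d), |cf i|) * (d.divisors.card : ℝ) :=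
            mul_le_mul (abs_sum_le_sum_abs _ _) (hB3 d hg)
              (sum_nonneg fun a _ => B4_nonneg d a) (sum_nonneg fun _ _ => abs_nonneg _)
        _ = (d.divisors.card : ℝ) * ∑ i ∈ I.filter (fun i => md i = d), |cf i| := mul_comm _ _

end Pool.Agent.TwA
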