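import Mathlib
import Pool.Agent.Lib.MP_d610d0_nt.AS.Stm

/-!
Piece E3: pointwise bound for `Lq`.
-/

set_option autoImplicit false

namespace Pool.Agent.TwA

open Finset MeasureTheory
open Pool.Agent.Lib.MP_d610d0_nt

theorem p_E3 (hB2 : S_B2) : S_E3 := by
  intro R t hR
  obtain ⟨h1, h2⟩ := hB2 R hR
  have hℓ : 0 ≤ Real.log R := Real.log_nonneg hR
  have hM : 0 ≤ M R 0 := M_nonneg R 0
  have hC : 0 ≤ 2 * Real.log R * M R 0 := by positivity
  have hind : ∀ e : ℕ, indF e t = if e ∣ F t then 1 else 0 := fun e => rfl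
  rw [h1 t]
  calc |∑ e ∈ SR R, lamq R e * indF e t|
      ≤ ∑ e ∈ SR R, |lamq R e * indF e t| := Finset.abs_sum_le_sum_abs _ _
    _ ≤ ∑ e ∈ SR R, (if e ∣ F t then
          2 * Real.log R * M R 0 * ((F t).divisors.card : ℝ) else 0) := by
        refine Finset.sum_le_sum fun e he => ?_
        rw [hind]
        split_ifs with hd
        · rw [mul_one]
          refine (h2 e he).trans (mul_le_mul_of_nonneg_left ?_ hC)
          exact_mod_cast Finset.card_le_card (Nat.divisors_subset_of_dvd (F_ne_zero t) hd)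
        · simp
    _ = ∑ e ∈ (SR R).filter (fun e => e ∣ F t),
          2 * Real.log R * M R 0 * ((F t).divisors.card : ℝ) := by
        rw [Finset.sum_filter]
    _ ≤ ∑ e ∈ (F t).divisors, 2 * Real.log R * M R 0 * ((F t).divisors.card : ℝ) := by
        refine Finset.sum_le_sum_of_subset_of_nonneg ?_ fun _ _ _ => by positivity
        intro e he
        exact Nat.mem_divisors.2 ⟨(Finset.mem_filter.1 he).2, F_ne_zero t⟩
    _ = 2 * Real.log R * M R 0 * ((F t).divisors.card : ℝ) ^ 2 := by
        rw [Finset.sum_const, nsmul_eq_mul]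
        ring

end Pool.Agent.TwA
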